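import Pool.Agent.RRMG.Nodes

/-!
# Cells of the scalar inequality, part 1
-/

set_option autoImplicit false

noncomputable section

namespace Pool.Agent.RRMG

open Real

theorem L0 {rj rk θ : ℝ} (hrj : 0 ≤ rj) (hrk : 0 ≤ rk) (j0 : (0 : ℝ) ≤ rj)
    (j1 : rj ≤ 3 / 16) (k0 : (0 : ℝ) ≤ rk) (k1 : rk ≤ 3 / 16) (t0 : 0 ≤ θ)
    (t1 : θ ≤ π) : Good (1 / 5) (61 / 40) rj rk (af θ) (mf θ) := by
  refine cell (al := 1 / 5) (la := 0) (b1 := 0) (b2 := 0) (w := 2)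
    (vj := 1) (vk := 1) (gj := 1) (hj := 1) (gk := 1)
    (hk := 1) (ej := 1) (ek := 1) ?_ ?_ ?_ ?_ ?_ ?_ ?_ ?_ ?_ ?_ ?_
    ?_ ?_ ?_ ?_ ?_ ?_ ?_ ?_ hrj hrk j0 j1 k0 k1 (arc_of t0 t1 ?_ ?_ nd0 nd8)
  · exact ok_of (by norm_num) (by norm_num) (by norm_num) (by norm_num) (by norm_num)
      (by norm_num) (by norm_num) (by norm_num) (by norm_num) (by norm_num) (by norm_num)
      (by norm_num)
  on_goal 19 => have := Real.pi_pos; linarith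
  on_goal 19 => have := Real.pi_pos; linarith
  all_goals first | (unfold EE; norm_num) | norm_num

theorem L1 {rj rk θ : ℝ} (hrj : 0 ≤ rj) (hrk : 0 ≤ rk) (j0 : (0 : ℝ) ≤ rj)
    (j1 : rj ≤ 3 / 8) (k0 : (3 / 16 : ℝ) ≤ rk) (k1 : rk ≤ 3 / 8) (t0 : 0 ≤ θ)
    (t1 : θ ≤ π) : Good (1 / 5) (61 / 40) rj rk (af θ) (mf θ) := by
  refine cell (al := 2 / 5) (la := 0) (b1 := 1 / 5) (b2 := 0) (w := 9 / 5)
    (vj := 2407 / 2500) (vk := 8421 / 10000) (gj := 9709 / 10000) (hj := 103 / 100) (gk := 8421 / 10000)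
    (hk := 2969 / 2500) (ej := 320981 / 500000) (ek := 163417 / 1000000) ?_ ?_ ?_ ?_ ?_ ?_ ?_ ?_ ?_ ?_ ?_
    ?_ ?_ ?_ ?_ ?_ ?_ ?_ ?_ hrj hrk j0 j1 k0 k1 (arc_of t0 t1 ?_ ?_ nd0 nd8)
  · exact ok_of (by norm_num) (by norm_num) (by norm_num) (by norm_num) (by norm_num)
      (by norm_num) (by norm_num) (by norm_num) (by norm_num) (by norm_num) (by norm_num)
      (by norm_num)
  on_goal 19 => have := Real.pi_pos; linarith
  on_goal 19 => have := Real.pi_pos; linarith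
  all_goals first | (unfold EE; norm_num) | norm_num

theorem L2 {rj rk θ : ℝ} (hrj : 0 ≤ rj) (hrk : 0 ≤ rk) (j0 : (0 : ℝ) ≤ rj)
    (j1 : rj ≤ 3 / 8) (k0 : (3 / 8 : ℝ) ≤ rk) (k1 : rk ≤ 3 / 4) (t0 : 0 ≤ θ)
    (t1 : θ ≤ π) : Good (1 / 5) (61 / 40) rj rk (af θ) (mf θ) := by
  refine cell (al := 1893 / 5000) (la := 0) (b1 := 893 / 5000) (b2 := 0) (w := 9107 / 5000)
    (vj := 4701 / 5000) (vk := 7627 / 10000) (gj := 4297 / 5000) (hj := 11637 / 10000) (gk := 8379 / 10000)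
    (hk := 2387 / 2000) (ej := 118997 / 250000) (ek := 3 / 500000) ?_ ?_ ?_ ?_ ?_ ?_ ?_ ?_ ?_ ?_ ?_
    ?_ ?_ ?_ ?_ ?_ ?_ ?_ ?_ hrj hrk j0 j1 k0 k1 (arc_of t0 t1 ?_ ?_ nd0 nd8)
  · exact ok_of (by norm_num) (by norm_num) (by norm_num) (by norm_num) (by norm_num)
      (by norm_num) (by norm_num) (by norm_num) (by norm_num) (by norm_num) (by norm_num)
      (by norm_num)
  on_goal 19 => have := Real.pi_pos; linarith
  on_goal 19 => have := Real.pi_pos; linarith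
  all_goals first | (unfold EE; norm_num) | norm_num

theorem L3 {rj rk θ : ℝ} (hrj : 0 ≤ rj) (hrk : 0 ≤ rk) (j0 : (3 / 8 : ℝ) ≤ rj)
    (j1 : rj ≤ 3 / 4) (k0 : (0 : ℝ) ≤ rk) (k1 : rk ≤ 3 / 4) (t0 : 0 ≤ θ)
    (t1 : θ ≤ π) : Good (1 / 5) (61 / 40) rj rk (af θ) (mf θ) := by
  refine cell (al := 233 / 625) (la := 0) (b1 := 108 / 625) (b2 := 0) (w := 1142 / 625)
    (vj := 7171 / 10000) (vk := 759 / 1000) (gj := 4571 / 5000) (hj := 10939 / 10000) (gk := 9433 / 10000)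
    (hk := 5301 / 5000) (ej := 41 / 1000000) (ek := 102041 / 1000000) ?_ ?_ ?_ ?_ ?_ ?_ ?_ ?_ ?_ ?_ ?_
    ?_ ?_ ?_ ?_ ?_ ?_ ?_ ?_ hrj hrk j0 j1 k0 k1 (arc_of t0 t1 ?_ ?_ nd0 nd8)
  · exact ok_of (by norm_num) (by norm_num) (by norm_num) (by norm_num) (by norm_num)
      (by norm_num) (by norm_num) (by norm_num) (by norm_num) (by norm_num) (by norm_num)
      (by norm_num)
  on_goal 19 => have := Real.pi_pos; linarith
  on_goal 19 => have := Real.pi_pos; linarith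
  all_goals first | (unfold EE; norm_num) | norm_num

theorem L4 {rj rk θ : ℝ} (hrj : 0 ≤ rj) (hrk : 0 ≤ rk) (j0 : (0 : ℝ) ≤ rj)
    (j1 : rj ≤ 3 / 8) (k0 : (3 / 4 : ℝ) ≤ rk) (k1 : rk ≤ 9 / 8) (t0 : 0 ≤ θ)
    (t1 : θ ≤ π) : Good (1 / 5) (61 / 40) rj rk (af θ) (mf θ) := by
  refine cell (al := 399 / 1000) (la := 0) (b1 := 199 / 1000) (b2 := 0) (w := 1801 / 1000)
    (vj := 9017 / 10000) (vk := 397 / 1000) (gj := 4401 / 5000) (hj := 5681 / 5000) (gk := 10613 / 10000)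
    (hk := 9423 / 10000) (ej := 36193 / 100000) (ek := 7 / 500000) ?_ ?_ ?_ ?_ ?_ ?_ ?_ ?_ ?_ ?_ ?_
    ?_ ?_ ?_ ?_ ?_ ?_ ?_ ?_ hrj hrk j0 j1 k0 k1 (arc_of t0 t1 ?_ ?_ nd0 nd8)
  · exact ok_of (by norm_num) (by norm_num) (by norm_num) (by norm_num) (by norm_num)
      (by norm_num) (by norm_num) (by norm_num) (by norm_num) (by norm_num) (by norm_num)
      (by norm_num)
  on_goal 19 => have := Real.pi_pos; linarith
  on_goal 19 => have := Real.pi_pos; linarith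
  all_goals first | (unfold EE; norm_num) | norm_num

theorem L5 {rj rk θ : ℝ} (hrj : 0 ≤ rj) (hrk : 0 ≤ rk) (j0 : (0 : ℝ) ≤ rj)
    (j1 : rj ≤ 3 / 16) (k0 : (9 / 8 : ℝ) ≤ rk) (k1 : rk ≤ 21 / 16) (t0 : 0 ≤ θ)
    (t1 : θ ≤ π) : Good (1 / 5) (61 / 40) rj rk (af θ) (mf θ) := by
  refine cell (al := 1999 / 5000) (la := 0) (b1 := 999 / 5000) (b2 := 0) (w := 9001 / 5000)
    (vj := 9689 / 10000) (vk := 337 / 1250) (gj := 4877 / 5000) (hj := 10253 / 10000) (gk := 568 / 625)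
    (hk := 2751 / 2500) (ej := 66711 / 100000) (ek := 1 / 40000) ?_ ?_ ?_ ?_ ?_ ?_ ?_ ?_ ?_ ?_ ?_
    ?_ ?_ ?_ ?_ ?_ ?_ ?_ ?_ hrj hrk j0 j1 k0 k1 (arc_of t0 t1 ?_ ?_ nd0 nd8)
  · exact ok_of (by norm_num) (by norm_num) (by norm_num) (by norm_num) (by norm_num)
      (by norm_num) (by norm_num) (by norm_num) (by norm_num) (by norm_num) (by norm_num)
      (by norm_num)
  on_goal 19 => have := Real.pi_pos; linarith
  on_goal 19 => have := Real.pi_pos; linarith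
  all_goals first | (unfold EE; norm_num) | norm_num

theorem L6 {rj rk θ : ℝ} (hrj : 0 ≤ rj) (hrk : 0 ≤ rk) (j0 : (0 : ℝ) ≤ rj)
    (j1 : rj ≤ 3 / 16) (k0 : (21 / 16 : ℝ) ≤ rk) (k1 : rk ≤ 3 / 2) (t0 : 0 ≤ θ)
    (t1 : θ ≤ π) : Good (1 / 5) (61 / 40) rj rk (af θ) (mf θ) := by
  refine cell (al := 3987 / 10000) (la := 0) (b1 := 1987 / 10000) (b2 := 0) (w := 18013 / 10000)
    (vj := 939 / 1000) (vk := 101 / 400) (gj := 4727 / 5000) (hj := 5289 / 5000) (gk := 4393 / 5000)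
    (hk := 5691 / 5000) (ej := 540347 / 1000000) (ek := 69 / 1000000) ?_ ?_ ?_ ?_ ?_ ?_ ?_ ?_ ?_ ?_ ?_
    ?_ ?_ ?_ ?_ ?_ ?_ ?_ ?_ hrj hrk j0 j1 k0 k1 (arc_of t0 t1 ?_ ?_ nd0 nd8)
  · exact ok_of (by norm_num) (by norm_num) (by norm_num) (by norm_num) (by norm_num)
      (by norm_num) (by norm_num) (by norm_num) (by norm_num) (by norm_num) (by norm_num)
      (by norm_num)
  on_goal 19 => have := Real.pi_pos; linarith
  on_goal 19 => have := Real.pi_pos; linarith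
  all_goals first | (unfold EE; norm_num) | norm_num

theorem L7 {rj rk θ : ℝ} (hrj : 0 ≤ rj) (hrk : 0 ≤ rk) (j0 : (3 / 16 : ℝ) ≤ rj)
    (j1 : rj ≤ 3 / 8) (k0 : (9 / 8 : ℝ) ≤ rk) (k1 : rk ≤ 3 / 2) (t0 : 0 ≤ θ)
    (t1 : θ ≤ π) : Good (1 / 5) (61 / 40) rj rk (af θ) (mf θ) := by
  refine cell (al := 1999 / 5000) (la := 177 / 10000) (b1 := 999 / 5000) (b2 := 0) (w := 713 / 400)
    (vj := 8017 / 10000) (vk := 2509 / 10000) (gj := 2097 / 2500) (hj := 5961 / 5000) (gk := 8699 / 10000)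
    (hk := 1437 / 1250) (ej := 72247 / 1000000) (ek := 31 / 500000) ?_ ?_ ?_ ?_ ?_ ?_ ?_ ?_ ?_ ?_ ?_
    ?_ ?_ ?_ ?_ ?_ ?_ ?_ ?_ hrj hrk j0 j1 k0 k1 (arc_of t0 t1 ?_ ?_ nd0 nd8)
  · exact ok_of (by norm_num) (by norm_num) (by norm_num) (by norm_num) (by norm_num)
      (by norm_num) (by norm_num) (by norm_num) (by norm_num) (by norm_num) (by norm_num)
      (by norm_num)
  on_goal 19 => have := Real.pi_pos; linarith
  on_goal 19 => have := Real.pi_pos; linarith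
  all_goals first | (unfold EE; norm_num) | norm_num

theorem L8 {rj rk θ : ℝ} (hrj : 0 ≤ rj) (hrk : 0 ≤ rk) (j0 : (3 / 8 : ℝ) ≤ rj)
    (j1 : rj ≤ 3 / 4) (k0 : (3 / 4 : ℝ) ≤ rk) (k1 : rk ≤ 9 / 8) (t0 : 0 ≤ θ)
    (t1 : θ ≤ π) : Good (1 / 5) (61 / 40) rj rk (af θ) (mf θ) := by
  refine cell (al := 2 / 625) (la := 27 / 10000) (b1 := 0) (b2 := 123 / 625) (w := 19973 / 10000)
    (vj := 6723 / 10000) (vk := 513 / 1250) (gj := 977 / 1250) (hj := 2559 / 2000) (gk := 4341 / 5000)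
    (hk := 11519 / 10000) (ej := 31 / 500000) (ek := 1 / 50000) ?_ ?_ ?_ ?_ ?_ ?_ ?_ ?_ ?_ ?_ ?_
    ?_ ?_ ?_ ?_ ?_ ?_ ?_ ?_ hrj hrk j0 j1 k0 k1 (arc_of t0 t1 ?_ ?_ nd0 nd8)
  · exact ok_of (by norm_num) (by norm_num) (by norm_num) (by norm_num) (by norm_num)
      (by norm_num) (by norm_num) (by norm_num) (by norm_num) (by norm_num) (by norm_num)
      (by norm_num)
  on_goal 19 => have := Real.pi_pos; linarith
  on_goal 19 => have := Real.pi_pos; linarith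
  all_goals first | (unfold EE; norm_num) | norm_num

theorem L9 {rj rk θ : ℝ} (hrj : 0 ≤ rj) (hrk : 0 ≤ rk) (j0 : (3 / 8 : ℝ) ≤ rj)
    (j1 : rj ≤ 3 / 4) (k0 : (9 / 8 : ℝ) ≤ rk) (k1 : rk ≤ 3 / 2) (t0 : 0 ≤ θ)
    (t1 : θ ≤ π / 2) : Good (1 / 5) (61 / 40) rj rk (af θ) (mf θ) := by
  refine cell (al := 7 / 125) (la := 1 / 2000) (b1 := 0) (b2 := 18 / 125) (w := 3999 / 2000)
    (vj := 131 / 200) (vk := 1461 / 5000) (gj := 8317 / 10000) (hj := 1503 / 1250) (gk := 7551 / 10000)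
    (hk := 3311 / 2500) (ej := 13 / 500000) (ek := 31 / 1000000) ?_ ?_ ?_ ?_ ?_ ?_ ?_ ?_ ?_ ?_ ?_
    ?_ ?_ ?_ ?_ ?_ ?_ ?_ ?_ hrj hrk j0 j1 k0 k1 (arc_of t0 t1 ?_ ?_ nd0 nd4)
  · exact ok_of (by norm_num) (by norm_num) (by norm_num) (by norm_num) (by norm_num)
      (by norm_num) (by norm_num) (by norm_num) (by norm_num) (by norm_num) (by norm_num)
      (by norm_num)
  on_goal 19 => have := Real.pi_pos; linarith
  on_goal 19 => have := Real.pi_pos; linarith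
  all_goals first | (unfold EE; norm_num) | norm_num

theorem L10 {rj rk θ : ℝ} (hrj : 0 ≤ rj) (hrk : 0 ≤ rk) (j0 : (3 / 8 : ℝ) ≤ rj)
    (j1 : rj ≤ 3 / 4) (k0 : (9 / 8 : ℝ) ≤ rk) (k1 : rk ≤ 21 / 16) (t0 : π / 2 ≤ θ)
    (t1 : θ ≤ π) : Good (1 / 5) (61 / 40) rj rk (af θ) (mf θ) := by
  refine cell (al := 3307 / 10000) (la := 121 / 250) (b1 := 1307 / 10000) (b2 := 0) (w := 13853 / 10000)
    (vj := 3457 / 5000) (vk := 331 / 1000) (gj := 452 / 625) (hj := 3457 / 2500) (gk := 7443 / 10000)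
    (hk := 3359 / 2500) (ej := 1349 / 1000000) (ek := 41 / 500000) ?_ ?_ ?_ ?_ ?_ ?_ ?_ ?_ ?_ ?_ ?_
    ?_ ?_ ?_ ?_ ?_ ?_ ?_ ?_ hrj hrk j0 j1 k0 k1 (arc_of t0 t1 ?_ ?_ nd4 nd8)
  · exact ok_of (by norm_num) (by norm_num) (by norm_num) (by norm_num) (by norm_num)
      (by norm_num) (by norm_num) (by norm_num) (by norm_num) (by norm_num) (by norm_num)
      (by norm_num)
  on_goal 19 => have := Real.pi_pos; linarith
  on_goal 19 => have := Real.pi_pos; linarith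
  all_goals first | (unfold EE; norm_num) | norm_num

theorem L11 {rj rk θ : ℝ} (hrj : 0 ≤ rj) (hrk : 0 ≤ rk) (j0 : (3 / 8 : ℝ) ≤ rj)
    (j1 : rj ≤ 3 / 4) (k0 : (21 / 16 : ℝ) ≤ rk) (k1 : rk ≤ 3 / 2) (t0 : π / 2 ≤ θ)
    (t1 : θ ≤ π) : Good (1 / 5) (61 / 40) rj rk (af θ) (mf θ) := by
  refine cell (al := 1999 / 5000) (la := 1277 / 2000) (b1 := 999 / 5000) (b2 := 0) (w := 11617 / 10000)
    (vj := 3321 / 5000) (vk := 1479 / 5000) (gj := 1809 / 2500) (hj := 691 / 500) (gk := 3419 / 5000)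
    (hk := 117 / 80) (ej := 5593 / 1000000) (ek := 31 / 1000000) ?_ ?_ ?_ ?_ ?_ ?_ ?_ ?_ ?_ ?_ ?_
    ?_ ?_ ?_ ?_ ?_ ?_ ?_ ?_ hrj hrk j0 j1 k0 k1 (arc_of t0 t1 ?_ ?_ nd4 nd8)
  · exact ok_of (by norm_num) (by norm_num) (by norm_num) (by norm_num) (by norm_num)
      (by norm_num) (by norm_num) (by norm_num) (by norm_num) (by norm_num) (by norm_num)
      (by norm_num)
  on_goal 19 => have := Real.pi_pos; linarith
  on_goal 19 => have := Real.pi_pos; linarith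
  all_goals first | (unfold EE; norm_num) | norm_num

theorem L12 {rj rk θ : ℝ} (hrj : 0 ≤ rj) (hrk : 0 ≤ rk) (j0 : (3 / 4 : ℝ) ≤ rj)
    (j1 : rj ≤ 9 / 8) (k0 : (3 / 4 : ℝ) ≤ rk) (k1 : rk ≤ 9 / 8) (t0 : 0 ≤ θ)
    (t1 : θ ≤ π / 4) : Good (1 / 5) (61 / 40) rj rk (af θ) (mf θ) := by
  refine cell (al := 2 / 5) (la := 203 / 5000) (b1 := 1 / 5) (b2 := 0) (w := 8797 / 5000)
    (vj := 3977 / 10000) (vk := 3953 / 10000) (gj := 10429 / 10000) (hj := 9589 / 10000) (gk := 10411 / 10000)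
    (hk := 4803 / 5000) (ej := 13 / 500000) (ek := 27 / 1000000) ?_ ?_ ?_ ?_ ?_ ?_ ?_ ?_ ?_ ?_ ?_
    ?_ ?_ ?_ ?_ ?_ ?_ ?_ ?_ hrj hrk j0 j1 k0 k1 (arc_of t0 t1 ?_ ?_ nd0 nd2)
  · exact ok_of (by norm_num) (by norm_num) (by norm_num) (by norm_num) (by norm_num)
      (by norm_num) (by norm_num) (by norm_num) (by norm_num) (by norm_num) (by norm_num)
      (by norm_num)
  on_goal 19 => have := Real.pi_pos; linarith
  on_goal 19 => have := Real.pi_pos; linarith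
  all_goals first | (unfold EE; norm_num) | norm_num

theorem L13 {rj rk θ : ℝ} (hrj : 0 ≤ rj) (hrk : 0 ≤ rk) (j0 : (3 / 4 : ℝ) ≤ rj)
    (j1 : rj ≤ 9 / 8) (k0 : (3 / 4 : ℝ) ≤ rk) (k1 : rk ≤ 9 / 8) (t0 : π / 4 ≤ θ)
    (t1 : θ ≤ π / 2) : Good (1 / 5) (61 / 40) rj rk (af θ) (mf θ) := by
  refine cell (al := 2 / 5) (la := 751 / 2500) (b1 := 1 / 5) (b2 := 0) (w := 3749 / 2500)
    (vj := 41 / 100) (vk := 4483 / 10000) (gj := 1851 / 2000) (hj := 2161 / 2000) (gk := 4709 / 5000)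
    (hk := 5309 / 5000) (ej := 7 / 1000000) (ek := 17 / 1000000) ?_ ?_ ?_ ?_ ?_ ?_ ?_ ?_ ?_ ?_ ?_
    ?_ ?_ ?_ ?_ ?_ ?_ ?_ ?_ hrj hrk j0 j1 k0 k1 (arc_of t0 t1 ?_ ?_ nd2 nd4)
  · exact ok_of (by norm_num) (by norm_num) (by norm_num) (by norm_num) (by norm_num)
      (by norm_num) (by norm_num) (by norm_num) (by norm_num) (by norm_num) (by norm_num)
      (by norm_num)
  on_goal 19 => have := Real.pi_pos; linarith
  on_goal 19 => have := Real.pi_pos; linarith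
  all_goals first | (unfold EE; norm_num) | norm_num

theorem L14 {rj rk θ : ℝ} (hrj : 0 ≤ rj) (hrk : 0 ≤ rk) (j0 : (3 / 4 : ℝ) ≤ rj)
    (j1 : rj ≤ 9 / 8) (k0 : (9 / 8 : ℝ) ≤ rk) (k1 : rk ≤ 3 / 2) (t0 : 0 ≤ θ)
    (t1 : θ ≤ π / 4) : Good (1 / 5) (61 / 40) rj rk (af θ) (mf θ) := by
  refine cell (al := 2 / 5) (la := 1 / 10000) (b1 := 1 / 5) (b2 := 0) (w := 17999 / 10000)
    (vj := 3939 / 10000) (vk := 521 / 2000) (gj := 5297 / 5000) (hj := 118 / 125) (gk := 1787 / 2000)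
    (hk := 1399 / 1250) (ej := 27 / 1000000) (ek := 9 / 250000) ?_ ?_ ?_ ?_ ?_ ?_ ?_ ?_ ?_ ?_ ?_
    ?_ ?_ ?_ ?_ ?_ ?_ ?_ ?_ hrj hrk j0 j1 k0 k1 (arc_of t0 t1 ?_ ?_ nd0 nd2)
  · exact ok_of (by norm_num) (by norm_num) (by norm_num) (by norm_num) (by norm_num)
      (by norm_num) (by norm_num) (by norm_num) (by norm_num) (by norm_num) (by norm_num)
      (by norm_num)
  on_goal 19 => have := Real.pi_pos; linarith
  on_goal 19 => have := Real.pi_pos; linarith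
  all_goals first | (unfold EE; norm_num) | norm_num

end Pool.Agent.RRMG
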