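import Pool.Agent.RRMG.Nodes

/-!
# Cells of the scalar inequality, part 2
-/

set_option autoImplicit false

noncomputable section

namespace Pool.Agent.RRMG

open Real

theorem L15 {rj rk θ : ℝ} (hrj : 0 ≤ rj) (hrk : 0 ≤ rk) (j0 : (3 / 4 : ℝ) ≤ rj)
    (j1 : rj ≤ 9 / 8) (k0 : (9 / 8 : ℝ) ≤ rk) (k1 : rk ≤ 3 / 2) (t0 : π / 4 ≤ θ)
    (t1 : θ ≤ 3 * π / 8) : Good (1 / 5) (61 / 40) rj rk (af θ) (mf θ) := by
  refine cell (al := 2 / 5) (la := 461 / 2000) (b1 := 1 / 5) (b2 := 0) (w := 3139 / 2000)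
    (vj := 1031 / 2500) (vk := 131 / 500) (gj := 4803 / 5000) (hj := 10411 / 10000) (gk := 8069 / 10000)
    (hk := 6197 / 5000) (ej := 63 / 1000000) (ek := 9 / 200000) ?_ ?_ ?_ ?_ ?_ ?_ ?_ ?_ ?_ ?_ ?_
    ?_ ?_ ?_ ?_ ?_ ?_ ?_ ?_ hrj hrk j0 j1 k0 k1 (arc_of t0 t1 ?_ ?_ nd2 nd3)
  · exact ok_of (by norm_num) (by norm_num) (by norm_num) (by norm_num) (by norm_num)
      (by norm_num) (by norm_num) (by norm_num) (by norm_num) (by norm_num) (by norm_num)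
      (by norm_num)
  on_goal 19 => have := Real.pi_pos; linarith
  on_goal 19 => have := Real.pi_pos; linarith
  all_goals first | (unfold EE; norm_num) | norm_num

theorem L16 {rj rk θ : ℝ} (hrj : 0 ≤ rj) (hrk : 0 ≤ rk) (j0 : (3 / 4 : ℝ) ≤ rj)
    (j1 : rj ≤ 9 / 8) (k0 : (9 / 8 : ℝ) ≤ rk) (k1 : rk ≤ 3 / 2) (t0 : 3 * π / 8 ≤ θ)
    (t1 : θ ≤ π / 2) : Good (1 / 5) (61 / 40) rj rk (af θ) (mf θ) := by
  refine cell (al := 2 / 5) (la := 358 / 625) (b1 := 1 / 5) (b2 := 0) (w := 767 / 625)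
    (vj := 4649 / 10000) (vk := 3157 / 10000) (gj := 4053 / 5000) (hj := 12337 / 10000) (gk := 3651 / 5000)
    (hk := 2739 / 2000) (ej := 3 / 125000) (ek := 33 / 1000000) ?_ ?_ ?_ ?_ ?_ ?_ ?_ ?_ ?_ ?_ ?_
    ?_ ?_ ?_ ?_ ?_ ?_ ?_ ?_ hrj hrk j0 j1 k0 k1 (arc_of t0 t1 ?_ ?_ nd3 nd4)
  · exact ok_of (by norm_num) (by norm_num) (by norm_num) (by norm_num) (by norm_num)
      (by norm_num) (by norm_num) (by norm_num) (by norm_num) (by norm_num) (by norm_num)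
      (by norm_num)
  on_goal 19 => have := Real.pi_pos; linarith
  on_goal 19 => have := Real.pi_pos; linarith
  all_goals first | (unfold EE; norm_num) | norm_num

theorem L17 {rj rk θ : ℝ} (hrj : 0 ≤ rj) (hrk : 0 ≤ rk) (j0 : (9 / 8 : ℝ) ≤ rj)
    (j1 : rj ≤ 21 / 16) (k0 : (9 / 8 : ℝ) ≤ rk) (k1 : rk ≤ 21 / 16) (t0 : 0 ≤ θ)
    (t1 : θ ≤ π / 4) : Good (1 / 5) (61 / 40) rj rk (af θ) (mf θ) := by
  refine cell (al := 2 / 5) (la := 197 / 5000) (b1 := 1 / 5) (b2 := 0) (w := 8803 / 5000)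
    (vj := 1429 / 5000) (vk := 1397 / 5000) (gj := 9187 / 10000) (hj := 2177 / 2000) (gk := 9089 / 10000)
    (hk := 11003 / 10000) (ej := 21 / 500000) (ek := 11 / 250000) ?_ ?_ ?_ ?_ ?_ ?_ ?_ ?_ ?_ ?_ ?_
    ?_ ?_ ?_ ?_ ?_ ?_ ?_ ?_ hrj hrk j0 j1 k0 k1 (arc_of t0 t1 ?_ ?_ nd0 nd2)
  · exact ok_of (by norm_num) (by norm_num) (by norm_num) (by norm_num) (by norm_num)
      (by norm_num) (by norm_num) (by norm_num) (by norm_num) (by norm_num) (by norm_num)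
      (by norm_num)
  on_goal 19 => have := Real.pi_pos; linarith
  on_goal 19 => have := Real.pi_pos; linarith
  all_goals first | (unfold EE; norm_num) | norm_num

theorem L18 {rj rk θ : ℝ} (hrj : 0 ≤ rj) (hrk : 0 ≤ rk) (j0 : (9 / 8 : ℝ) ≤ rj)
    (j1 : rj ≤ 21 / 16) (k0 : (21 / 16 : ℝ) ≤ rk) (k1 : rk ≤ 3 / 2) (t0 : 0 ≤ θ)
    (t1 : θ ≤ π / 4) : Good (1 / 5) (61 / 40) rj rk (af θ) (mf θ) := by
  refine cell (al := 3893 / 10000) (la := 0) (b1 := 1893 / 10000) (b2 := 0) (w := 18107 / 10000)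
    (vj := 1587 / 5000) (vk := 57 / 250) (gj := 487 / 500) (hj := 10267 / 10000) (gk := 4133 / 5000)
    (hk := 6049 / 5000) (ej := 49 / 500000) (ek := 1 / 8000) ?_ ?_ ?_ ?_ ?_ ?_ ?_ ?_ ?_ ?_ ?_
    ?_ ?_ ?_ ?_ ?_ ?_ ?_ ?_ hrj hrk j0 j1 k0 k1 (arc_of t0 t1 ?_ ?_ nd0 nd2)
  · exact ok_of (by norm_num) (by norm_num) (by norm_num) (by norm_num) (by norm_num)
      (by norm_num) (by norm_num) (by norm_num) (by norm_num) (by norm_num) (by norm_num)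
      (by norm_num)
  on_goal 19 => have := Real.pi_pos; linarith
  on_goal 19 => have := Real.pi_pos; linarith
  all_goals first | (unfold EE; norm_num) | norm_num

theorem L19 {rj rk θ : ℝ} (hrj : 0 ≤ rj) (hrk : 0 ≤ rk) (j0 : (21 / 16 : ℝ) ≤ rj)
    (j1 : rj ≤ 3 / 2) (k0 : (21 / 16 : ℝ) ≤ rk) (k1 : rk ≤ 3 / 2) (t0 : 0 ≤ θ)
    (t1 : θ ≤ π / 4) : Good (1 / 5) (61 / 40) rj rk (af θ) (mf θ) := by
  refine cell (al := 999 / 2500) (la := 139 / 5000) (b1 := 499 / 2500) (b2 := 0) (w := 8863 / 5000)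
    (vj := 2437 / 10000) (vk := 2519 / 10000) (gj := 853 / 1000) (hj := 2931 / 2500) (gk := 8677 / 10000)
    (hk := 461 / 400) (ej := 17 / 1000000) (ek := 1 / 50000) ?_ ?_ ?_ ?_ ?_ ?_ ?_ ?_ ?_ ?_ ?_
    ?_ ?_ ?_ ?_ ?_ ?_ ?_ ?_ hrj hrk j0 j1 k0 k1 (arc_of t0 t1 ?_ ?_ nd0 nd2)
  · exact ok_of (by norm_num) (by norm_num) (by norm_num) (by norm_num) (by norm_num)
      (by norm_num) (by norm_num) (by norm_num) (by norm_num) (by norm_num) (by norm_num)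
      (by norm_num)
  on_goal 19 => have := Real.pi_pos; linarith
  on_goal 19 => have := Real.pi_pos; linarith
  all_goals first | (unfold EE; norm_num) | norm_num

theorem L20 {rj rk θ : ℝ} (hrj : 0 ≤ rj) (hrk : 0 ≤ rk) (j0 : (9 / 8 : ℝ) ≤ rj)
    (j1 : rj ≤ 39 / 32) (k0 : (9 / 8 : ℝ) ≤ rk) (k1 : rk ≤ 21 / 16) (t0 : π / 4 ≤ θ)
    (t1 : θ ≤ 3 * π / 8) : Good (1 / 5) (61 / 40) rj rk (af θ) (mf θ) := by
  refine cell (al := 2 / 5) (la := 1347 / 5000) (b1 := 1 / 5) (b2 := 0) (w := 7653 / 5000)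
    (vj := 3021 / 10000) (vk := 2901 / 10000) (gj := 4227 / 5000) (hj := 11829 / 10000) (gk := 519 / 625)
    (hk := 12043 / 10000) (ej := 1 / 100000) (ek := 3 / 100000) ?_ ?_ ?_ ?_ ?_ ?_ ?_ ?_ ?_ ?_ ?_
    ?_ ?_ ?_ ?_ ?_ ?_ ?_ ?_ hrj hrk j0 j1 k0 k1 (arc_of t0 t1 ?_ ?_ nd2 nd3)
  · exact ok_of (by norm_num) (by norm_num) (by norm_num) (by norm_num) (by norm_num)
      (by norm_num) (by norm_num) (by norm_num) (by norm_num) (by norm_num) (by norm_num)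
      (by norm_num)
  on_goal 19 => have := Real.pi_pos; linarith
  on_goal 19 => have := Real.pi_pos; linarith
  all_goals first | (unfold EE; norm_num) | norm_num

theorem L21 {rj rk θ : ℝ} (hrj : 0 ≤ rj) (hrk : 0 ≤ rk) (j0 : (39 / 32 : ℝ) ≤ rj)
    (j1 : rj ≤ 21 / 16) (k0 : (9 / 8 : ℝ) ≤ rk) (k1 : rk ≤ 21 / 16) (t0 : π / 4 ≤ θ)
    (t1 : θ ≤ 3 * π / 8) : Good (1 / 5) (61 / 40) rj rk (af θ) (mf θ) := by
  refine cell (al := 3991 / 10000) (la := 303 / 1250) (b1 := 1991 / 10000) (b2 := 0) (w := 3117 / 2000)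
    (vj := 1433 / 5000) (vk := 2901 / 10000) (gj := 1673 / 2000) (hj := 2391 / 2000) (gk := 841 / 1000)
    (hk := 11891 / 10000) (ej := 97 / 1000000) (ek := 11 / 500000) ?_ ?_ ?_ ?_ ?_ ?_ ?_ ?_ ?_ ?_ ?_
    ?_ ?_ ?_ ?_ ?_ ?_ ?_ ?_ hrj hrk j0 j1 k0 k1 (arc_of t0 t1 ?_ ?_ nd2 nd3)
  · exact ok_of (by norm_num) (by norm_num) (by norm_num) (by norm_num) (by norm_num)
      (by norm_num) (by norm_num) (by norm_num) (by norm_num) (by norm_num) (by norm_num)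
      (by norm_num)
  on_goal 19 => have := Real.pi_pos; linarith
  on_goal 19 => have := Real.pi_pos; linarith
  all_goals first | (unfold EE; norm_num) | norm_num

theorem L22 {rj rk θ : ℝ} (hrj : 0 ≤ rj) (hrk : 0 ≤ rk) (j0 : (9 / 8 : ℝ) ≤ rj)
    (j1 : rj ≤ 21 / 16) (k0 : (21 / 16 : ℝ) ≤ rk) (k1 : rk ≤ 45 / 32) (t0 : π / 4 ≤ θ)
    (t1 : θ ≤ 3 * π / 8) : Good (1 / 5) (61 / 40) rj rk (af θ) (mf θ) := by
  refine cell (al := 2 / 5) (la := 1147 / 5000) (b1 := 1 / 5) (b2 := 0) (w := 7853 / 5000)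
    (vj := 711 / 2500) (vk := 2617 / 10000) (gj := 8393 / 10000) (hj := 2383 / 2000) (gk := 8069 / 10000)
    (hk := 6197 / 5000) (ej := 7 / 500000) (ek := 11 / 500000) ?_ ?_ ?_ ?_ ?_ ?_ ?_ ?_ ?_ ?_ ?_
    ?_ ?_ ?_ ?_ ?_ ?_ ?_ ?_ hrj hrk j0 j1 k0 k1 (arc_of t0 t1 ?_ ?_ nd2 nd3)
  · exact ok_of (by norm_num) (by norm_num) (by norm_num) (by norm_num) (by norm_num)
      (by norm_num) (by norm_num) (by norm_num) (by norm_num) (by norm_num) (by norm_num)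
      (by norm_num)
  on_goal 19 => have := Real.pi_pos; linarith
  on_goal 19 => have := Real.pi_pos; linarith
  all_goals first | (unfold EE; norm_num) | norm_num

theorem L23 {rj rk θ : ℝ} (hrj : 0 ≤ rj) (hrk : 0 ≤ rk) (j0 : (9 / 8 : ℝ) ≤ rj)
    (j1 : rj ≤ 21 / 16) (k0 : (45 / 32 : ℝ) ≤ rk) (k1 : rk ≤ 3 / 2) (t0 : π / 4 ≤ θ)
    (t1 : θ ≤ 3 * π / 8) : Good (1 / 5) (61 / 40) rj rk (af θ) (mf θ) := by
  refine cell (al := 97 / 250) (la := 2347 / 10000) (b1 := 47 / 250) (b2 := 0) (w := 15773 / 10000)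
    (vj := 3037 / 10000) (vk := 231 / 1000) (gj := 171 / 200) (hj := 731 / 625) (gk := 1871 / 2500)
    (hk := 6681 / 5000) (ej := 23 / 250000) (ek := 21 / 1000000) ?_ ?_ ?_ ?_ ?_ ?_ ?_ ?_ ?_ ?_ ?_
    ?_ ?_ ?_ ?_ ?_ ?_ ?_ ?_ hrj hrk j0 j1 k0 k1 (arc_of t0 t1 ?_ ?_ nd2 nd3)
  · exact ok_of (by norm_num) (by norm_num) (by norm_num) (by norm_num) (by norm_num)
      (by norm_num) (by norm_num) (by norm_num) (by norm_num) (by norm_num) (by norm_num)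
      (by norm_num)
  on_goal 19 => have := Real.pi_pos; linarith
  on_goal 19 => have := Real.pi_pos; linarith
  all_goals first | (unfold EE; norm_num) | norm_num

theorem L24 {rj rk θ : ℝ} (hrj : 0 ≤ rj) (hrk : 0 ≤ rk) (j0 : (21 / 16 : ℝ) ≤ rj)
    (j1 : rj ≤ 3 / 2) (k0 : (21 / 16 : ℝ) ≤ rk) (k1 : rk ≤ 3 / 2) (t0 : π / 4 ≤ θ)
    (t1 : θ ≤ 3 * π / 8) : Good (1 / 5) (61 / 40) rj rk (af θ) (mf θ) := by
  refine cell (al := 2 / 5) (la := 2249 / 10000) (b1 := 1 / 5) (b2 := 0) (w := 15751 / 10000)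
    (vj := 2249 / 10000) (vk := 297 / 1250) (gj := 1873 / 2500) (hj := 3337 / 2500) (gk := 7707 / 10000)
    (hk := 811 / 625) (ej := 29 / 500000) (ek := 27 / 500000) ?_ ?_ ?_ ?_ ?_ ?_ ?_ ?_ ?_ ?_ ?_
    ?_ ?_ ?_ ?_ ?_ ?_ ?_ ?_ hrj hrk j0 j1 k0 k1 (arc_of t0 t1 ?_ ?_ nd2 nd3)
  · exact ok_of (by norm_num) (by norm_num) (by norm_num) (by norm_num) (by norm_num)
      (by norm_num) (by norm_num) (by norm_num) (by norm_num) (by norm_num) (by norm_num)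
      (by norm_num)
  on_goal 19 => have := Real.pi_pos; linarith
  on_goal 19 => have := Real.pi_pos; linarith
  all_goals first | (unfold EE; norm_num) | norm_num

theorem L25 {rj rk θ : ℝ} (hrj : 0 ≤ rj) (hrk : 0 ≤ rk) (j0 : (9 / 8 : ℝ) ≤ rj)
    (j1 : rj ≤ 3 / 2) (k0 : (9 / 8 : ℝ) ≤ rk) (k1 : rk ≤ 3 / 2) (t0 : 3 * π / 8 ≤ θ)
    (t1 : θ ≤ π / 2) : Good (1 / 5) (61 / 40) rj rk (af θ) (mf θ) := by
  refine cell (al := 2 / 5) (la := 5267 / 10000) (b1 := 1 / 5) (b2 := 0) (w := 12733 / 10000)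
    (vj := 2783 / 10000) (vk := 289 / 1000) (gj := 3557 / 5000) (hj := 14057 / 10000) (gk := 452 / 625)
    (hk := 3457 / 2500) (ej := 83 / 1000000) (ek := 73 / 1000000) ?_ ?_ ?_ ?_ ?_ ?_ ?_ ?_ ?_ ?_ ?_
    ?_ ?_ ?_ ?_ ?_ ?_ ?_ ?_ hrj hrk j0 j1 k0 k1 (arc_of t0 t1 ?_ ?_ nd3 nd4)
  · exact ok_of (by norm_num) (by norm_num) (by norm_num) (by norm_num) (by norm_num)
      (by norm_num) (by norm_num) (by norm_num) (by norm_num) (by norm_num) (by norm_num)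
      (by norm_num)
  on_goal 19 => have := Real.pi_pos; linarith
  on_goal 19 => have := Real.pi_pos; linarith
  all_goals first | (unfold EE; norm_num) | norm_num

theorem L26 {rj rk θ : ℝ} (hrj : 0 ≤ rj) (hrk : 0 ≤ rk) (j0 : (3 / 4 : ℝ) ≤ rj)
    (j1 : rj ≤ 9 / 8) (k0 : (3 / 4 : ℝ) ≤ rk) (k1 : rk ≤ 15 / 16) (t0 : π / 2 ≤ θ)
    (t1 : θ ≤ π) : Good (1 / 5) (61 / 40) rj rk (af θ) (mf θ) := by
  refine cell (al := 707 / 5000) (la := 5103 / 10000) (b1 := 0) (b2 := 293 / 5000) (w := 14897 / 10000)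
    (vj := 5027 / 10000) (vk := 2759 / 5000) (gj := 1431 / 2000) (hj := 13977 / 10000) (gk := 1769 / 2500)
    (hk := 14133 / 10000) (ej := 29 / 1000000) (ek := 9 / 200000) ?_ ?_ ?_ ?_ ?_ ?_ ?_ ?_ ?_ ?_ ?_
    ?_ ?_ ?_ ?_ ?_ ?_ ?_ ?_ hrj hrk j0 j1 k0 k1 (arc_of t0 t1 ?_ ?_ nd4 nd8)
  · exact ok_of (by norm_num) (by norm_num) (by norm_num) (by norm_num) (by norm_num)
      (by norm_num) (by norm_num) (by norm_num) (by norm_num) (by norm_num) (by norm_num)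
      (by norm_num)
  on_goal 19 => have := Real.pi_pos; linarith
  on_goal 19 => have := Real.pi_pos; linarith
  all_goals first | (unfold EE; norm_num) | norm_num

theorem L27 {rj rk θ : ℝ} (hrj : 0 ≤ rj) (hrk : 0 ≤ rk) (j0 : (3 / 4 : ℝ) ≤ rj)
    (j1 : rj ≤ 15 / 16) (k0 : (15 / 16 : ℝ) ≤ rk) (k1 : rk ≤ 9 / 8) (t0 : π / 2 ≤ θ)
    (t1 : θ ≤ π) : Good (1 / 5) (61 / 40) rj rk (af θ) (mf θ) := by
  refine cell (al := 1353 / 5000) (la := 6833 / 10000) (b1 := 353 / 5000) (b2 := 0) (w := 12461 / 10000)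
    (vj := 2811 / 5000) (vk := 2389 / 5000) (gj := 171 / 250) (hj := 731 / 500) (gk := 1731 / 2500)
    (hk := 14443 / 10000) (ej := 9 / 1000000) (ek := 11 / 500000) ?_ ?_ ?_ ?_ ?_ ?_ ?_ ?_ ?_ ?_ ?_
    ?_ ?_ ?_ ?_ ?_ ?_ ?_ ?_ hrj hrk j0 j1 k0 k1 (arc_of t0 t1 ?_ ?_ nd4 nd8)
  · exact ok_of (by norm_num) (by norm_num) (by norm_num) (by norm_num) (by norm_num)
      (by norm_num) (by norm_num) (by norm_num) (by norm_num) (by norm_num) (by norm_num)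
      (by norm_num)
  on_goal 19 => have := Real.pi_pos; linarith
  on_goal 19 => have := Real.pi_pos; linarith
  all_goals first | (unfold EE; norm_num) | norm_num

theorem L28 {rj rk θ : ℝ} (hrj : 0 ≤ rj) (hrk : 0 ≤ rk) (j0 : (15 / 16 : ℝ) ≤ rj)
    (j1 : rj ≤ 33 / 32) (k0 : (15 / 16 : ℝ) ≤ rk) (k1 : rk ≤ 9 / 8) (t0 : π / 2 ≤ θ)
    (t1 : θ ≤ π) : Good (1 / 5) (61 / 40) rj rk (af θ) (mf θ) := by
  refine cell (al := 1323 / 5000) (la := 1717 / 2500) (b1 := 323 / 5000) (b2 := 0) (w := 6243 / 5000)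
    (vj := 2387 / 5000) (vk := 1171 / 2500) (gj := 1719 / 2500) (hj := 909 / 625) (gk := 429 / 625)
    (hk := 14569 / 10000) (ej := 1 / 40000) (ek := 7 / 1000000) ?_ ?_ ?_ ?_ ?_ ?_ ?_ ?_ ?_ ?_ ?_
    ?_ ?_ ?_ ?_ ?_ ?_ ?_ ?_ hrj hrk j0 j1 k0 k1 (arc_of t0 t1 ?_ ?_ nd4 nd8)
  · exact ok_of (by norm_num) (by norm_num) (by norm_num) (by norm_num) (by norm_num)
      (by norm_num) (by norm_num) (by norm_num) (by norm_num) (by norm_num) (by norm_num)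
      (by norm_num)
  on_goal 19 => have := Real.pi_pos; linarith
  on_goal 19 => have := Real.pi_pos; linarith
  all_goals first | (unfold EE; norm_num) | norm_num

theorem L29 {rj rk θ : ℝ} (hrj : 0 ≤ rj) (hrk : 0 ≤ rk) (j0 : (33 / 32 : ℝ) ≤ rj)
    (j1 : rj ≤ 9 / 8) (k0 : (15 / 16 : ℝ) ≤ rk) (k1 : rk ≤ 9 / 8) (t0 : π / 2 ≤ θ)
    (t1 : θ ≤ π) : Good (1 / 5) (61 / 40) rj rk (af θ) (mf θ) := by
  refine cell (al := 2 / 5) (la := 9333 / 10000) (b1 := 1 / 5) (b2 := 0) (w := 8667 / 10000)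
    (vj := 2389 / 5000) (vk := 199 / 400) (gj := 253 / 400) (hj := 15811 / 10000) (gk := 3167 / 5000)
    (hk := 3947 / 2500) (ej := 1 / 200000) (ek := 61 / 1000000) ?_ ?_ ?_ ?_ ?_ ?_ ?_ ?_ ?_ ?_ ?_
    ?_ ?_ ?_ ?_ ?_ ?_ ?_ ?_ hrj hrk j0 j1 k0 k1 (arc_of t0 t1 ?_ ?_ nd4 nd8)
  · exact ok_of (by norm_num) (by norm_num) (by norm_num) (by norm_num) (by norm_num)
      (by norm_num) (by norm_num) (by norm_num) (by norm_num) (by norm_num) (by norm_num)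
      (by norm_num)
  on_goal 19 => have := Real.pi_pos; linarith
  on_goal 19 => have := Real.pi_pos; linarith
  all_goals first | (unfold EE; norm_num) | norm_num

end Pool.Agent.RRMG
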