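import Pool.Agent.RRMG.Nodes

/-!
# Cells of the scalar inequality, part 3
-/

set_option autoImplicit false

noncomputable section

namespace Pool.Agent.RRMG

open Real

theorem L30 {rj rk θ : ℝ} (hrj : 0 ≤ rj) (hrk : 0 ≤ rk) (j0 : (3 / 4 : ℝ) ≤ rj)
    (j1 : rj ≤ 15 / 16) (k0 : (9 / 8 : ℝ) ≤ rk) (k1 : rk ≤ 21 / 16) (t0 : π / 2 ≤ θ)
    (t1 : θ ≤ π) : Good (1 / 5) (61 / 40) rj rk (af θ) (mf θ) := by
  refine cell (al := 2993 / 10000) (la := 7219 / 10000) (b1 := 993 / 10000) (b2 := 0) (w := 2947 / 2500)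
    (vj := 5567 / 10000) (vk := 3701 / 10000) (gj := 6811 / 10000) (hj := 14683 / 10000) (gk := 6489 / 10000)
    (hk := 15411 / 10000) (ej := 21 / 1000000) (ek := 9 / 500000) ?_ ?_ ?_ ?_ ?_ ?_ ?_ ?_ ?_ ?_ ?_
    ?_ ?_ ?_ ?_ ?_ ?_ ?_ ?_ hrj hrk j0 j1 k0 k1 (arc_of t0 t1 ?_ ?_ nd4 nd8)
  · exact ok_of (by norm_num) (by norm_num) (by norm_num) (by norm_num) (by norm_num)
      (by norm_num) (by norm_num) (by norm_num) (by norm_num) (by norm_num) (by norm_num)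
      (by norm_num)
  on_goal 19 => have := Real.pi_pos; linarith
  on_goal 19 => have := Real.pi_pos; linarith
  all_goals first | (unfold EE; norm_num) | norm_num

theorem L31 {rj rk θ : ℝ} (hrj : 0 ≤ rj) (hrk : 0 ≤ rk) (j0 : (3 / 4 : ℝ) ≤ rj)
    (j1 : rj ≤ 15 / 16) (k0 : (21 / 16 : ℝ) ≤ rk) (k1 : rk ≤ 3 / 2) (t0 : π / 2 ≤ θ)
    (t1 : θ ≤ π) : Good (1 / 5) (61 / 40) rj rk (af θ) (mf θ) := by
  refine cell (al := 2861 / 10000) (la := 3687 / 5000) (b1 := 861 / 10000) (b2 := 0) (w := 2353 / 2000)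
    (vj := 527 / 1000) (vk := 1799 / 5000) (gj := 3363 / 5000) (hj := 3717 / 2500) (gk := 157 / 250)
    (hk := 3981 / 2500) (ej := 7 / 200000) (ek := 1 / 10000) ?_ ?_ ?_ ?_ ?_ ?_ ?_ ?_ ?_ ?_ ?_
    ?_ ?_ ?_ ?_ ?_ ?_ ?_ ?_ hrj hrk j0 j1 k0 k1 (arc_of t0 t1 ?_ ?_ nd4 nd8)
  · exact ok_of (by norm_num) (by norm_num) (by norm_num) (by norm_num) (by norm_num)
      (by norm_num) (by norm_num) (by norm_num) (by norm_num) (by norm_num) (by norm_num)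
      (by norm_num)
  on_goal 19 => have := Real.pi_pos; linarith
  on_goal 19 => have := Real.pi_pos; linarith
  all_goals first | (unfold EE; norm_num) | norm_num

theorem L32 {rj rk θ : ℝ} (hrj : 0 ≤ rj) (hrk : 0 ≤ rk) (j0 : (15 / 16 : ℝ) ≤ rj)
    (j1 : rj ≤ 33 / 32) (k0 : (9 / 8 : ℝ) ≤ rk) (k1 : rk ≤ 21 / 16) (t0 : π / 2 ≤ θ)
    (t1 : θ ≤ π) : Good (1 / 5) (61 / 40) rj rk (af θ) (mf θ) := by
  refine cell (al := 389 / 2000) (la := 3357 / 5000) (b1 := 0) (b2 := 11 / 2000) (w := 6643 / 5000)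
    (vj := 2497 / 5000) (vk := 2043 / 5000) (gj := 827 / 1250) (hj := 3023 / 2000) (gk := 3197 / 5000)
    (hk := 391 / 250) (ej := 51 / 1000000) (ek := 49 / 1000000) ?_ ?_ ?_ ?_ ?_ ?_ ?_ ?_ ?_ ?_ ?_
    ?_ ?_ ?_ ?_ ?_ ?_ ?_ ?_ hrj hrk j0 j1 k0 k1 (arc_of t0 t1 ?_ ?_ nd4 nd8)
  · exact ok_of (by norm_num) (by norm_num) (by norm_num) (by norm_num) (by norm_num)
      (by norm_num) (by norm_num) (by norm_num) (by norm_num) (by norm_num) (by norm_num)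
      (by norm_num)
  on_goal 19 => have := Real.pi_pos; linarith
  on_goal 19 => have := Real.pi_pos; linarith
  all_goals first | (unfold EE; norm_num) | norm_num

theorem L33 {rj rk θ : ℝ} (hrj : 0 ≤ rj) (hrk : 0 ≤ rk) (j0 : (15 / 16 : ℝ) ≤ rj)
    (j1 : rj ≤ 33 / 32) (k0 : (21 / 16 : ℝ) ≤ rk) (k1 : rk ≤ 3 / 2) (t0 : π / 2 ≤ θ)
    (t1 : θ ≤ π) : Good (1 / 5) (61 / 40) rj rk (af θ) (mf θ) := by
  refine cell (al := 2077 / 10000) (la := 3427 / 5000) (b1 := 77 / 10000) (b2 := 0) (w := 13069 / 10000)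
    (vj := 4857 / 10000) (vk := 441 / 1250) (gj := 3303 / 5000) (hj := 7569 / 5000) (gk := 1209 / 2000)
    (hk := 16543 / 10000) (ej := 1 / 62500) (ek := 3 / 200000) ?_ ?_ ?_ ?_ ?_ ?_ ?_ ?_ ?_ ?_ ?_
    ?_ ?_ ?_ ?_ ?_ ?_ ?_ ?_ hrj hrk j0 j1 k0 k1 (arc_of t0 t1 ?_ ?_ nd4 nd8)
  · exact ok_of (by norm_num) (by norm_num) (by norm_num) (by norm_num) (by norm_num)
      (by norm_num) (by norm_num) (by norm_num) (by norm_num) (by norm_num) (by norm_num)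
      (by norm_num)
  on_goal 19 => have := Real.pi_pos; linarith
  on_goal 19 => have := Real.pi_pos; linarith
  all_goals first | (unfold EE; norm_num) | norm_num

theorem L34 {rj rk θ : ℝ} (hrj : 0 ≤ rj) (hrk : 0 ≤ rk) (j0 : (33 / 32 : ℝ) ≤ rj)
    (j1 : rj ≤ 9 / 8) (k0 : (9 / 8 : ℝ) ≤ rk) (k1 : rk ≤ 21 / 16) (t0 : π / 2 ≤ θ)
    (t1 : θ ≤ π) : Good (1 / 5) (61 / 40) rj rk (af θ) (mf θ) := by
  refine cell (al := 457 / 2000) (la := 7279 / 10000) (b1 := 57 / 2000) (b2 := 0) (w := 3109 / 2500)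
    (vj := 2339 / 5000) (vk := 1017 / 2500) (gj := 6477 / 10000) (hj := 193 / 125) (gk := 6287 / 10000)
    (hk := 7953 / 5000) (ej := 11 / 500000) (ek := 1 / 200000) ?_ ?_ ?_ ?_ ?_ ?_ ?_ ?_ ?_ ?_ ?_
    ?_ ?_ ?_ ?_ ?_ ?_ ?_ ?_ hrj hrk j0 j1 k0 k1 (arc_of t0 t1 ?_ ?_ nd4 nd8)
  · exact ok_of (by norm_num) (by norm_num) (by norm_num) (by norm_num) (by norm_num)
      (by norm_num) (by norm_num) (by norm_num) (by norm_num) (by norm_num) (by norm_num)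
      (by norm_num)
  on_goal 19 => have := Real.pi_pos; linarith
  on_goal 19 => have := Real.pi_pos; linarith
  all_goals first | (unfold EE; norm_num) | norm_num

theorem L35 {rj rk θ : ℝ} (hrj : 0 ≤ rj) (hrk : 0 ≤ rk) (j0 : (33 / 32 : ℝ) ≤ rj)
    (j1 : rj ≤ 9 / 8) (k0 : (21 / 16 : ℝ) ≤ rk) (k1 : rk ≤ 3 / 2) (t0 : π / 2 ≤ θ)
    (t1 : θ ≤ π) : Good (1 / 5) (61 / 40) rj rk (af θ) (mf θ) := by
  refine cell (al := 541 / 2500) (la := 3943 / 5000) (b1 := 41 / 2500) (b2 := 0) (w := 239 / 200)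
    (vj := 2281 / 5000) (vk := 907 / 2500) (gj := 6093 / 10000) (hj := 16413 / 10000) (gk := 5689 / 10000)
    (hk := 8789 / 5000) (ej := 3 / 200000) (ek := 3 / 250000) ?_ ?_ ?_ ?_ ?_ ?_ ?_ ?_ ?_ ?_ ?_
    ?_ ?_ ?_ ?_ ?_ ?_ ?_ ?_ hrj hrk j0 j1 k0 k1 (arc_of t0 t1 ?_ ?_ nd4 nd8)
  · exact ok_of (by norm_num) (by norm_num) (by norm_num) (by norm_num) (by norm_num)
      (by norm_num) (by norm_num) (by norm_num) (by norm_num) (by norm_num) (by norm_num)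
      (by norm_num)
  on_goal 19 => have := Real.pi_pos; linarith
  on_goal 19 => have := Real.pi_pos; linarith
  all_goals first | (unfold EE; norm_num) | norm_num

theorem L36 {rj rk θ : ℝ} (hrj : 0 ≤ rj) (hrk : 0 ≤ rk) (j0 : (9 / 8 : ℝ) ≤ rj)
    (j1 : rj ≤ 21 / 16) (k0 : (9 / 8 : ℝ) ≤ rk) (k1 : rk ≤ 21 / 16) (t0 : π / 2 ≤ θ)
    (t1 : θ ≤ π) : Good (1 / 5) (61 / 40) rj rk (af θ) (mf θ) := by
  refine cell (al := 3 / 16) (la := 3413 / 5000) (b1 := 0) (b2 := 1 / 80) (w := 6587 / 5000)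
    (vj := 3987 / 10000) (vk := 256 / 625) (gj := 3127 / 5000) (hj := 1599 / 1000) (gk := 6309 / 10000)
    (hk := 15851 / 10000) (ej := 13 / 1000000) (ek := 9 / 500000) ?_ ?_ ?_ ?_ ?_ ?_ ?_ ?_ ?_ ?_ ?_
    ?_ ?_ ?_ ?_ ?_ ?_ ?_ ?_ hrj hrk j0 j1 k0 k1 (arc_of t0 t1 ?_ ?_ nd4 nd8)
  · exact ok_of (by norm_num) (by norm_num) (by norm_num) (by norm_num) (by norm_num)
      (by norm_num) (by norm_num) (by norm_num) (by norm_num) (by norm_num) (by norm_num)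
      (by norm_num)
  on_goal 19 => have := Real.pi_pos; linarith
  on_goal 19 => have := Real.pi_pos; linarith
  all_goals first | (unfold EE; norm_num) | norm_num

theorem L37 {rj rk θ : ℝ} (hrj : 0 ≤ rj) (hrk : 0 ≤ rk) (j0 : (9 / 8 : ℝ) ≤ rj)
    (j1 : rj ≤ 3 / 2) (k0 : (21 / 16 : ℝ) ≤ rk) (k1 : rk ≤ 3 / 2) (t0 : π / 2 ≤ θ)
    (t1 : θ ≤ 3 * π / 4) : Good (1 / 5) (61 / 40) rj rk (af θ) (mf θ) := by
  refine cell (al := 3491 / 10000) (la := 4829 / 5000) (b1 := 1491 / 10000) (b2 := 0) (w := 8851 / 10000)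
    (vj := 3987 / 10000) (vk := 236 / 625) (gj := 1147 / 2000) (hj := 17437 / 10000) (gk := 5651 / 10000)
    (hk := 1106 / 625) (ej := 1 / 62500) (ek := 3 / 100000) ?_ ?_ ?_ ?_ ?_ ?_ ?_ ?_ ?_ ?_ ?_
    ?_ ?_ ?_ ?_ ?_ ?_ ?_ ?_ hrj hrk j0 j1 k0 k1 (arc_of t0 t1 ?_ ?_ nd4 nd6)
  · exact ok_of (by norm_num) (by norm_num) (by norm_num) (by norm_num) (by norm_num)
      (by norm_num) (by norm_num) (by norm_num) (by norm_num) (by norm_num) (by norm_num)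
      (by norm_num)
  on_goal 19 => have := Real.pi_pos; linarith
  on_goal 19 => have := Real.pi_pos; linarith
  all_goals first | (unfold EE; norm_num) | norm_num

theorem L38 {rj rk θ : ℝ} (hrj : 0 ≤ rj) (hrk : 0 ≤ rk) (j0 : (9 / 8 : ℝ) ≤ rj)
    (j1 : rj ≤ 3 / 2) (k0 : (21 / 16 : ℝ) ≤ rk) (k1 : rk ≤ 3 / 2) (t0 : 3 * π / 4 ≤ θ)
    (t1 : θ ≤ π) : Good (1 / 5) (61 / 40) rj rk (af θ) (mf θ) := by
  refine cell (al := 59 / 10000) (la := 299 / 500) (b1 := 0) (b2 := 1941 / 10000) (w := 701 / 500)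
    (vj := 2077 / 5000) (vk := 1951 / 5000) (gj := 5839 / 10000) (hj := 17127 / 10000) (gk := 5701 / 10000)
    (hk := 17541 / 10000) (ej := 19 / 1000000) (ek := 9 / 200000) ?_ ?_ ?_ ?_ ?_ ?_ ?_ ?_ ?_ ?_ ?_
    ?_ ?_ ?_ ?_ ?_ ?_ ?_ ?_ hrj hrk j0 j1 k0 k1 (arc_of t0 t1 ?_ ?_ nd6 nd8)
  · exact ok_of (by norm_num) (by norm_num) (by norm_num) (by norm_num) (by norm_num)
      (by norm_num) (by norm_num) (by norm_num) (by norm_num) (by norm_num) (by norm_num)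
      (by norm_num)
  on_goal 19 => have := Real.pi_pos; linarith
  on_goal 19 => have := Real.pi_pos; linarith
  all_goals first | (unfold EE; norm_num) | norm_num

theorem L39 {rj rk θ : ℝ} (hrj : 0 ≤ rj) (hrk : 0 ≤ rk) (j0 : (0 : ℝ) ≤ rj)
    (j1 : rj ≤ 3 / 16) (k0 : (3 / 2 : ℝ) ≤ rk) (k1 : rk ≤ 3) (t0 : 0 ≤ θ)
    (t1 : θ ≤ π) : Good (1 / 5) (61 / 40) rj rk (af θ) (mf θ) := by
  refine cell (al := 3901 / 10000) (la := 0) (b1 := 1901 / 10000) (b2 := 0) (w := 18099 / 10000)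
    (vj := 1881 / 2000) (vk := 1263 / 10000) (gj := 1139 / 1250) (hj := 439 / 400) (gk := 1179 / 2000)
    (hk := 4241 / 2500) (ej := 518537 / 1000000) (ek := 39 / 1000000) ?_ ?_ ?_ ?_ ?_ ?_ ?_ ?_ ?_ ?_ ?_
    ?_ ?_ ?_ ?_ ?_ ?_ ?_ ?_ hrj hrk j0 j1 k0 k1 (arc_of t0 t1 ?_ ?_ nd0 nd8)
  · exact ok_of (by norm_num) (by norm_num) (by norm_num) (by norm_num) (by norm_num)
      (by norm_num) (by norm_num) (by norm_num) (by norm_num) (by norm_num) (by norm_num)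
      (by norm_num)
  on_goal 19 => have := Real.pi_pos; linarith
  on_goal 19 => have := Real.pi_pos; linarith
  all_goals first | (unfold EE; norm_num) | norm_num

theorem L40 {rj rk θ : ℝ} (hrj : 0 ≤ rj) (hrk : 0 ≤ rk) (j0 : (3 / 16 : ℝ) ≤ rj)
    (j1 : rj ≤ 3 / 8) (k0 : (3 / 2 : ℝ) ≤ rk) (k1 : rk ≤ 3) (t0 : 0 ≤ θ)
    (t1 : θ ≤ π) : Good (1 / 5) (61 / 40) rj rk (af θ) (mf θ) := by
  refine cell (al := 3981 / 10000) (la := 1 / 10000) (b1 := 1981 / 10000) (b2 := 0) (w := 9009 / 5000)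
    (vj := 203 / 250) (vk := 143 / 1250) (gj := 1573 / 2000) (hj := 2543 / 2000) (gk := 5631 / 10000)
    (hk := 17759 / 10000) (ej := 38289 / 1000000) (ek := 91 / 1000000) ?_ ?_ ?_ ?_ ?_ ?_ ?_ ?_ ?_ ?_ ?_
    ?_ ?_ ?_ ?_ ?_ ?_ ?_ ?_ hrj hrk j0 j1 k0 k1 (arc_of t0 t1 ?_ ?_ nd0 nd8)
  · exact ok_of (by norm_num) (by norm_num) (by norm_num) (by norm_num) (by norm_num)
      (by norm_num) (by norm_num) (by norm_num) (by norm_num) (by norm_num) (by norm_num)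
      (by norm_num)
  on_goal 19 => have := Real.pi_pos; linarith
  on_goal 19 => have := Real.pi_pos; linarith
  all_goals first | (unfold EE; norm_num) | norm_num

theorem L41 {rj rk θ : ℝ} (hrj : 0 ≤ rj) (hrk : 0 ≤ rk) (j0 : (3 / 8 : ℝ) ≤ rj)
    (j1 : rj ≤ 3 / 4) (k0 : (3 / 2 : ℝ) ≤ rk) (k1 : rk ≤ 9 / 4) (t0 : 0 ≤ θ)
    (t1 : θ ≤ π / 2) : Good (1 / 5) (61 / 40) rj rk (af θ) (mf θ) := by
  refine cell (al := 2417 / 10000) (la := 131 / 10000) (b1 := 417 / 10000) (b2 := 0) (w := 4863 / 2500)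
    (vj := 3567 / 5000) (vk := 1671 / 10000) (gj := 2093 / 2500) (hj := 2389 / 2000) (gk := 583 / 1000)
    (hk := 17153 / 10000) (ej := 17 / 250000) (ek := 157 / 1000000) ?_ ?_ ?_ ?_ ?_ ?_ ?_ ?_ ?_ ?_ ?_
    ?_ ?_ ?_ ?_ ?_ ?_ ?_ ?_ hrj hrk j0 j1 k0 k1 (arc_of t0 t1 ?_ ?_ nd0 nd4)
  · exact ok_of (by norm_num) (by norm_num) (by norm_num) (by norm_num) (by norm_num)
      (by norm_num) (by norm_num) (by norm_num) (by norm_num) (by norm_num) (by norm_num)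
      (by norm_num)
  on_goal 19 => have := Real.pi_pos; linarith
  on_goal 19 => have := Real.pi_pos; linarith
  all_goals first | (unfold EE; norm_num) | norm_num

theorem L42 {rj rk θ : ℝ} (hrj : 0 ≤ rj) (hrk : 0 ≤ rk) (j0 : (3 / 8 : ℝ) ≤ rj)
    (j1 : rj ≤ 3 / 4) (k0 : (3 / 2 : ℝ) ≤ rk) (k1 : rk ≤ 9 / 4) (t0 : π / 2 ≤ θ)
    (t1 : θ ≤ π) : Good (1 / 5) (61 / 40) rj rk (af θ) (mf θ) := by
  refine cell (al := 2083 / 10000) (la := 731 / 2000) (b1 := 83 / 10000) (b2 := 0) (w := 8131 / 5000)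
    (vj := 3301 / 5000) (vk := 553 / 2500) (gj := 7379 / 10000) (hj := 847 / 625) (gk := 1137 / 2000)
    (hk := 17591 / 10000) (ej := 31 / 1000000) (ek := 93 / 1000000) ?_ ?_ ?_ ?_ ?_ ?_ ?_ ?_ ?_ ?_ ?_
    ?_ ?_ ?_ ?_ ?_ ?_ ?_ ?_ hrj hrk j0 j1 k0 k1 (arc_of t0 t1 ?_ ?_ nd4 nd8)
  · exact ok_of (by norm_num) (by norm_num) (by norm_num) (by norm_num) (by norm_num)
      (by norm_num) (by norm_num) (by norm_num) (by norm_num) (by norm_num) (by norm_num)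
      (by norm_num)
  on_goal 19 => have := Real.pi_pos; linarith
  on_goal 19 => have := Real.pi_pos; linarith
  all_goals first | (unfold EE; norm_num) | norm_num

theorem L43 {rj rk θ : ℝ} (hrj : 0 ≤ rj) (hrk : 0 ≤ rk) (j0 : (3 / 8 : ℝ) ≤ rj)
    (j1 : rj ≤ 3 / 4) (k0 : (9 / 4 : ℝ) ≤ rk) (k1 : rk ≤ 3) (t0 : 0 ≤ θ)
    (t1 : θ ≤ π) : Good (1 / 5) (61 / 40) rj rk (af θ) (mf θ) := by
  refine cell (al := 7 / 2500) (la := 3 / 5000) (b1 := 0) (b2 := 493 / 2500) (w := 9997 / 5000)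
    (vj := 82 / 125) (vk := 1557 / 10000) (gj := 8039 / 10000) (hj := 311 / 250) (gk := 267 / 625)
    (hk := 23409 / 10000) (ej := 23 / 200000) (ek := 2 / 15625) ?_ ?_ ?_ ?_ ?_ ?_ ?_ ?_ ?_ ?_ ?_
    ?_ ?_ ?_ ?_ ?_ ?_ ?_ ?_ hrj hrk j0 j1 k0 k1 (arc_of t0 t1 ?_ ?_ nd0 nd8)
  · exact ok_of (by norm_num) (by norm_num) (by norm_num) (by norm_num) (by norm_num)
      (by norm_num) (by norm_num) (by norm_num) (by norm_num) (by norm_num) (by norm_num)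
      (by norm_num)
  on_goal 19 => have := Real.pi_pos; linarith
  on_goal 19 => have := Real.pi_pos; linarith
  all_goals first | (unfold EE; norm_num) | norm_num

theorem L44 {rj rk θ : ℝ} (hrj : 0 ≤ rj) (hrk : 0 ≤ rk) (j0 : (3 / 4 : ℝ) ≤ rj)
    (j1 : rj ≤ 9 / 8) (k0 : (3 / 2 : ℝ) ≤ rk) (k1 : rk ≤ 9 / 4) (t0 : 0 ≤ θ)
    (t1 : θ ≤ π / 4) : Good (1 / 5) (61 / 40) rj rk (af θ) (mf θ) := by
  refine cell (al := 3999 / 10000) (la := 1 / 2500) (b1 := 1999 / 10000) (b2 := 0) (w := 17997 / 10000)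
    (vj := 1039 / 2500) (vk := 93 / 625) (gj := 5371 / 5000) (hj := 931 / 1000) (gk := 3279 / 5000)
    (hk := 15249 / 10000) (ej := 9 / 100000) (ek := 3 / 500000) ?_ ?_ ?_ ?_ ?_ ?_ ?_ ?_ ?_ ?_ ?_
    ?_ ?_ ?_ ?_ ?_ ?_ ?_ ?_ hrj hrk j0 j1 k0 k1 (arc_of t0 t1 ?_ ?_ nd0 nd2)
  · exact ok_of (by norm_num) (by norm_num) (by norm_num) (by norm_num) (by norm_num)
      (by norm_num) (by norm_num) (by norm_num) (by norm_num) (by norm_num) (by norm_num)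
      (by norm_num)
  on_goal 19 => have := Real.pi_pos; linarith
  on_goal 19 => have := Real.pi_pos; linarith
  all_goals first | (unfold EE; norm_num) | norm_num

end Pool.Agent.RRMG
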