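import Pool.Agent.RRMG.Nodes

/-!
# Cells of the scalar inequality, part 4
-/

set_option autoImplicit false

noncomputable section

namespace Pool.Agent.RRMG

open Real

theorem L45 {rj rk θ : ℝ} (hrj : 0 ≤ rj) (hrk : 0 ≤ rk) (j0 : (9 / 8 : ℝ) ≤ rj)
    (j1 : rj ≤ 3 / 2) (k0 : (3 / 2 : ℝ) ≤ rk) (k1 : rk ≤ 9 / 4) (t0 : 0 ≤ θ)
    (t1 : θ ≤ π / 4) : Good (1 / 5) (61 / 40) rj rk (af θ) (mf θ) := by
  refine cell (al := 3989 / 10000) (la := 23 / 10000) (b1 := 1989 / 10000) (b2 := 0) (w := 4497 / 2500)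
    (vj := 1313 / 5000) (vk := 407 / 2500) (gj := 2239 / 2500) (hj := 5583 / 5000) (gk := 6891 / 10000)
    (hk := 907 / 625) (ej := 57 / 1000000) (ek := 7 / 50000) ?_ ?_ ?_ ?_ ?_ ?_ ?_ ?_ ?_ ?_ ?_
    ?_ ?_ ?_ ?_ ?_ ?_ ?_ ?_ hrj hrk j0 j1 k0 k1 (arc_of t0 t1 ?_ ?_ nd0 nd2)
  · exact ok_of (by norm_num) (by norm_num) (by norm_num) (by norm_num) (by norm_num)
      (by norm_num) (by norm_num) (by norm_num) (by norm_num) (by norm_num) (by norm_num)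
      (by norm_num)
  on_goal 19 => have := Real.pi_pos; linarith
  on_goal 19 => have := Real.pi_pos; linarith
  all_goals first | (unfold EE; norm_num) | norm_num

theorem L46 {rj rk θ : ℝ} (hrj : 0 ≤ rj) (hrk : 0 ≤ rk) (j0 : (3 / 4 : ℝ) ≤ rj)
    (j1 : rj ≤ 9 / 8) (k0 : (3 / 2 : ℝ) ≤ rk) (k1 : rk ≤ 9 / 4) (t0 : π / 4 ≤ θ)
    (t1 : θ ≤ 3 * π / 8) : Good (1 / 5) (61 / 40) rj rk (af θ) (mf θ) := by
  refine cell (al := 2 / 5) (la := 2517 / 10000) (b1 := 1 / 5) (b2 := 0) (w := 15483 / 10000)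
    (vj := 4089 / 10000) (vk := 753 / 5000) (gj := 2371 / 2500) (hj := 2109 / 2000) (gk := 2981 / 5000)
    (hk := 16773 / 10000) (ej := 51 / 1000000) (ek := 17 / 200000) ?_ ?_ ?_ ?_ ?_ ?_ ?_ ?_ ?_ ?_ ?_
    ?_ ?_ ?_ ?_ ?_ ?_ ?_ ?_ hrj hrk j0 j1 k0 k1 (arc_of t0 t1 ?_ ?_ nd2 nd3)
  · exact ok_of (by norm_num) (by norm_num) (by norm_num) (by norm_num) (by norm_num)
      (by norm_num) (by norm_num) (by norm_num) (by norm_num) (by norm_num) (by norm_num)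
      (by norm_num)
  on_goal 19 => have := Real.pi_pos; linarith
  on_goal 19 => have := Real.pi_pos; linarith
  all_goals first | (unfold EE; norm_num) | norm_num

theorem L47 {rj rk θ : ℝ} (hrj : 0 ≤ rj) (hrk : 0 ≤ rk) (j0 : (3 / 4 : ℝ) ≤ rj)
    (j1 : rj ≤ 9 / 8) (k0 : (3 / 2 : ℝ) ≤ rk) (k1 : rk ≤ 9 / 4) (t0 : 3 * π / 8 ≤ θ)
    (t1 : θ ≤ π / 2) : Good (1 / 5) (61 / 40) rj rk (af θ) (mf θ) := by
  refine cell (al := 93 / 250) (la := 2963 / 5000) (b1 := 43 / 250) (b2 := 0) (w := 6177 / 5000)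
    (vj := 2323 / 5000) (vk := 1687 / 10000) (gj := 3933 / 5000) (hj := 12713 / 10000) (gk := 2593 / 5000)
    (hk := 19283 / 10000) (ej := 1 / 250000) (ek := 19 / 200000) ?_ ?_ ?_ ?_ ?_ ?_ ?_ ?_ ?_ ?_ ?_
    ?_ ?_ ?_ ?_ ?_ ?_ ?_ ?_ hrj hrk j0 j1 k0 k1 (arc_of t0 t1 ?_ ?_ nd3 nd4)
  · exact ok_of (by norm_num) (by norm_num) (by norm_num) (by norm_num) (by norm_num)
      (by norm_num) (by norm_num) (by norm_num) (by norm_num) (by norm_num) (by norm_num)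
      (by norm_num)
  on_goal 19 => have := Real.pi_pos; linarith
  on_goal 19 => have := Real.pi_pos; linarith
  all_goals first | (unfold EE; norm_num) | norm_num

theorem L48 {rj rk θ : ℝ} (hrj : 0 ≤ rj) (hrk : 0 ≤ rk) (j0 : (9 / 8 : ℝ) ≤ rj)
    (j1 : rj ≤ 21 / 16) (k0 : (3 / 2 : ℝ) ≤ rk) (k1 : rk ≤ 27 / 16) (t0 : π / 4 ≤ θ)
    (t1 : θ ≤ 3 * π / 8) : Good (1 / 5) (61 / 40) rj rk (af θ) (mf θ) := by
  refine cell (al := 1983 / 5000) (la := 2501 / 10000) (b1 := 983 / 5000) (b2 := 0) (w := 15533 / 10000)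
    (vj := 399 / 1250) (vk := 89 / 500) (gj := 8717 / 10000) (hj := 717 / 625) (gk := 407 / 625)
    (hk := 15357 / 10000) (ej := 1 / 1000000) (ek := 11 / 200000) ?_ ?_ ?_ ?_ ?_ ?_ ?_ ?_ ?_ ?_ ?_
    ?_ ?_ ?_ ?_ ?_ ?_ ?_ ?_ hrj hrk j0 j1 k0 k1 (arc_of t0 t1 ?_ ?_ nd2 nd3)
  · exact ok_of (by norm_num) (by norm_num) (by norm_num) (by norm_num) (by norm_num)
      (by norm_num) (by norm_num) (by norm_num) (by norm_num) (by norm_num) (by norm_num)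
      (by norm_num)
  on_goal 19 => have := Real.pi_pos; linarith
  on_goal 19 => have := Real.pi_pos; linarith
  all_goals first | (unfold EE; norm_num) | norm_num

theorem L49 {rj rk θ : ℝ} (hrj : 0 ≤ rj) (hrk : 0 ≤ rk) (j0 : (21 / 16 : ℝ) ≤ rj)
    (j1 : rj ≤ 3 / 2) (k0 : (3 / 2 : ℝ) ≤ rk) (k1 : rk ≤ 27 / 16) (t0 : π / 4 ≤ θ)
    (t1 : θ ≤ 3 * π / 8) : Good (1 / 5) (61 / 40) rj rk (af θ) (mf θ) := by
  refine cell (al := 3937 / 10000) (la := 181 / 1250) (b1 := 1937 / 10000) (b2 := 0) (w := 3323 / 2000)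
    (vj := 2361 / 10000) (vk := 397 / 2000) (gj := 793 / 1000) (hj := 12611 / 10000) (gk := 7223 / 10000)
    (hk := 2769 / 2000) (ej := 13 / 500000) (ek := 41 / 500000) ?_ ?_ ?_ ?_ ?_ ?_ ?_ ?_ ?_ ?_ ?_
    ?_ ?_ ?_ ?_ ?_ ?_ ?_ ?_ hrj hrk j0 j1 k0 k1 (arc_of t0 t1 ?_ ?_ nd2 nd3)
  · exact ok_of (by norm_num) (by norm_num) (by norm_num) (by norm_num) (by norm_num)
      (by norm_num) (by norm_num) (by norm_num) (by norm_num) (by norm_num) (by norm_num)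
      (by norm_num)
  on_goal 19 => have := Real.pi_pos; linarith
  on_goal 19 => have := Real.pi_pos; linarith
  all_goals first | (unfold EE; norm_num) | norm_num

theorem L50 {rj rk θ : ℝ} (hrj : 0 ≤ rj) (hrk : 0 ≤ rk) (j0 : (9 / 8 : ℝ) ≤ rj)
    (j1 : rj ≤ 3 / 2) (k0 : (27 / 16 : ℝ) ≤ rk) (k1 : rk ≤ 15 / 8) (t0 : π / 4 ≤ θ)
    (t1 : θ ≤ 3 * π / 8) : Good (1 / 5) (61 / 40) rj rk (af θ) (mf θ) := by
  refine cell (al := 2 / 5) (la := 1813 / 10000) (b1 := 1 / 5) (b2 := 0) (w := 16187 / 10000)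
    (vj := 2573 / 10000) (vk := 1473 / 10000) (gj := 8187 / 10000) (hj := 2443 / 2000) (gk := 3033 / 5000)
    (hk := 8243 / 5000) (ej := 11 / 250000) (ek := 27 / 1000000) ?_ ?_ ?_ ?_ ?_ ?_ ?_ ?_ ?_ ?_ ?_
    ?_ ?_ ?_ ?_ ?_ ?_ ?_ ?_ hrj hrk j0 j1 k0 k1 (arc_of t0 t1 ?_ ?_ nd2 nd3)
  · exact ok_of (by norm_num) (by norm_num) (by norm_num) (by norm_num) (by norm_num)
      (by norm_num) (by norm_num) (by norm_num) (by norm_num) (by norm_num) (by norm_num)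
      (by norm_num)
  on_goal 19 => have := Real.pi_pos; linarith
  on_goal 19 => have := Real.pi_pos; linarith
  all_goals first | (unfold EE; norm_num) | norm_num

theorem L51 {rj rk θ : ℝ} (hrj : 0 ≤ rj) (hrk : 0 ≤ rk) (j0 : (9 / 8 : ℝ) ≤ rj)
    (j1 : rj ≤ 3 / 2) (k0 : (15 / 8 : ℝ) ≤ rk) (k1 : rk ≤ 9 / 4) (t0 : π / 4 ≤ θ)
    (t1 : θ ≤ 3 * π / 8) : Good (1 / 5) (61 / 40) rj rk (af θ) (mf θ) := by
  refine cell (al := 2 / 5) (la := 1813 / 10000) (b1 := 1 / 5) (b2 := 0) (w := 16187 / 10000)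
    (vj := 2573 / 10000) (vk := 1473 / 10000) (gj := 8187 / 10000) (hj := 2443 / 2000) (gk := 3033 / 5000)
    (hk := 8243 / 5000) (ej := 11 / 250000) (ek := 27 / 1000000) ?_ ?_ ?_ ?_ ?_ ?_ ?_ ?_ ?_ ?_ ?_
    ?_ ?_ ?_ ?_ ?_ ?_ ?_ ?_ hrj hrk j0 j1 k0 k1 (arc_of t0 t1 ?_ ?_ nd2 nd3)
  · exact ok_of (by norm_num) (by norm_num) (by norm_num) (by norm_num) (by norm_num)
      (by norm_num) (by norm_num) (by norm_num) (by norm_num) (by norm_num) (by norm_num)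
      (by norm_num)
  on_goal 19 => have := Real.pi_pos; linarith
  on_goal 19 => have := Real.pi_pos; linarith
  all_goals first | (unfold EE; norm_num) | norm_num

theorem L52 {rj rk θ : ℝ} (hrj : 0 ≤ rj) (hrk : 0 ≤ rk) (j0 : (9 / 8 : ℝ) ≤ rj)
    (j1 : rj ≤ 3 / 2) (k0 : (3 / 2 : ℝ) ≤ rk) (k1 : rk ≤ 15 / 8) (t0 : 3 * π / 8 ≤ θ)
    (t1 : θ ≤ π / 2) : Good (1 / 5) (61 / 40) rj rk (af θ) (mf θ) := by
  refine cell (al := 2 / 5) (la := 2643 / 5000) (b1 := 1 / 5) (b2 := 0) (w := 6357 / 5000)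
    (vj := 2831 / 10000) (vk := 1907 / 10000) (gj := 7161 / 10000) (hj := 2793 / 2000) (gk := 1481 / 2500)
    (hk := 16881 / 10000) (ej := 7 / 250000) (ek := 1 / 25000) ?_ ?_ ?_ ?_ ?_ ?_ ?_ ?_ ?_ ?_ ?_
    ?_ ?_ ?_ ?_ ?_ ?_ ?_ ?_ hrj hrk j0 j1 k0 k1 (arc_of t0 t1 ?_ ?_ nd3 nd4)
  · exact ok_of (by norm_num) (by norm_num) (by norm_num) (by norm_num) (by norm_num)
      (by norm_num) (by norm_num) (by norm_num) (by norm_num) (by norm_num) (by norm_num)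
      (by norm_num)
  on_goal 19 => have := Real.pi_pos; linarith
  on_goal 19 => have := Real.pi_pos; linarith
  all_goals first | (unfold EE; norm_num) | norm_num

theorem L53 {rj rk θ : ℝ} (hrj : 0 ≤ rj) (hrk : 0 ≤ rk) (j0 : (9 / 8 : ℝ) ≤ rj)
    (j1 : rj ≤ 3 / 2) (k0 : (15 / 8 : ℝ) ≤ rk) (k1 : rk ≤ 33 / 16) (t0 : 3 * π / 8 ≤ θ)
    (t1 : θ ≤ π / 2) : Good (1 / 5) (61 / 40) rj rk (af θ) (mf θ) := by
  refine cell (al := 799 / 2000) (la := 739 / 2500) (b1 := 399 / 2000) (b2 := 0) (w := 15049 / 10000)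
    (vj := 1181 / 5000) (vk := 63 / 500) (gj := 464 / 625) (hj := 1347 / 1000) (gk := 1327 / 2500)
    (hk := 471 / 250) (ej := 97 / 1000000) (ek := 19 / 125000) ?_ ?_ ?_ ?_ ?_ ?_ ?_ ?_ ?_ ?_ ?_
    ?_ ?_ ?_ ?_ ?_ ?_ ?_ ?_ hrj hrk j0 j1 k0 k1 (arc_of t0 t1 ?_ ?_ nd3 nd4)
  · exact ok_of (by norm_num) (by norm_num) (by norm_num) (by norm_num) (by norm_num)
      (by norm_num) (by norm_num) (by norm_num) (by norm_num) (by norm_num) (by norm_num)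
      (by norm_num)
  on_goal 19 => have := Real.pi_pos; linarith
  on_goal 19 => have := Real.pi_pos; linarith
  all_goals first | (unfold EE; norm_num) | norm_num

theorem L54 {rj rk θ : ℝ} (hrj : 0 ≤ rj) (hrk : 0 ≤ rk) (j0 : (9 / 8 : ℝ) ≤ rj)
    (j1 : rj ≤ 3 / 2) (k0 : (33 / 16 : ℝ) ≤ rk) (k1 : rk ≤ 9 / 4) (t0 : 3 * π / 8 ≤ θ)
    (t1 : θ ≤ π / 2) : Good (1 / 5) (61 / 40) rj rk (af θ) (mf θ) := by
  refine cell (al := 1789 / 5000) (la := 83 / 200) (b1 := 789 / 5000) (b2 := 0) (w := 892 / 625)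
    (vj := 601 / 2000) (vk := 1109 / 10000) (gj := 3789 / 5000) (hj := 13197 / 10000) (gk := 549 / 1250)
    (hk := 22769 / 10000) (ej := 3 / 500000) (ek := 3 / 62500) ?_ ?_ ?_ ?_ ?_ ?_ ?_ ?_ ?_ ?_ ?_
    ?_ ?_ ?_ ?_ ?_ ?_ ?_ ?_ hrj hrk j0 j1 k0 k1 (arc_of t0 t1 ?_ ?_ nd3 nd4)
  · exact ok_of (by norm_num) (by norm_num) (by norm_num) (by norm_num) (by norm_num)
      (by norm_num) (by norm_num) (by norm_num) (by norm_num) (by norm_num) (by norm_num)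
      (by norm_num)
  on_goal 19 => have := Real.pi_pos; linarith
  on_goal 19 => have := Real.pi_pos; linarith
  all_goals first | (unfold EE; norm_num) | norm_num

theorem L55 {rj rk θ : ℝ} (hrj : 0 ≤ rj) (hrk : 0 ≤ rk) (j0 : (3 / 4 : ℝ) ≤ rj)
    (j1 : rj ≤ 3 / 2) (k0 : (3 / 2 : ℝ) ≤ rk) (k1 : rk ≤ 9 / 4) (t0 : π / 2 ≤ θ)
    (t1 : θ ≤ 3 * π / 4) : Good (1 / 5) (61 / 40) rj rk (af θ) (mf θ) := by
  refine cell (al := 2 / 5) (la := 401 / 400) (b1 := 1 / 5) (b2 := 0) (w := 319 / 400)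
    (vj := 4503 / 10000) (vk := 2317 / 10000) (gj := 1487 / 2500) (hj := 16813 / 10000) (gk := 4839 / 10000)
    (hk := 10333 / 5000) (ej := 11 / 1000000) (ek := 7 / 200000) ?_ ?_ ?_ ?_ ?_ ?_ ?_ ?_ ?_ ?_ ?_
    ?_ ?_ ?_ ?_ ?_ ?_ ?_ ?_ hrj hrk j0 j1 k0 k1 (arc_of t0 t1 ?_ ?_ nd4 nd6)
  · exact ok_of (by norm_num) (by norm_num) (by norm_num) (by norm_num) (by norm_num)
      (by norm_num) (by norm_num) (by norm_num) (by norm_num) (by norm_num) (by norm_num)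
      (by norm_num)
  on_goal 19 => have := Real.pi_pos; linarith
  on_goal 19 => have := Real.pi_pos; linarith
  all_goals first | (unfold EE; norm_num) | norm_num

theorem L56 {rj rk θ : ℝ} (hrj : 0 ≤ rj) (hrk : 0 ≤ rk) (j0 : (3 / 4 : ℝ) ≤ rj)
    (j1 : rj ≤ 9 / 8) (k0 : (3 / 2 : ℝ) ≤ rk) (k1 : rk ≤ 9 / 4) (t0 : 3 * π / 4 ≤ θ)
    (t1 : θ ≤ π) : Good (1 / 5) (61 / 40) rj rk (af θ) (mf θ) := by
  refine cell (al := 409 / 10000) (la := 1409 / 2500) (b1 := 0) (b2 := 1591 / 10000) (w := 3591 / 2500)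
    (vj := 2697 / 5000) (vk := 1427 / 5000) (gj := 3171 / 5000) (hj := 1971 / 1250) (gk := 633 / 1250)
    (hk := 4937 / 2500) (ej := 1 / 100000) (ek := 13 / 250000) ?_ ?_ ?_ ?_ ?_ ?_ ?_ ?_ ?_ ?_ ?_
    ?_ ?_ ?_ ?_ ?_ ?_ ?_ ?_ hrj hrk j0 j1 k0 k1 (arc_of t0 t1 ?_ ?_ nd6 nd8)
  · exact ok_of (by norm_num) (by norm_num) (by norm_num) (by norm_num) (by norm_num)
      (by norm_num) (by norm_num) (by norm_num) (by norm_num) (by norm_num) (by norm_num)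
      (by norm_num)
  on_goal 19 => have := Real.pi_pos; linarith
  on_goal 19 => have := Real.pi_pos; linarith
  all_goals first | (unfold EE; norm_num) | norm_num

theorem L57 {rj rk θ : ℝ} (hrj : 0 ≤ rj) (hrk : 0 ≤ rk) (j0 : (9 / 8 : ℝ) ≤ rj)
    (j1 : rj ≤ 3 / 2) (k0 : (3 / 2 : ℝ) ≤ rk) (k1 : rk ≤ 9 / 4) (t0 : 3 * π / 4 ≤ θ)
    (t1 : θ ≤ π) : Good (1 / 5) (61 / 40) rj rk (af θ) (mf θ) := by
  refine cell (al := 2183 / 10000) (la := 2211 / 2500) (b1 := 183 / 10000) (b2 := 0) (w := 10973 / 10000)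
    (vj := 3969 / 10000) (vk := 2863 / 10000) (gj := 1359 / 2500) (hj := 4599 / 2500) (gk := 1167 / 2500)
    (hk := 21423 / 10000) (ej := 23 / 1000000) (ek := 73 / 1000000) ?_ ?_ ?_ ?_ ?_ ?_ ?_ ?_ ?_ ?_ ?_
    ?_ ?_ ?_ ?_ ?_ ?_ ?_ ?_ hrj hrk j0 j1 k0 k1 (arc_of t0 t1 ?_ ?_ nd6 nd8)
  · exact ok_of (by norm_num) (by norm_num) (by norm_num) (by norm_num) (by norm_num)
      (by norm_num) (by norm_num) (by norm_num) (by norm_num) (by norm_num) (by norm_num)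
      (by norm_num)
  on_goal 19 => have := Real.pi_pos; linarith
  on_goal 19 => have := Real.pi_pos; linarith
  all_goals first | (unfold EE; norm_num) | norm_num

theorem L58 {rj rk θ : ℝ} (hrj : 0 ≤ rj) (hrk : 0 ≤ rk) (j0 : (3 / 4 : ℝ) ≤ rj)
    (j1 : rj ≤ 9 / 8) (k0 : (9 / 4 : ℝ) ≤ rk) (k1 : rk ≤ 3) (t0 : 0 ≤ θ)
    (t1 : θ ≤ π / 2) : Good (1 / 5) (61 / 40) rj rk (af θ) (mf θ) := by
  refine cell (al := 182 / 625) (la := 783 / 10000) (b1 := 57 / 625) (b2 := 0) (w := 3661 / 2000)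
    (vj := 1881 / 5000) (vk := 201 / 2000) (gj := 9503 / 10000) (hj := 10523 / 10000) (gk := 211 / 500)
    (hk := 23697 / 10000) (ej := 1 / 25000) (ek := 77 / 500000) ?_ ?_ ?_ ?_ ?_ ?_ ?_ ?_ ?_ ?_ ?_
    ?_ ?_ ?_ ?_ ?_ ?_ ?_ ?_ hrj hrk j0 j1 k0 k1 (arc_of t0 t1 ?_ ?_ nd0 nd4)
  · exact ok_of (by norm_num) (by norm_num) (by norm_num) (by norm_num) (by norm_num)
      (by norm_num) (by norm_num) (by norm_num) (by norm_num) (by norm_num) (by norm_num)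
      (by norm_num)
  on_goal 19 => have := Real.pi_pos; linarith
  on_goal 19 => have := Real.pi_pos; linarith
  all_goals first | (unfold EE; norm_num) | norm_num

theorem L59 {rj rk θ : ℝ} (hrj : 0 ≤ rj) (hrk : 0 ≤ rk) (j0 : (9 / 8 : ℝ) ≤ rj)
    (j1 : rj ≤ 3 / 2) (k0 : (9 / 4 : ℝ) ≤ rk) (k1 : rk ≤ 3) (t0 : 0 ≤ θ)
    (t1 : θ ≤ π / 2) : Good (1 / 5) (61 / 40) rj rk (af θ) (mf θ) := by
  refine cell (al := 42 / 125) (la := 91 / 5000) (b1 := 17 / 125) (b2 := 0) (w := 9229 / 5000)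
    (vj := 1101 / 5000) (vk := 917 / 10000) (gj := 7699 / 10000) (hj := 12989 / 10000) (gk := 887 / 2000)
    (hk := 5637 / 2500) (ej := 9 / 1000000) (ek := 23 / 1000000) ?_ ?_ ?_ ?_ ?_ ?_ ?_ ?_ ?_ ?_ ?_
    ?_ ?_ ?_ ?_ ?_ ?_ ?_ ?_ hrj hrk j0 j1 k0 k1 (arc_of t0 t1 ?_ ?_ nd0 nd4)
  · exact ok_of (by norm_num) (by norm_num) (by norm_num) (by norm_num) (by norm_num)
      (by norm_num) (by norm_num) (by norm_num) (by norm_num) (by norm_num) (by norm_num)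
      (by norm_num)
  on_goal 19 => have := Real.pi_pos; linarith
  on_goal 19 => have := Real.pi_pos; linarith
  all_goals first | (unfold EE; norm_num) | norm_num

end Pool.Agent.RRMG
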