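import Pool.Agent.RRMG.Nodes

/-!
# Cells of the scalar inequality, part 5
-/

set_option autoImplicit false

noncomputable section

namespace Pool.Agent.RRMG

open Real

theorem L60 {rj rk θ : ℝ} (hrj : 0 ≤ rj) (hrk : 0 ≤ rk) (j0 : (3 / 4 : ℝ) ≤ rj)
    (j1 : rj ≤ 9 / 8) (k0 : (9 / 4 : ℝ) ≤ rk) (k1 : rk ≤ 3) (t0 : π / 2 ≤ θ)
    (t1 : θ ≤ π) : Good (1 / 5) (61 / 40) rj rk (af θ) (mf θ) := by
  refine cell (al := 731 / 5000) (la := 11 / 25) (b1 := 0) (b2 := 269 / 5000) (w := 39 / 25)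
    (vj := 2297 / 5000) (vk := 153 / 1000) (gj := 187 / 250) (hj := 13369 / 10000) (gk := 1887 / 5000)
    (hk := 13249 / 5000) (ej := 43 / 1000000) (ek := 3 / 125000) ?_ ?_ ?_ ?_ ?_ ?_ ?_ ?_ ?_ ?_ ?_
    ?_ ?_ ?_ ?_ ?_ ?_ ?_ ?_ hrj hrk j0 j1 k0 k1 (arc_of t0 t1 ?_ ?_ nd4 nd8)
  · exact ok_of (by norm_num) (by norm_num) (by norm_num) (by norm_num) (by norm_num)
      (by norm_num) (by norm_num) (by norm_num) (by norm_num) (by norm_num) (by norm_num)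
      (by norm_num)
  on_goal 19 => have := Real.pi_pos; linarith
  on_goal 19 => have := Real.pi_pos; linarith
  all_goals first | (unfold EE; norm_num) | norm_num

theorem L61 {rj rk θ : ℝ} (hrj : 0 ≤ rj) (hrk : 0 ≤ rk) (j0 : (9 / 8 : ℝ) ≤ rj)
    (j1 : rj ≤ 3 / 2) (k0 : (9 / 4 : ℝ) ≤ rk) (k1 : rk ≤ 3) (t0 : π / 2 ≤ θ)
    (t1 : θ ≤ π) : Good (1 / 5) (61 / 40) rj rk (af θ) (mf θ) := by
  refine cell (al := 2037 / 10000) (la := 7363 / 10000) (b1 := 37 / 10000) (b2 := 0) (w := 63 / 50)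
    (vj := 443 / 1250) (vk := 163 / 1000) (gj := 5803 / 10000) (hj := 17233 / 10000) (gk := 139 / 400)
    (hk := 28777 / 10000) (ej := 23 / 1000000) (ek := 7 / 1000000) ?_ ?_ ?_ ?_ ?_ ?_ ?_ ?_ ?_ ?_ ?_
    ?_ ?_ ?_ ?_ ?_ ?_ ?_ ?_ hrj hrk j0 j1 k0 k1 (arc_of t0 t1 ?_ ?_ nd4 nd8)
  · exact ok_of (by norm_num) (by norm_num) (by norm_num) (by norm_num) (by norm_num)
      (by norm_num) (by norm_num) (by norm_num) (by norm_num) (by norm_num) (by norm_num)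
      (by norm_num)
  on_goal 19 => have := Real.pi_pos; linarith
  on_goal 19 => have := Real.pi_pos; linarith
  all_goals first | (unfold EE; norm_num) | norm_num

theorem L62 {rj rk θ : ℝ} (hrj : 0 ≤ rj) (hrk : 0 ≤ rk) (j0 : (3 / 2 : ℝ) ≤ rj)
    (j1 : rj ≤ 9 / 4) (k0 : (3 / 2 : ℝ) ≤ rk) (k1 : rk ≤ 9 / 4) (t0 : 0 ≤ θ)
    (t1 : θ ≤ π / 4) : Good (1 / 5) (61 / 40) rj rk (af θ) (mf θ) := by
  refine cell (al := 3207 / 10000) (la := 127 / 10000) (b1 := 1207 / 10000) (b2 := 0) (w := 9333 / 5000)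
    (vj := 1549 / 10000) (vk := 1477 / 10000) (gj := 3047 / 5000) (hj := 1641 / 1000) (gk := 2953 / 5000)
    (hk := 4233 / 2500) (ej := 1 / 500000) (ek := 53 / 1000000) ?_ ?_ ?_ ?_ ?_ ?_ ?_ ?_ ?_ ?_ ?_
    ?_ ?_ ?_ ?_ ?_ ?_ ?_ ?_ hrj hrk j0 j1 k0 k1 (arc_of t0 t1 ?_ ?_ nd0 nd2)
  · exact ok_of (by norm_num) (by norm_num) (by norm_num) (by norm_num) (by norm_num)
      (by norm_num) (by norm_num) (by norm_num) (by norm_num) (by norm_num) (by norm_num)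
      (by norm_num)
  on_goal 19 => have := Real.pi_pos; linarith
  on_goal 19 => have := Real.pi_pos; linarith
  all_goals first | (unfold EE; norm_num) | norm_num

theorem L63 {rj rk θ : ℝ} (hrj : 0 ≤ rj) (hrk : 0 ≤ rk) (j0 : (3 / 2 : ℝ) ≤ rj)
    (j1 : rj ≤ 15 / 8) (k0 : (3 / 2 : ℝ) ≤ rk) (k1 : rk ≤ 15 / 8) (t0 : π / 4 ≤ θ)
    (t1 : θ ≤ 3 * π / 8) : Good (1 / 5) (61 / 40) rj rk (af θ) (mf θ) := by
  refine cell (al := 943 / 2500) (la := 109 / 625) (b1 := 443 / 2500) (b2 := 0) (w := 4121 / 2500)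
    (vj := 939 / 5000) (vk := 1673 / 10000) (gj := 17 / 25) (hj := 7353 / 5000) (gk := 6363 / 10000)
    (hk := 3929 / 2500) (ej := 13 / 200000) (ek := 9 / 50000) ?_ ?_ ?_ ?_ ?_ ?_ ?_ ?_ ?_ ?_ ?_
    ?_ ?_ ?_ ?_ ?_ ?_ ?_ ?_ hrj hrk j0 j1 k0 k1 (arc_of t0 t1 ?_ ?_ nd2 nd3)
  · exact ok_of (by norm_num) (by norm_num) (by norm_num) (by norm_num) (by norm_num)
      (by norm_num) (by norm_num) (by norm_num) (by norm_num) (by norm_num) (by norm_num)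
      (by norm_num)
  on_goal 19 => have := Real.pi_pos; linarith
  on_goal 19 => have := Real.pi_pos; linarith
  all_goals first | (unfold EE; norm_num) | norm_num

theorem L64 {rj rk θ : ℝ} (hrj : 0 ≤ rj) (hrk : 0 ≤ rk) (j0 : (3 / 2 : ℝ) ≤ rj)
    (j1 : rj ≤ 15 / 8) (k0 : (3 / 2 : ℝ) ≤ rk) (k1 : rk ≤ 15 / 8) (t0 : 3 * π / 8 ≤ θ)
    (t1 : θ ≤ π / 2) : Good (1 / 5) (61 / 40) rj rk (af θ) (mf θ) := by
  refine cell (al := 2 / 5) (la := 1131 / 2500) (b1 := 1 / 5) (b2 := 0) (w := 3369 / 2500)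
    (vj := 1579 / 10000) (vk := 1833 / 10000) (gj := 5583 / 10000) (hj := 2239 / 1250) (gk := 3017 / 5000)
    (hk := 16573 / 10000) (ej := 3 / 40000) (ek := 3 / 40000) ?_ ?_ ?_ ?_ ?_ ?_ ?_ ?_ ?_ ?_ ?_
    ?_ ?_ ?_ ?_ ?_ ?_ ?_ ?_ hrj hrk j0 j1 k0 k1 (arc_of t0 t1 ?_ ?_ nd3 nd4)
  · exact ok_of (by norm_num) (by norm_num) (by norm_num) (by norm_num) (by norm_num)
      (by norm_num) (by norm_num) (by norm_num) (by norm_num) (by norm_num) (by norm_num)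
      (by norm_num)
  on_goal 19 => have := Real.pi_pos; linarith
  on_goal 19 => have := Real.pi_pos; linarith
  all_goals first | (unfold EE; norm_num) | norm_num

theorem L65 {rj rk θ : ℝ} (hrj : 0 ≤ rj) (hrk : 0 ≤ rk) (j0 : (3 / 2 : ℝ) ≤ rj)
    (j1 : rj ≤ 15 / 8) (k0 : (15 / 8 : ℝ) ≤ rk) (k1 : rk ≤ 9 / 4) (t0 : π / 4 ≤ θ)
    (t1 : θ ≤ π / 2) : Good (1 / 5) (61 / 40) rj rk (af θ) (mf θ) := by
  refine cell (al := 3267 / 10000) (la := 2403 / 10000) (b1 := 1267 / 10000) (b2 := 0) (w := 1633 / 1000)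
    (vj := 909 / 5000) (vk := 299 / 2000) (gj := 1531 / 2500) (hj := 1633 / 1000) (gk := 5419 / 10000)
    (hk := 9227 / 5000) (ej := 57 / 500000) (ek := 9 / 125000) ?_ ?_ ?_ ?_ ?_ ?_ ?_ ?_ ?_ ?_ ?_
    ?_ ?_ ?_ ?_ ?_ ?_ ?_ ?_ hrj hrk j0 j1 k0 k1 (arc_of t0 t1 ?_ ?_ nd2 nd4)
  · exact ok_of (by norm_num) (by norm_num) (by norm_num) (by norm_num) (by norm_num)
      (by norm_num) (by norm_num) (by norm_num) (by norm_num) (by norm_num) (by norm_num)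
      (by norm_num)
  on_goal 19 => have := Real.pi_pos; linarith
  on_goal 19 => have := Real.pi_pos; linarith
  all_goals first | (unfold EE; norm_num) | norm_num

theorem L66 {rj rk θ : ℝ} (hrj : 0 ≤ rj) (hrk : 0 ≤ rk) (j0 : (15 / 8 : ℝ) ≤ rj)
    (j1 : rj ≤ 33 / 16) (k0 : (15 / 8 : ℝ) ≤ rk) (k1 : rk ≤ 9 / 4) (t0 : π / 4 ≤ θ)
    (t1 : θ ≤ π / 2) : Good (1 / 5) (61 / 40) rj rk (af θ) (mf θ) := by
  refine cell (al := 2703 / 10000) (la := 741 / 5000) (b1 := 703 / 10000) (b2 := 0) (w := 3563 / 2000)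
    (vj := 321 / 2000) (vk := 1629 / 10000) (gj := 344 / 625) (hj := 18169 / 10000) (gk := 2781 / 5000)
    (hk := 899 / 500) (ej := 23 / 1000000) (ek := 37 / 1000000) ?_ ?_ ?_ ?_ ?_ ?_ ?_ ?_ ?_ ?_ ?_
    ?_ ?_ ?_ ?_ ?_ ?_ ?_ ?_ hrj hrk j0 j1 k0 k1 (arc_of t0 t1 ?_ ?_ nd2 nd4)
  · exact ok_of (by norm_num) (by norm_num) (by norm_num) (by norm_num) (by norm_num)
      (by norm_num) (by norm_num) (by norm_num) (by norm_num) (by norm_num) (by norm_num)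
      (by norm_num)
  on_goal 19 => have := Real.pi_pos; linarith
  on_goal 19 => have := Real.pi_pos; linarith
  all_goals first | (unfold EE; norm_num) | norm_num

theorem L67 {rj rk θ : ℝ} (hrj : 0 ≤ rj) (hrk : 0 ≤ rk) (j0 : (33 / 16 : ℝ) ≤ rj)
    (j1 : rj ≤ 9 / 4) (k0 : (15 / 8 : ℝ) ≤ rk) (k1 : rk ≤ 9 / 4) (t0 : π / 4 ≤ θ)
    (t1 : θ ≤ π / 2) : Good (1 / 5) (61 / 40) rj rk (af θ) (mf θ) := by
  refine cell (al := 1999 / 5000) (la := 31 / 100) (b1 := 999 / 5000) (b2 := 0) (w := 7451 / 5000)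
    (vj := 27 / 250) (vk := 937 / 10000) (gj := 1217 / 2500) (hj := 20543 / 10000) (gk := 283 / 625)
    (hk := 4417 / 2000) (ej := 3 / 25000) (ek := 97 / 1000000) ?_ ?_ ?_ ?_ ?_ ?_ ?_ ?_ ?_ ?_ ?_
    ?_ ?_ ?_ ?_ ?_ ?_ ?_ ?_ hrj hrk j0 j1 k0 k1 (arc_of t0 t1 ?_ ?_ nd2 nd4)
  · exact ok_of (by norm_num) (by norm_num) (by norm_num) (by norm_num) (by norm_num)
      (by norm_num) (by norm_num) (by norm_num) (by norm_num) (by norm_num) (by norm_num)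
      (by norm_num)
  on_goal 19 => have := Real.pi_pos; linarith
  on_goal 19 => have := Real.pi_pos; linarith
  all_goals first | (unfold EE; norm_num) | norm_num

theorem L68 {rj rk θ : ℝ} (hrj : 0 ≤ rj) (hrk : 0 ≤ rk) (j0 : (3 / 2 : ℝ) ≤ rj)
    (j1 : rj ≤ 15 / 8) (k0 : (3 / 2 : ℝ) ≤ rk) (k1 : rk ≤ 9 / 4) (t0 : π / 2 ≤ θ)
    (t1 : θ ≤ 3 * π / 4) : Good (1 / 5) (61 / 40) rj rk (af θ) (mf θ) := by
  refine cell (al := 371 / 1000) (la := 2567 / 2500) (b1 := 171 / 1000) (b2 := 0) (w := 4011 / 5000)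
    (vj := 569 / 2500) (vk := 1131 / 5000) (gj := 453 / 1000) (hj := 5519 / 2500) (gk := 2259 / 5000)
    (hk := 11067 / 5000) (ej := 51 / 1000000) (ek := 3 / 125000) ?_ ?_ ?_ ?_ ?_ ?_ ?_ ?_ ?_ ?_ ?_
    ?_ ?_ ?_ ?_ ?_ ?_ ?_ ?_ hrj hrk j0 j1 k0 k1 (arc_of t0 t1 ?_ ?_ nd4 nd6)
  · exact ok_of (by norm_num) (by norm_num) (by norm_num) (by norm_num) (by norm_num)
      (by norm_num) (by norm_num) (by norm_num) (by norm_num) (by norm_num) (by norm_num)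
      (by norm_num)
  on_goal 19 => have := Real.pi_pos; linarith
  on_goal 19 => have := Real.pi_pos; linarith
  all_goals first | (unfold EE; norm_num) | norm_num

theorem L69 {rj rk θ : ℝ} (hrj : 0 ≤ rj) (hrk : 0 ≤ rk) (j0 : (15 / 8 : ℝ) ≤ rj)
    (j1 : rj ≤ 9 / 4) (k0 : (3 / 2 : ℝ) ≤ rk) (k1 : rk ≤ 9 / 4) (t0 : π / 2 ≤ θ)
    (t1 : θ ≤ 3 * π / 4) : Good (1 / 5) (61 / 40) rj rk (af θ) (mf θ) := by
  refine cell (al := 3599 / 10000) (la := 5019 / 5000) (b1 := 1599 / 10000) (b2 := 0) (w := 8363 / 10000)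
    (vj := 387 / 2000) (vk := 997 / 5000) (gj := 421 / 1000) (hj := 23753 / 10000) (gk := 4269 / 10000)
    (hk := 937 / 400) (ej := 39 / 500000) (ek := 7 / 500000) ?_ ?_ ?_ ?_ ?_ ?_ ?_ ?_ ?_ ?_ ?_
    ?_ ?_ ?_ ?_ ?_ ?_ ?_ ?_ hrj hrk j0 j1 k0 k1 (arc_of t0 t1 ?_ ?_ nd4 nd6)
  · exact ok_of (by norm_num) (by norm_num) (by norm_num) (by norm_num) (by norm_num)
      (by norm_num) (by norm_num) (by norm_num) (by norm_num) (by norm_num) (by norm_num)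
      (by norm_num)
  on_goal 19 => have := Real.pi_pos; linarith
  on_goal 19 => have := Real.pi_pos; linarith
  all_goals first | (unfold EE; norm_num) | norm_num

theorem L70 {rj rk θ : ℝ} (hrj : 0 ≤ rj) (hrk : 0 ≤ rk) (j0 : (3 / 2 : ℝ) ≤ rj)
    (j1 : rj ≤ 9 / 4) (k0 : (3 / 2 : ℝ) ≤ rk) (k1 : rk ≤ 9 / 4) (t0 : 3 * π / 4 ≤ θ)
    (t1 : θ ≤ π) : Good (1 / 5) (61 / 40) rj rk (af θ) (mf θ) := by
  refine cell (al := 27 / 1250) (la := 3099 / 5000) (b1 := 0) (b2 := 223 / 1250) (w := 6901 / 5000)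
    (vj := 1493 / 5000) (vk := 2669 / 10000) (gj := 4889 / 10000) (hj := 4091 / 2000) (gk := 4509 / 10000)
    (hk := 11089 / 5000) (ej := 33 / 1000000) (ek := 3 / 250000) ?_ ?_ ?_ ?_ ?_ ?_ ?_ ?_ ?_ ?_ ?_
    ?_ ?_ ?_ ?_ ?_ ?_ ?_ ?_ hrj hrk j0 j1 k0 k1 (arc_of t0 t1 ?_ ?_ nd6 nd8)
  · exact ok_of (by norm_num) (by norm_num) (by norm_num) (by norm_num) (by norm_num)
      (by norm_num) (by norm_num) (by norm_num) (by norm_num) (by norm_num) (by norm_num)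
      (by norm_num)
  on_goal 19 => have := Real.pi_pos; linarith
  on_goal 19 => have := Real.pi_pos; linarith
  all_goals first | (unfold EE; norm_num) | norm_num

theorem L71 {rj rk θ : ℝ} (hrj : 0 ≤ rj) (hrk : 0 ≤ rk) (j0 : (3 / 2 : ℝ) ≤ rj)
    (j1 : rj ≤ 9 / 4) (k0 : (9 / 4 : ℝ) ≤ rk) (k1 : rk ≤ 3) (t0 : 0 ≤ θ)
    (t1 : θ ≤ π / 2) : Good (1 / 5) (61 / 40) rj rk (af θ) (mf θ) := by
  refine cell (al := 543 / 2500) (la := 667 / 10000) (b1 := 43 / 2500) (b2 := 0) (w := 19161 / 10000)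
    (vj := 1607 / 10000) (vk := 13 / 100) (gj := 5341 / 10000) (hj := 4681 / 2500) (gk := 4507 / 10000)
    (hk := 5547 / 2500) (ej := 31 / 1000000) (ek := 79 / 1000000) ?_ ?_ ?_ ?_ ?_ ?_ ?_ ?_ ?_ ?_ ?_
    ?_ ?_ ?_ ?_ ?_ ?_ ?_ ?_ hrj hrk j0 j1 k0 k1 (arc_of t0 t1 ?_ ?_ nd0 nd4)
  · exact ok_of (by norm_num) (by norm_num) (by norm_num) (by norm_num) (by norm_num)
      (by norm_num) (by norm_num) (by norm_num) (by norm_num) (by norm_num) (by norm_num)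
      (by norm_num)
  on_goal 19 => have := Real.pi_pos; linarith
  on_goal 19 => have := Real.pi_pos; linarith
  all_goals first | (unfold EE; norm_num) | norm_num

theorem L72 {rj rk θ : ℝ} (hrj : 0 ≤ rj) (hrk : 0 ≤ rk) (j0 : (3 / 2 : ℝ) ≤ rj)
    (j1 : rj ≤ 15 / 8) (k0 : (9 / 4 : ℝ) ≤ rk) (k1 : rk ≤ 3) (t0 : π / 2 ≤ θ)
    (t1 : θ ≤ π) : Good (1 / 5) (61 / 40) rj rk (af θ) (mf θ) := by
  refine cell (al := 881 / 5000) (la := 6669 / 10000) (b1 := 0) (b2 := 119 / 5000) (w := 13331 / 10000)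
    (vj := 2359 / 10000) (vk := 102 / 625) (gj := 2343 / 5000) (hj := 21341 / 10000) (gk := 1761 / 5000)
    (hk := 28393 / 10000) (ej := 43 / 500000) (ek := 3 / 250000) ?_ ?_ ?_ ?_ ?_ ?_ ?_ ?_ ?_ ?_ ?_
    ?_ ?_ ?_ ?_ ?_ ?_ ?_ ?_ hrj hrk j0 j1 k0 k1 (arc_of t0 t1 ?_ ?_ nd4 nd8)
  · exact ok_of (by norm_num) (by norm_num) (by norm_num) (by norm_num) (by norm_num)
      (by norm_num) (by norm_num) (by norm_num) (by norm_num) (by norm_num) (by norm_num)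
      (by norm_num)
  on_goal 19 => have := Real.pi_pos; linarith
  on_goal 19 => have := Real.pi_pos; linarith
  all_goals first | (unfold EE; norm_num) | norm_num

theorem L73 {rj rk θ : ℝ} (hrj : 0 ≤ rj) (hrk : 0 ≤ rk) (j0 : (15 / 8 : ℝ) ≤ rj)
    (j1 : rj ≤ 9 / 4) (k0 : (9 / 4 : ℝ) ≤ rk) (k1 : rk ≤ 3) (t0 : π / 2 ≤ θ)
    (t1 : θ ≤ π) : Good (1 / 5) (61 / 40) rj rk (af θ) (mf θ) := by
  refine cell (al := 881 / 5000) (la := 6559 / 10000) (b1 := 0) (b2 := 119 / 5000) (w := 13441 / 10000)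
    (vj := 219 / 1000) (vk := 63 / 400) (gj := 2239 / 5000) (hj := 5583 / 2500) (gk := 431 / 1250)
    (hk := 29003 / 10000) (ej := 11 / 125000) (ek := 1 / 125000) ?_ ?_ ?_ ?_ ?_ ?_ ?_ ?_ ?_ ?_ ?_
    ?_ ?_ ?_ ?_ ?_ ?_ ?_ ?_ hrj hrk j0 j1 k0 k1 (arc_of t0 t1 ?_ ?_ nd4 nd8)
  · exact ok_of (by norm_num) (by norm_num) (by norm_num) (by norm_num) (by norm_num)
      (by norm_num) (by norm_num) (by norm_num) (by norm_num) (by norm_num) (by norm_num)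
      (by norm_num)
  on_goal 19 => have := Real.pi_pos; linarith
  on_goal 19 => have := Real.pi_pos; linarith
  all_goals first | (unfold EE; norm_num) | norm_num

theorem L74 {rj rk θ : ℝ} (hrj : 0 ≤ rj) (hrk : 0 ≤ rk) (j0 : (9 / 4 : ℝ) ≤ rj)
    (j1 : rj ≤ 3) (k0 : (9 / 4 : ℝ) ≤ rk) (k1 : rk ≤ 3) (t0 : 0 ≤ θ)
    (t1 : θ ≤ π) : Good (1 / 5) (61 / 40) rj rk (af θ) (mf θ) := by
  refine cell (al := 0) (la := 0) (b1 := 0) (b2 := 1 / 5) (w := 2)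
    (vj := 1539 / 10000) (vk := 87 / 500) (gj := 4209 / 10000) (hj := 23759 / 10000) (gk := 19 / 40)
    (hk := 21053 / 10000) (ej := 41 / 1000000) (ek := 13 / 125000) ?_ ?_ ?_ ?_ ?_ ?_ ?_ ?_ ?_ ?_ ?_
    ?_ ?_ ?_ ?_ ?_ ?_ ?_ ?_ hrj hrk j0 j1 k0 k1 (arc_of t0 t1 ?_ ?_ nd0 nd8)
  · exact ok_of (by norm_num) (by norm_num) (by norm_num) (by norm_num) (by norm_num)
      (by norm_num) (by norm_num) (by norm_num) (by norm_num) (by norm_num) (by norm_num)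
      (by norm_num)
  on_goal 19 => have := Real.pi_pos; linarith
  on_goal 19 => have := Real.pi_pos; linarith
  all_goals first | (unfold EE; norm_num) | norm_num

end Pool.Agent.RRMG
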