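import Pool.Agent.RRMG.Defs

/-!
# Chords of the curve `(af θ, mf θ)`

As functions of `x = cos θ` both `af` and `mf` are convex on `[-1, 1]`:
`af (arccos x) = (√(1 - x²) - x arccos x) / π` has the derivative `- arccos x / π`, and
`mf (arccos x) = 1 - (arccos x + √(1 - x²)) / π` has the derivative `(1 + x) / (π √(1 - x²))`, both
monotone on `(-1, 1)` (`MonotoneOn.convexOn_of_deriv`).
`chord`: for `s ≤ θ ≤ e` in `[0, π]` take the `w` with `cos θ = w cos s + (1 - w) cos e`.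
`nodes`: numerical bounds with `sin (π / 8) = √(2 - √2) / 2`, `cos (π / 8) = √(2 + √2) / 2`
(`Real.sin_pi_div_eight`, `Real.cos_pi_div_eight`), `Real.pi_gt_d6`, `Real.pi_lt_d6`.
-/

set_option autoImplicit false

noncomputable section

namespace Pool.Agent.RRMG

open Real

private def fa_Chord (x : ℝ) : ℝ := √(1 - x ^ 2) - x * arccos x

private def fm_Chord (x : ℝ) : ℝ := -(arccos x + √(1 - x ^ 2))

private theorem pos_Chord {x : ℝ} (h1 : -1 < x) (h2 : x < 1) : 0 < 1 - x ^ 2 := by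
  nlinarith

private theorem sqrt_Chord {x : ℝ} (h1 : -1 < x) (h2 : x < 1) :
    HasDerivAt (fun y : ℝ => √(1 - y ^ 2)) (-(x / √(1 - x ^ 2))) x := by
  have h : HasDerivAt (fun y : ℝ => 1 - y ^ 2) (-(2 * x)) x := by
    have h0 := (hasDerivAt_pow 2 x).const_sub 1
    simpa using h0
  have h3 := pos_Chord h1 h2
  have h4 := h.sqrt h3.ne'
  have h5 : 0 < √(1 - x ^ 2) := Real.sqrt_pos.2 h3
  have h6 : -(x / √(1 - x ^ 2)) = -(2 * x) / (2 * √(1 - x ^ 2)) := by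
    field_simp
  rw [h6]
  exact h4

private theorem fa_deriv_Chord {x : ℝ} (h1 : -1 < x) (h2 : x < 1) :
    HasDerivAt fa_Chord (-arccos x) x := by
  have h3 := (sqrt_Chord h1 h2).sub ((hasDerivAt_id x).mul (hasDerivAt_arccos h1.ne' h2.ne))
  have h5 : 0 < √(1 - x ^ 2) := Real.sqrt_pos.2 (pos_Chord h1 h2)
  have h6 : -arccos x = -(x / √(1 - x ^ 2)) -
      (1 * arccos x + id x * -(1 / √(1 - x ^ 2))) := by
    rw [id]
    field_simp
    ring
  rw [h6]
  exact h3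

private theorem fm_deriv_Chord {x : ℝ} (h1 : -1 < x) (h2 : x < 1) :
    HasDerivAt fm_Chord ((1 + x) / √(1 - x ^ 2)) x := by
  have h3 := ((hasDerivAt_arccos h1.ne' h2.ne).add (sqrt_Chord h1 h2)).neg
  have h5 : 0 < √(1 - x ^ 2) := Real.sqrt_pos.2 (pos_Chord h1 h2)
  have h6 : (1 + x) / √(1 - x ^ 2) = -(-(1 / √(1 - x ^ 2)) + -(x / √(1 - x ^ 2))) := by
    field_simp
    ring
  rw [h6]
  exact h3

private theorem cont_Chord : Continuous fun y : ℝ => √(1 - y ^ 2) := by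
  fun_prop

private theorem fa_convex_Chord : ConvexOn ℝ (Set.Icc (-1 : ℝ) 1) fa_Chord := by
  have hc : Continuous fa_Chord := cont_Chord.sub (continuous_id.mul continuous_arccos)
  refine MonotoneOn.convexOn_of_deriv (convex_Icc _ _) hc.continuousOn ?_ ?_
  · intro x hx
    rw [interior_Icc] at hx
    exact (fa_deriv_Chord hx.1 hx.2).differentiableAt.differentiableWithinAt
  · intro x hx y hy hxy
    rw [interior_Icc] at hx hy
    rw [(fa_deriv_Chord hx.1 hx.2).deriv, (fa_deriv_Chord hy.1 hy.2).deriv]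
    exact neg_le_neg (antitone_arccos hxy)

private theorem fm_convex_Chord : ConvexOn ℝ (Set.Icc (-1 : ℝ) 1) fm_Chord := by
  have hc : Continuous fm_Chord := (continuous_arccos.add cont_Chord).neg
  refine MonotoneOn.convexOn_of_deriv (convex_Icc _ _) hc.continuousOn ?_ ?_
  · intro x hx
    rw [interior_Icc] at hx
    exact (fm_deriv_Chord hx.1 hx.2).differentiableAt.differentiableWithinAt
  · intro x hx y hy hxy
    rw [interior_Icc] at hx hy
    rw [(fm_deriv_Chord hx.1 hx.2).deriv, (fm_deriv_Chord hy.1 hy.2).deriv]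
    have h1 := pos_Chord hx.1 hx.2
    have h2 := pos_Chord hy.1 hy.2
    have h3 : 0 < √(1 - x ^ 2) := Real.sqrt_pos.2 h1
    have h4 : 0 < √(1 - y ^ 2) := Real.sqrt_pos.2 h2
    have hx1 : 0 < 1 + x := by linarith [hx.1]
    have hy1 : 0 < 1 + y := by linarith [hy.1]
    rw [div_le_div_iff₀ h3 h4]
    have e1 : (1 + x) * √(1 - y ^ 2) = √((1 + x) ^ 2 * (1 - y ^ 2)) := by
      rw [Real.sqrt_mul (sq_nonneg _), Real.sqrt_sq hx1.le]
    have e2 : (1 + y) * √(1 - x ^ 2) = √((1 + y) ^ 2 * (1 - x ^ 2)) := by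
      rw [Real.sqrt_mul (sq_nonneg _), Real.sqrt_sq hy1.le]
    rw [e1, e2]
    refine Real.sqrt_le_sqrt ?_
    have h5 : 0 ≤ (1 + x) * (1 + y) := (mul_pos hx1 hy1).le
    have h6 : (1 + y) ^ 2 * (1 - x ^ 2) - (1 + x) ^ 2 * (1 - y ^ 2) =
        (1 + x) * (1 + y) * (2 * (y - x)) := by ring
    have h7 : 0 ≤ (1 + x) * (1 + y) * (2 * (y - x)) :=
      mul_nonneg h5 (by linarith)
    linarith

private theorem sin_sq_eq_Chord_aux (t : ℝ) : sin t ^ 2 = 1 - cos t ^ 2 := Real.sin_sq t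

private theorem af_eq_Chord {t : ℝ} (h0 : 0 ≤ t) (h1 : t ≤ π) :
    af t = fa_Chord (cos t) / π := by
  rw [af, fa_Chord, arccos_cos h0 h1, ← sin_sq_eq_Chord_aux t,
    Real.sqrt_sq (sin_nonneg_of_nonneg_of_le_pi h0 h1)]
  ring

private theorem mf_eq_Chord {t : ℝ} (h0 : 0 ≤ t) (h1 : t ≤ π) :
    mf t = 1 + fm_Chord (cos t) / π := by
  rw [mf, fm_Chord, arccos_cos h0 h1, ← sin_sq_eq_Chord_aux t,
    Real.sqrt_sq (sin_nonneg_of_nonneg_of_le_pi h0 h1)]
  ring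

theorem chord {s e θ : ℝ} (hs : 0 ≤ s) (he : e ≤ π) (h1 : s ≤ θ) (h2 : θ ≤ e) :
    ∃ w : ℝ, 0 ≤ w ∧ w ≤ 1 ∧ af θ ≤ w * af s + (1 - w) * af e ∧
      mf θ ≤ w * mf s + (1 - w) * mf e := by
  have hθ0 : 0 ≤ θ := hs.trans h1
  have hθ1 : θ ≤ π := h2.trans he
  have hs1 : s ≤ π := h1.trans hθ1
  have he0 : 0 ≤ e := hθ0.trans h2
  have c1 : cos θ ≤ cos s := cos_le_cos_of_nonneg_of_le_pi hs hθ1 h1
  have c2 : cos e ≤ cos θ := cos_le_cos_of_nonneg_of_le_pi hθ0 he h2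
  have hw : ∃ w : ℝ, 0 ≤ w ∧ w ≤ 1 ∧ cos θ = w * cos s + (1 - w) * cos e := by
    rcases eq_or_lt_of_le (c2.trans c1) with h | h
    · refine ⟨1, zero_le_one, le_refl 1, ?_⟩
      have : cos θ = cos s := le_antisymm c1 (h ▸ c2)
      rw [this]
      ring
    · have hd : 0 < cos s - cos e := sub_pos.2 h
      refine ⟨(cos θ - cos e) / (cos s - cos e), div_nonneg (sub_nonneg.2 c2) hd.le,
        (div_le_one hd).2 (by linarith), ?_⟩
      field_simp
      ring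
  obtain ⟨w, w0, w1, hw⟩ := hw
  have hsI : cos s ∈ Set.Icc (-1 : ℝ) 1 := ⟨neg_one_le_cos s, cos_le_one s⟩
  have heI : cos e ∈ Set.Icc (-1 : ℝ) 1 := ⟨neg_one_le_cos e, cos_le_one e⟩
  have k1 := fa_convex_Chord.2 hsI heI w0 (sub_nonneg.2 w1) (by ring)
  have k2 := fm_convex_Chord.2 hsI heI w0 (sub_nonneg.2 w1) (by ring)
  simp only [smul_eq_mul] at k1 k2
  rw [← hw] at k1 k2
  refine ⟨w, w0, w1, ?_, ?_⟩
  · rw [af_eq_Chord hθ0 hθ1, af_eq_Chord hs hs1, af_eq_Chord he0 he]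
    have h3 : w * (fa_Chord (cos s) / π) + (1 - w) * (fa_Chord (cos e) / π) =
        (w * fa_Chord (cos s) + (1 - w) * fa_Chord (cos e)) / π := by ring
    rw [h3]
    exact div_le_div_of_nonneg_right k1 pi_pos.le
  · rw [mf_eq_Chord hθ0 hθ1, mf_eq_Chord hs hs1, mf_eq_Chord he0 he]
    have h3 : w * (1 + fm_Chord (cos s) / π) + (1 - w) * (1 + fm_Chord (cos e) / π) =
        1 + (w * fm_Chord (cos s) + (1 - w) * fm_Chord (cos e)) / π := by ring
    rw [h3]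
    linarith [div_le_div_of_nonneg_right k2 pi_pos.le]

end Pool.Agent.RRMG
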