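import Pool.Agent.RRM.Act

/-!
# The randomly rotated coordinate-wise median in all dimensions: definitions

Library `Pool/Agent/RRM` (helper9): `SO d`, `E d`, `act R x`, `med`, `cwm`, `rr`, `cost`.

1. `ng s t = (s t)⁻`, the negative part of `s t`.
2. `mu s t = min (s², t²)` if `s t > 0` and `0` otherwise.
3. `af θ`, `mf θ`: the averages of `ng` and `mu` over the pairs of unit vectors of the plane with the
   angle `θ` (times 2).
4. `Qf`: the test function of a pair of points in one coordinate; `Mult` are the multipliers.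
5. `Good f c rj rk a m`: there are multipliers with a nonnegative value for the pair.
-/

set_option autoImplicit false

noncomputable section

namespace Pool.Agent.RRMG

open Real

/-- the negative part of the product -/
def ng (s t : ℝ) : ℝ := max 0 (-(s * t))

/-- the smaller square, if the signs agree -/
def mu (s t : ℝ) : ℝ := (max 0 (min s t)) ^ 2 + (max 0 (min (-s) (-t))) ^ 2

/-- twice the average of `ng` over the pairs of unit vectors with the angle `θ` -/
def af (θ : ℝ) : ℝ := (sin θ - θ * cos θ) / π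

/-- twice the average of `mu` over the pairs of unit vectors with the angle `θ` -/
def mf (θ : ℝ) : ℝ := 1 - (θ + sin θ) / π

/-- the multipliers of a pair -/
structure Mult where
  al : ℝ
  la : ℝ
  b1 : ℝ
  b2 : ℝ
  w : ℝ
  vj : ℝ
  vk : ℝ

/-- admissible multipliers -/
structure Mult.Ok (M : Mult) (f : ℝ) : Prop where
  al0 : 0 ≤ M.al
  al1 : M.al ≤ 2 * f
  la0 : 0 ≤ M.la
  b10 : 0 ≤ M.b1
  b20 : 0 ≤ M.b2
  bb : M.b1 - M.b2 = M.al - f
  w0 : 0 ≤ M.w
  ww : M.w + M.la + M.b1 = 2
  vj0 : 0 ≤ M.vj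
  vj1 : M.vj ≤ 1
  vk0 : 0 ≤ M.vk
  vk1 : M.vk ≤ 1

/-- the test function of a pair of points with the coordinates `x, y`; the median is `m` -/
def Qf (M : Mult) (m x y : ℝ) : ℝ :=
  M.la * (m ^ 2 + mu x y) + M.al * ng x y +
    M.w * (((1 - M.vj) * m + M.vj * x) ^ 2 + ((1 - M.vk) * m + M.vk * y) ^ 2) +
    M.b1 * (x * m + y * m) + M.b2 * ((|x * m| - x * m) / 2 + (|y * m| - y * m) / 2)

/-- there are multipliers with a nonnegative value for the pair: `rj, rk` are the distances of the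
two points from the optimal location, `pj, pk` their scalar products with the median -/
def Good (f c rj rk a m : ℝ) : Prop :=
  ∃ (M : Mult) (gj hj gk hk : ℝ), M.Ok f ∧ 0 < gj ∧ 0 < gk ∧ 1 ≤ gj * hj ∧ 1 ≤ gk * hk ∧
    ∀ pj pk : ℝ, |pj| ≤ rj → |pk| ≤ rk →
      M.la * (1 + (rj ^ 2 + rk ^ 2) / 2 * m) + M.al * (rj * rk * a) +
        M.w * (((1 - M.vj) ^ 2 + 2 * M.vj * (1 - M.vj) * pj + M.vj ^ 2 * rj ^ 2) +
          ((1 - M.vk) ^ 2 + 2 * M.vk * (1 - M.vk) * pk + M.vk ^ 2 * rk ^ 2)) +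
        M.b1 * (pj + pk) + M.b2 * ((rj - pj) / 2 + (rk - pk) / 2) +
        (hj + gj * (1 - 2 * pj + rj ^ 2)) / 2 + (hk + gk * (1 - 2 * pk + rk ^ 2)) / 2 ≤
      2 + c * (rj + rk)

end Pool.Agent.RRMG
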