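import Pool.Agent.RRMG.Defs

/-!
# The inequality in one coordinate

`frame_pair`: for the median `m` of the numbers `X i` and admissible multipliers `M j k` of the ordered
pairs, `2 N² m² ≤ ∑_{j,k} Qf (M j k) m (X j) (X k)`.

PROOF.  If `m = 0`: `Qf ≥ 0`.  By the symmetry `(X, m) → (-X, -m)` (`Qf`, `ng`, `mu` are even) let
`m > 0`.  Let `B = {X i ≥ m}`, `B' = {X i > m}`; `#B ≥ N / 2` and `#B' ≤ N / 2` (`h2`), so there are
`σ i ∈ [0, 1]` with `∑ σ i = N / 2`, `σ = 1` on `B'`, `σ = 0` outside of `B`, `σ` constant on `B \ B'`.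
So `σ i > 0` implies `X i ≥ m`, and `X i > m` implies `σ i = 1`.
Let `ν i = max 0 (-(X i m))`, `s i = m² σ i`.
(1) `∑ s i = N m² / 2`, `∑_k ν_j σ_k = ν_j N / 2`.
(2) `s ≤ ((1 - v) m + v X)²` for `v ∈ [0, 1]`.  (3) `s ≤ X m + ν`, `ν = (|X m| - X m) / 2`.
(4) `s_j + s_k ≤ m² + mu X_j X_k`, because `m² (1 - σ_j) (1 - σ_k) ≥ 0` and `m² σ_j σ_k ≤ mu X_j X_k`.
(5) `a := ν_j σ_k + ν_k σ_j ≤ ng X_j X_k` and `a ≤ ν_j + ν_k`.
So for every pair `2 (s_j + s_k) - f (ν_j + ν_k) + 2 f a ≤ Qf (M j k) m X_j X_k`: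
`2 f a ≤ α ng + (2 f - α) (ν_j + ν_k)`, and
`(f - α) (ν_j + ν_k) = (b2 - b1) (ν_j + ν_k) ≤ b2 (ν_j + ν_k) - b1 (s_j - X_j m + s_k - X_k m)`, and
`(2 - b1) (s_j + s_k) = (la + w) (s_j + s_k)`: (4) with the weight `la`, (2) with the weight `w`.
Summation over all ordered pairs: `∑ 2 (s_j + s_k) = 4 N · N m² / 2`, and the other terms cancel by (1).
-/

set_option autoImplicit false

noncomputable section

namespace Pool.Agent.RRMG

open Real

/-- the inequality of one pair -/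
private theorem pair_le_FrameG {f m x y s t : ℝ} (hm : 0 < m) {M : Mult} (hM : M.Ok f)
    (hs0 : 0 ≤ s) (hs1 : s ≤ 1) (ht0 : 0 ≤ t) (ht1 : t ≤ 1) (hsx : 0 < s → m ≤ x)
    (hty : 0 < t → m ≤ y) :
    2 * (m ^ 2 * s + m ^ 2 * t) + f * (2 * (max 0 (-(x * m)) * t + max 0 (-(y * m)) * s) -
      (max 0 (-(x * m)) + max 0 (-(y * m)))) ≤ Qf M m x y := by
  have hm2 : 0 < m ^ 2 := pow_pos hm 2
  have habs : ∀ z : ℝ, (|z * m| - z * m) / 2 = max 0 (-(z * m)) := by
    intro z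
    rcases le_total 0 (z * m) with h | h
    · rw [abs_of_nonneg h, max_eq_left (by linarith)]
      ring
    · rw [abs_of_nonpos h, max_eq_right (by linarith)]
      ring
  obtain ⟨u, hu⟩ : ∃ u, u = max 0 (-(x * m)) := ⟨_, rfl⟩
  obtain ⟨v, hv⟩ : ∃ v, v = max 0 (-(y * m)) := ⟨_, rfl⟩
  have hu0 : 0 ≤ u := by rw [hu]; exact le_max_left _ _
  have hv0 : 0 ≤ v := by rw [hv]; exact le_max_left _ _
  have hu1 : -(x * m) ≤ u := by rw [hu]; exact le_max_right _ _
  have hv1 : -(y * m) ≤ v := by rw [hv]; exact le_max_right _ _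
  have hmu0 : 0 ≤ mu x y := by unfold mu; positivity
  have hng0 : 0 ≤ ng x y := by unfold ng; exact le_max_left _ _
  have hng1 : -(x * y) ≤ ng x y := by unfold ng; exact le_max_right _ _
  -- (2)
  have e2 : ∀ z r c : ℝ, 0 ≤ r → r ≤ 1 → (0 < r → m ≤ z) → 0 ≤ c → c ≤ 1 →
      m ^ 2 * r ≤ ((1 - c) * m + c * z) ^ 2 := by
    intro z r c hr0 hr1 hrz hc0 hc1
    rcases hr0.eq_or_lt with h | h
    · rw [← h, mul_zero]
      positivity
    · have h1 : m ≤ (1 - c) * m + c * z := by nlinarith [hrz h]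
      have h2 : m ^ 2 ≤ ((1 - c) * m + c * z) ^ 2 := pow_le_pow_left₀ hm.le h1 2
      nlinarith
  -- (3)
  have e3 : ∀ z r w : ℝ, 0 ≤ r → r ≤ 1 → (0 < r → m ≤ z) → 0 ≤ w → -(z * m) ≤ w →
      m ^ 2 * r ≤ z * m + w := by
    intro z r w hr0 hr1 hrz hw0 hw1
    rcases hr0.eq_or_lt with h | h
    · rw [← h, mul_zero]
      linarith
    · have h1 : m ^ 2 ≤ z * m := by nlinarith [hrz h]
      nlinarith
  -- (4)
  have e4 : m ^ 2 * s + m ^ 2 * t ≤ m ^ 2 + mu x y := by
    have h1 : m ^ 2 * (s * t) ≤ mu x y := by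
      rcases hs0.eq_or_lt with h | h
      · rw [← h, zero_mul, mul_zero]
        exact hmu0
      rcases ht0.eq_or_lt with h' | h'
      · rw [← h', mul_zero, mul_zero]
        exact hmu0
      have h2 : m ≤ max 0 (min x y) := (le_min (hsx h) (hty h')).trans (le_max_right _ _)
      have h3 : m ^ 2 ≤ (max 0 (min x y)) ^ 2 := pow_le_pow_left₀ hm.le h2 2
      have h4 : s * t ≤ 1 := mul_le_one₀ hs1 ht0 ht1
      have h5 : m ^ 2 ≤ mu x y := by
        unfold mu
        nlinarith [sq_nonneg (max 0 (min (-x) (-y)))]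
      nlinarith
    have h6 : 0 ≤ m ^ 2 * ((1 - s) * (1 - t)) :=
      mul_nonneg hm2.le (mul_nonneg (by linarith) (by linarith))
    nlinarith
  -- (5)
  have hus : u * s = 0 := by
    rcases hs0.eq_or_lt with h | h
    · rw [← h, mul_zero]
    · have h1 : 0 ≤ x * m := mul_nonneg (hm.le.trans (hsx h)) hm.le
      have h2 : u = 0 := by rw [hu]; exact max_eq_left (by linarith)
      rw [h2, zero_mul]
  have hvt : v * t = 0 := by
    rcases ht0.eq_or_lt with h | h
    · rw [← h, mul_zero]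
    · have h1 : 0 ≤ y * m := mul_nonneg (hm.le.trans (hty h)) hm.le
      have h2 : v = 0 := by rw [hv]; exact max_eq_left (by linarith)
      rw [h2, zero_mul]
  have hone : ∀ z z' r w : ℝ, 0 ≤ r → r ≤ 1 → (0 < r → m ≤ z') → w = max 0 (-(z * m)) →
      w * r ≤ max 0 (-(z * z')) := by
    intro z z' r w hr0 hr1 hrz hw
    rcases hr0.eq_or_lt with h | h
    · rw [← h, mul_zero]
      exact le_max_left _ _
    · have hz' := hrz h
      have hw0 : 0 ≤ w := by rw [hw]; exact le_max_left _ _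
      have h1 : w * r ≤ w := mul_le_of_le_one_right hw0 hr1
      refine h1.trans ?_
      rw [hw]
      refine max_le (le_max_left _ _) ?_
      rcases le_total 0 z with hz | hz
      · exact le_trans (by nlinarith) (le_max_left _ _)
      · refine le_trans ?_ (le_max_right _ _)
        nlinarith
  have e5 : u * t + v * s ≤ ng x y := by
    have h1 : u * t ≤ ng x y := hone x y t u ht0 ht1 hty hu
    have h2 : v * s ≤ ng x y := by
      have h3 := hone y x s v hs0 hs1 hsx hv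
      rw [mul_comm y x] at h3
      exact h3
    rcases hs0.eq_or_lt with h | h
    · rw [← h, mul_zero, add_zero]
      exact h1
    · have h3 : u = 0 := by
        rcases mul_eq_zero.1 hus with h4 | h4
        · exact h4
        · exact absurd h4 h.ne'
      rw [h3, zero_mul, zero_add]
      exact h2
  have e6 : u * t + v * s ≤ u + v :=
    add_le_add (mul_le_of_le_one_right hu0 ht1) (mul_le_of_le_one_right hv0 hs1)
  have p1 := mul_le_mul_of_nonneg_left e4 hM.la0
  have p2 := mul_le_mul_of_nonneg_left (e2 x s M.vj hs0 hs1 hsx hM.vj0 hM.vj1) hM.w0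
  have p2' := mul_le_mul_of_nonneg_left (e2 y t M.vk ht0 ht1 hty hM.vk0 hM.vk1) hM.w0
  have p3 := mul_le_mul_of_nonneg_left (e3 x s u hs0 hs1 hsx hu0 hu1) hM.b10
  have p3' := mul_le_mul_of_nonneg_left (e3 y t v ht0 ht1 hty hv0 hv1) hM.b10
  have p5 := mul_le_mul_of_nonneg_left e5 hM.al0
  have p6 := mul_le_mul_of_nonneg_left e6 (sub_nonneg.2 hM.al1)
  have q1 : (M.w + M.la + M.b1) * (m ^ 2 * s + m ^ 2 * t) = 2 * (m ^ 2 * s + m ^ 2 * t) := by
    rw [hM.ww]
  have q2 : (M.b1 - M.b2) * (u + v) = (M.al - f) * (u + v) := by rw [hM.bb]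
  unfold Qf
  rw [habs x, habs y, ← hu, ← hv]
  linarith

private theorem frame_pos_FrameG {N : ℕ} (X : Fin N → ℝ) {m : ℝ} (hm : 0 < m)
    (h1 : N ≤ 2 * (Finset.univ.filter fun i => m ≤ X i).card) {f : ℝ}
    (M : Fin N → Fin N → Mult) (hM : ∀ j k, (M j k).Ok f) :
    2 * (N : ℝ) ^ 2 * m ^ 2 ≤ ∑ j, ∑ k, Qf (M j k) m (X j) (X k) := by
  obtain ⟨b, hb⟩ : ∃ b, b = (Finset.univ.filter fun i => m ≤ X i).card := ⟨_, rfl⟩
  rw [← hb] at h1
  have h1' : (N : ℝ) ≤ 2 * b := by exact_mod_cast h1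
  obtain ⟨c, hc⟩ : ∃ c : ℝ, c = (N : ℝ) / 2 / b := ⟨_, rfl⟩
  have hc0 : 0 ≤ c := by rw [hc]; positivity
  have hc1 : c ≤ 1 := by
    rw [hc]
    exact div_le_one_of_le₀ (by linarith) (Nat.cast_nonneg _)
  have hcb : (b : ℝ) * c = (N : ℝ) / 2 := by
    rw [hc]
    rcases Nat.eq_zero_or_pos b with h | h
    · have hN : (N : ℝ) = 0 := by
        have h2 : (N : ℝ) ≤ 0 := by rw [h] at h1'; simpa using h1'
        exact le_antisymm h2 (Nat.cast_nonneg _)
      rw [hN, h]
      simp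
    · have h2 : (b : ℝ) ≠ 0 := by exact_mod_cast h.ne'
      field_simp
  let σ : Fin N → ℝ := fun i => if m ≤ X i then c else 0
  let ν : Fin N → ℝ := fun i => max 0 (-(X i * m))
  have hσ0 : ∀ i, 0 ≤ σ i := by
    intro i
    show 0 ≤ if m ≤ X i then c else 0
    split_ifs
    · exact hc0
    · exact le_rfl
  have hσ1 : ∀ i, σ i ≤ 1 := by
    intro i
    show (if m ≤ X i then c else 0) ≤ 1
    split_ifs
    · exact hc1
    · exact zero_le_one
  have hσX : ∀ i, 0 < σ i → m ≤ X i := by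
    intro i hi
    by_contra h
    have h2 : σ i = 0 := if_neg h
    exact hi.ne' h2
  have hsum : ∑ i, σ i = (N : ℝ) / 2 := by
    show ∑ i, (if m ≤ X i then c else 0) = (N : ℝ) / 2
    rw [← Finset.sum_filter, Finset.sum_const, nsmul_eq_mul, ← hb, hcb]
  have hle : ∀ j k, 2 * (m ^ 2 * σ j + m ^ 2 * σ k) + f * (2 * (ν j * σ k + ν k * σ j) -
      (ν j + ν k)) ≤ Qf (M j k) m (X j) (X k) := fun j k =>
    pair_le_FrameG hm (hM j k) (hσ0 j) (hσ1 j) (hσ0 k) (hσ1 k) (hσX j) (hσX k)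
  refine le_trans (le_of_eq ?_)
    (Finset.sum_le_sum fun j _ => Finset.sum_le_sum fun k _ => hle j k)
  have hin : ∀ j, ∑ k, (2 * (m ^ 2 * σ j + m ^ 2 * σ k) + f * (2 * (ν j * σ k + ν k * σ j) -
      (ν j + ν k))) = (N * m ^ 2 - f * ∑ k, ν k) +
        (2 * N * m ^ 2 + 2 * f * ∑ k, ν k) * σ j := by
    intro j
    have h2 : ∀ k, 2 * (m ^ 2 * σ j + m ^ 2 * σ k) + f * (2 * (ν j * σ k + ν k * σ j) -
        (ν j + ν k)) = (2 * m ^ 2 * σ j - f * ν j) + (2 * m ^ 2 + 2 * f * ν j) * σ k +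
          (2 * f * σ j - f) * ν k := fun k => by ring
    rw [Finset.sum_congr rfl fun k _ => h2 k, Finset.sum_add_distrib, Finset.sum_add_distrib,
      ← Finset.mul_sum, ← Finset.mul_sum, Finset.sum_const, Finset.card_univ,
      Fintype.card_fin, nsmul_eq_mul, hsum]
    ring
  rw [Finset.sum_congr rfl fun j _ => hin j, Finset.sum_add_distrib, ← Finset.mul_sum, hsum,
    Finset.sum_const, Finset.card_univ, Fintype.card_fin, nsmul_eq_mul]
  ring

theorem frame_pair {N : ℕ} (X : Fin N → ℝ) (m : ℝ)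
    (h1 : N ≤ 2 * (Finset.univ.filter fun i => m ≤ X i).card)
    (h2 : N ≤ 2 * (Finset.univ.filter fun i => X i ≤ m).card) {f : ℝ} (hf : 0 ≤ f)
    (M : Fin N → Fin N → Mult) (hM : ∀ j k, (M j k).Ok f) :
    2 * (N : ℝ) ^ 2 * m ^ 2 ≤ ∑ j, ∑ k, Qf (M j k) m (X j) (X k) := by
  rcases lt_trichotomy m 0 with hm | hm | hm
  · have h3 : (Finset.univ.filter fun i => X i ≤ m) =
        Finset.univ.filter fun i => -m ≤ -X i := by
      ext i
      simp
    rw [h3] at h2
    have h4 := frame_pos_FrameG (fun i => -X i) (neg_pos.2 hm) h2 M hM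
    have h5 : ∀ j k, Qf (M j k) (-m) (-X j) (-X k) = Qf (M j k) m (X j) (X k) := by
      intro j k
      have h6 : mu (-X j) (-X k) = mu (X j) (X k) := by
        unfold mu
        rw [neg_neg, neg_neg]
        ring
      have h7 : ng (-X j) (-X k) = ng (X j) (X k) := by
        unfold ng
        rw [neg_mul_neg]
      unfold Qf
      rw [h6, h7, neg_mul_neg, neg_mul_neg]
      ring
    simp only [h5] at h4
    rw [neg_pow_two] at h4
    exact h4
  · rw [hm]
    have h3 : ∀ j k, 0 ≤ Qf (M j k) 0 (X j) (X k) := by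
      intro j k
      have hM' := hM j k
      have hmu0 : 0 ≤ mu (X j) (X k) := by unfold mu; positivity
      have hng0 : 0 ≤ ng (X j) (X k) := by unfold ng; exact le_max_left _ _
      have p1 := mul_nonneg hM'.la0 hmu0
      have p2 := mul_nonneg hM'.al0 hng0
      have p3 := mul_nonneg hM'.w0 (add_nonneg (sq_nonneg ((M j k).vj * X j))
        (sq_nonneg ((M j k).vk * X k)))
      unfold Qf
      simp only [mul_zero, abs_zero, sub_zero, zero_add, add_zero, zero_div, ne_eq,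
        OfNat.ofNat_ne_zero, not_false_eq_true, zero_pow]
      linarith
    refine le_trans (le_of_eq ?_) (Finset.sum_nonneg fun j _ => Finset.sum_nonneg fun k _ => h3 j k)
    ring
  · exact frame_pos_FrameG X hm h1 M hM

end Pool.Agent.RRMG
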