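import Pool.Agent.RRMG.Defs

/-!
# Two integrals

`s = a cos φ`, `t = b cos (φ - θ)`, `a, b ≥ 0`, `0 ≤ θ ≤ π`.

`int_ng`: `s t = (a b / 2) (cos (2 φ - θ) + cos θ)`.  With `ψ = 2 φ - θ` and the period `2 π`:
`∫_0^{2π} ng = (a b / 2) ∫_{-π}^{π} max 0 (-(cos ψ + cos θ)) dψ
= a b ∫_{π-θ}^{π} (-(cos ψ + cos θ)) dψ = a b (sin θ - θ cos θ)`.

`int_mu_le`: if `s t > 0` then `mu s t = min (s², t²)`, otherwise `0`.
`cos² φ = (1 + cos (ψ + θ)) / 2`, `cos² (φ - θ) = (1 + cos (ψ - θ)) / 2`; `s t > 0` iff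
(`ψ ∈ [-π, π]`) `|ψ| < π - θ` (for `a b > 0`).  So `mu ≤ a² (1 + cos (ψ + θ)) / 2` for
`0 ≤ ψ ≤ π - θ`,
`mu ≤ b² (1 + cos (ψ - θ)) / 2` for `-(π - θ) ≤ ψ ≤ 0`, and `mu = 0` for the other `ψ ∈ [-π, π]`.
`∫_0^{π-θ} (1 + cos (ψ + θ)) / 2 dψ = (π - θ - sin θ) / 2`, the same for the other half.  The
integral over `φ ∈ [0, 2π]` is (period) the integral over `ψ ∈ [-π, π]`, so it is at most
`(a² + b²) / 2 * (π - θ - sin θ)`.
-/

set_option autoImplicit false

noncomputable section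

namespace Pool.Agent.RRMG

open Real MeasureTheory

private theorem intF_mu_neg (s t : ℝ) : mu (-s) (-t) = mu s t := by
  unfold mu
  rw [neg_neg, neg_neg, add_comm]

private theorem intF_mu_le_left (s t : ℝ) : mu s t ≤ s ^ 2 := by
  unfold mu
  rcases le_total 0 s with h | h
  · have h1 : max 0 (min (-s) (-t)) = 0 :=
      max_eq_left ((min_le_left _ _).trans (by linarith))
    have h2 : max 0 (min s t) ≤ s := max_le h (min_le_left _ _)
    have h3 : 0 ≤ max 0 (min s t) := le_max_left _ _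
    rw [h1]
    nlinarith
  · have h1 : max 0 (min s t) = 0 := max_eq_left ((min_le_left _ _).trans h)
    have h2 : max 0 (min (-s) (-t)) ≤ -s := max_le (by linarith) (min_le_left _ _)
    have h3 : 0 ≤ max 0 (min (-s) (-t)) := le_max_left _ _
    rw [h1]
    nlinarith

private theorem intF_mu_comm (s t : ℝ) : mu s t = mu t s := by
  unfold mu
  rw [min_comm s t, min_comm (-s) (-t)]

private theorem intF_mu_le_right (s t : ℝ) : mu s t ≤ t ^ 2 := by
  rw [intF_mu_comm]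
  exact intF_mu_le_left t s

private theorem intF_mu_zero {s t : ℝ} (h : s * t ≤ 0) : mu s t = 0 := by
  have h1 : min s t ≤ 0 := by
    by_contra hc
    push Not at hc
    have := lt_min_iff.1 hc
    nlinarith [mul_pos this.1 this.2]
  have h2 : min (-s) (-t) ≤ 0 := by
    by_contra hc
    push Not at hc
    have := lt_min_iff.1 hc
    nlinarith [mul_pos this.1 this.2]
  unfold mu
  rw [max_eq_left h1, max_eq_left h2]
  ring

theorem continuous_ng : Continuous fun p : ℝ × ℝ => ng p.1 p.2 := by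
  unfold ng
  fun_prop

theorem continuous_mu : Continuous fun p : ℝ × ℝ => mu p.1 p.2 := by
  unfold mu
  fun_prop

theorem ng_hom (c s t : ℝ) : ng (c * s) (c * t) = c ^ 2 * ng s t := by
  unfold ng
  have h : -(c * s * (c * t)) = c ^ 2 * -(s * t) := by ring
  rw [h, mul_max_of_nonneg _ _ (sq_nonneg c), mul_zero]

private theorem intF_mu_hom_pos {c : ℝ} (hc : 0 ≤ c) (s t : ℝ) :
    mu (c * s) (c * t) = c ^ 2 * mu s t := by
  unfold mu
  have h1 : max 0 (min (c * s) (c * t)) = c * max 0 (min s t) := by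
    rw [← mul_min_of_nonneg _ _ hc, mul_max_of_nonneg _ _ hc, mul_zero]
  have h2 : max 0 (min (-(c * s)) (-(c * t))) = c * max 0 (min (-s) (-t)) := by
    rw [← mul_neg, ← mul_neg, ← mul_min_of_nonneg _ _ hc, mul_max_of_nonneg _ _ hc, mul_zero]
  rw [h1, h2]
  ring

theorem mu_hom (c s t : ℝ) : mu (c * s) (c * t) = c ^ 2 * mu s t := by
  rcases le_total 0 c with h | h
  · exact intF_mu_hom_pos h s t
  · have h1 := intF_mu_hom_pos (c := -c) (by linarith) (-s) (-t)
    rw [intF_mu_neg] at h1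
    have h2 : -c * -s = c * s := by ring
    have h3 : -c * -t = c * t := by ring
    rw [h2, h3] at h1
    rw [h1]
    ring

/-- the change of variables `ψ = 2 φ - θ` -/
private theorem intF_change {f : ℝ → ℝ} (hf : Continuous f) (hp : ∀ x, f (x + 2 * π) = f x)
    (θ : ℝ) : ∫ φ in (0 : ℝ)..(2 * π), f (2 * φ - θ) = ∫ ψ in (-π)..π, f ψ := by
  have hper : Function.Periodic f (2 * π) := hp
  rw [intervalIntegral.integral_comp_mul_sub f two_ne_zero θ]
  have h1 : ∫ x in (2 * 0 - θ)..(2 * (2 * π) - θ), f x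
      = (∫ x in (-θ)..(-θ + 2 * π), f x) + ∫ x in (-θ + 2 * π)..(-θ + 2 * π + 2 * π), f x := by
    rw [intervalIntegral.integral_add_adjacent_intervals (hf.intervalIntegrable _ _)
      (hf.intervalIntegrable _ _)]
    congr 1 <;> ring
  have h2 : ∫ x in (-θ)..(-θ + 2 * π), f x = ∫ x in (-π)..(-π + 2 * π), f x :=
    hper.intervalIntegral_add_eq _ _
  have h3 : ∫ x in (-θ + 2 * π)..(-θ + 2 * π + 2 * π), f x = ∫ x in (-π)..(-π + 2 * π), f x :=
    hper.intervalIntegral_add_eq _ _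
  have h4 : -π + 2 * π = π := by ring
  rw [h1, h2, h3, h4, smul_eq_mul]
  ring

private theorem intF_prod (φ θ : ℝ) : cos φ * cos (φ - θ) = (cos (2 * φ - θ) + cos θ) / 2 := by
  have h1 : 2 * φ - θ = φ + (φ - θ) := by ring
  have h2 : cos θ = cos (φ - (φ - θ)) := by congr 1; ring
  rw [h2, h1, cos_add, cos_sub φ (φ - θ)]
  ring

private theorem intF_cos_ge {θ ψ : ℝ} (h0 : 0 ≤ θ) (h1 : 0 ≤ ψ) (h2 : ψ ≤ π - θ) :
    0 ≤ cos ψ + cos θ := by
  have h3 : cos (π - θ) ≤ cos ψ := cos_le_cos_of_nonneg_of_le_pi h1 (by linarith) h2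
  rw [cos_pi_sub] at h3
  linarith

private theorem intF_cos_le {θ ψ : ℝ} (h0 : θ ≤ π) (h1 : π - θ ≤ ψ) (h2 : ψ ≤ π) :
    cos ψ + cos θ ≤ 0 := by
  have h3 : cos ψ ≤ cos (π - θ) := cos_le_cos_of_nonneg_of_le_pi (by linarith) h2 h1
  rw [cos_pi_sub] at h3
  linarith

private theorem intF_base {θ : ℝ} (h0 : 0 ≤ θ) (h1 : θ ≤ π) :
    ∫ ψ in (-π)..π, max 0 (-(cos ψ + cos θ)) = 2 * (sin θ - θ * cos θ) := by
  have hc : Continuous fun ψ : ℝ => max 0 (-(cos ψ + cos θ)) := by fun_prop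
  have hhalf : ∫ ψ in (0 : ℝ)..π, max 0 (-(cos ψ + cos θ)) = sin θ - θ * cos θ := by
    rw [← intervalIntegral.integral_add_adjacent_intervals (b := π - θ)
      (hc.intervalIntegrable _ _) (hc.intervalIntegrable _ _)]
    have h2 : ∫ ψ in (0 : ℝ)..(π - θ), max 0 (-(cos ψ + cos θ)) = 0 := by
      have h3 : ∫ ψ in (0 : ℝ)..(π - θ), max 0 (-(cos ψ + cos θ))
          = ∫ ψ in (0 : ℝ)..(π - θ), (0 : ℝ) := by
        refine intervalIntegral.integral_congr fun ψ hψ => ?_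
        rw [Set.uIcc_of_le (by linarith)] at hψ
        exact max_eq_left (by linarith [intF_cos_ge h0 hψ.1 hψ.2])
      rw [h3, intervalIntegral.integral_zero]
    have h4 : ∫ ψ in (π - θ)..π, max 0 (-(cos ψ + cos θ))
        = ∫ ψ in (π - θ)..π, -(cos ψ + cos θ) := by
      refine intervalIntegral.integral_congr fun ψ hψ => ?_
      rw [Set.uIcc_of_le (by linarith)] at hψ
      exact max_eq_right (by linarith [intF_cos_le h1 hψ.1 hψ.2])
    have h5 : ∫ ψ in (π - θ)..π, -(cos ψ + cos θ) = sin θ - θ * cos θ := by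
      have h6 : ∀ x ∈ Set.uIcc (π - θ) π,
          HasDerivAt (fun x => -(sin x + cos θ * x)) (-(cos x + cos θ)) x := by
        intro x _
        have h7 : HasDerivAt (fun x => -(sin x + cos θ * x)) (-(cos x + cos θ * 1)) x :=
          ((hasDerivAt_sin x).add ((hasDerivAt_id x).const_mul (cos θ))).neg
        rwa [mul_one] at h7
      rw [intervalIntegral.integral_eq_sub_of_hasDerivAt h6
        ((by fun_prop : Continuous fun x : ℝ => -(cos x + cos θ)).intervalIntegrable _ _)]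
      rw [sin_pi, sin_pi_sub]
      ring
    rw [h2, h4, h5, zero_add]
  have hneg : ∫ ψ in (-π)..0, max 0 (-(cos ψ + cos θ))
      = ∫ ψ in (0 : ℝ)..π, max 0 (-(cos ψ + cos θ)) := by
    have h2 := intervalIntegral.integral_comp_neg (a := 0) (b := π)
      (fun ψ => max 0 (-(cos ψ + cos θ)))
    rw [neg_zero] at h2
    rw [← h2]
    refine intervalIntegral.integral_congr fun ψ _ => ?_
    simp only [cos_neg]
  rw [← intervalIntegral.integral_add_adjacent_intervals (b := 0)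
      (hc.intervalIntegrable _ _) (hc.intervalIntegrable _ _), hneg, hhalf]
  ring

theorem int_ng {a b θ : ℝ} (ha : 0 ≤ a) (hb : 0 ≤ b) (h0 : 0 ≤ θ) (h1 : θ ≤ π) :
    1 / π * ∫ φ in (0 : ℝ)..(2 * π), ng (a * cos φ) (b * cos (φ - θ)) = a * b * af θ := by
  have h2 : ∀ φ : ℝ, ng (a * cos φ) (b * cos (φ - θ))
      = (a * b / 2) * max 0 (-(cos (2 * φ - θ) + cos θ)) := by
    intro φ
    unfold ng
    have h3 : -(a * cos φ * (b * cos (φ - θ))) = (a * b / 2) * (-(cos (2 * φ - θ) + cos θ)) := by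
      have h4 : a * cos φ * (b * cos (φ - θ)) = a * b * (cos φ * cos (φ - θ)) := by ring
      rw [h4, intF_prod]
      ring
    rw [h3, mul_max_of_nonneg _ _ (by positivity), mul_zero]
  simp only [h2]
  rw [intervalIntegral.integral_const_mul,
    intF_change (f := fun ψ => max 0 (-(cos ψ + cos θ))) (by fun_prop)
      (fun x => by simp only [cos_add_two_pi]) θ, intF_base h0 h1]
  unfold af
  have hpi : π ≠ 0 := pi_ne_zero
  field_simp

theorem int_mu_le {a b θ : ℝ} (ha : 0 ≤ a) (hb : 0 ≤ b) (h0 : 0 ≤ θ) (h1 : θ ≤ π) :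
    1 / π * ∫ φ in (0 : ℝ)..(2 * π), mu (a * cos φ) (b * cos (φ - θ)) ≤
      (a ^ 2 + b ^ 2) / 2 * mf θ := by
  set F : ℝ → ℝ := fun ψ => mu (a * cos ((ψ + θ) / 2)) (b * cos ((ψ - θ) / 2)) with hF
  have hFc : Continuous F := by
    have h2 : Continuous fun ψ : ℝ => (a * cos ((ψ + θ) / 2), b * cos ((ψ - θ) / 2)) := by
      fun_prop
    exact continuous_mu.comp h2
  have hFp : ∀ x, F (x + 2 * π) = F x := by
    intro x
    have h2 : (x + 2 * π + θ) / 2 = (x + θ) / 2 + π := by ring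
    have h3 : (x + 2 * π - θ) / 2 = (x - θ) / 2 + π := by ring
    simp only [hF]
    rw [h2, h3, cos_add_pi, cos_add_pi, mul_neg, mul_neg, intF_mu_neg]
  have hF2 : ∀ φ : ℝ, mu (a * cos φ) (b * cos (φ - θ)) = F (2 * φ - θ) := by
    intro φ
    simp only [hF]
    congr 3
    · ring
    · ring
  simp only [hF2]
  rw [intF_change hFc hFp θ]
  have hst : ∀ ψ : ℝ, a * cos ((ψ + θ) / 2) * (b * cos ((ψ - θ) / 2))
      = a * b * ((cos ψ + cos θ) / 2) := by
    intro ψ
    have h2 := intF_prod ((ψ + θ) / 2) θ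
    have h3 : (ψ + θ) / 2 - θ = (ψ - θ) / 2 := by ring
    have h4 : 2 * ((ψ + θ) / 2) - θ = ψ := by ring
    rw [h3, h4] at h2
    rw [← h2]
    ring
  have hab : 0 ≤ a * b := mul_nonneg ha hb
  have hzero : ∀ ψ : ℝ, cos ψ + cos θ ≤ 0 → F ψ = 0 := by
    intro ψ h
    refine intF_mu_zero ?_
    rw [hst]
    nlinarith
  have hi : ∀ c d : ℝ, IntervalIntegrable F MeasureTheory.volume c d := fun c d =>
    hFc.intervalIntegrable _ _
  have e1 : ∫ ψ in (-π)..(-(π - θ)), F ψ = 0 := by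
    have h3 : ∫ ψ in (-π)..(-(π - θ)), F ψ = ∫ ψ in (-π)..(-(π - θ)), (0 : ℝ) := by
      refine intervalIntegral.integral_congr fun ψ hψ => ?_
      rw [Set.uIcc_of_le (by linarith)] at hψ
      refine hzero ψ ?_
      have h4 := intF_cos_le (ψ := -ψ) h1 (by linarith [hψ.2]) (by linarith [hψ.1])
      rwa [cos_neg] at h4
    rw [h3, intervalIntegral.integral_zero]
  have e4 : ∫ ψ in (π - θ)..π, F ψ = 0 := by
    have h3 : ∫ ψ in (π - θ)..π, F ψ = ∫ ψ in (π - θ)..π, (0 : ℝ) := by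
      refine intervalIntegral.integral_congr fun ψ hψ => ?_
      rw [Set.uIcc_of_le (by linarith)] at hψ
      exact hzero ψ (intF_cos_le h1 hψ.1 hψ.2)
    rw [h3, intervalIntegral.integral_zero]
  have hsq1 : ∀ ψ : ℝ, (a * cos ((ψ + θ) / 2)) ^ 2 = a ^ 2 * ((1 + cos (ψ + θ)) / 2) := by
    intro ψ
    rw [mul_pow, cos_sq]
    have h4 : 2 * ((ψ + θ) / 2) = ψ + θ := by ring
    rw [h4]
    ring
  have hsq2 : ∀ ψ : ℝ, (b * cos ((ψ - θ) / 2)) ^ 2 = b ^ 2 * ((1 + cos (ψ - θ)) / 2) := by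
    intro ψ
    rw [mul_pow, cos_sq]
    have h4 : 2 * ((ψ - θ) / 2) = ψ - θ := by ring
    rw [h4]
    ring
  have e3 : ∫ ψ in (0 : ℝ)..(π - θ), F ψ ≤ a ^ 2 * ((π - θ - sin θ) / 2) := by
    have h3 : ∫ ψ in (0 : ℝ)..(π - θ), F ψ
        ≤ ∫ ψ in (0 : ℝ)..(π - θ), a ^ 2 * ((1 + cos (ψ + θ)) / 2) := by
      refine intervalIntegral.integral_mono_on (by linarith) (hi _ _)
        ((by fun_prop : Continuous fun ψ : ℝ => a ^ 2 * ((1 + cos (ψ + θ)) / 2)).intervalIntegrable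
          _ _) fun ψ _ => ?_
      rw [← hsq1]
      exact intF_mu_le_left _ _
    refine h3.trans (le_of_eq ?_)
    have h6 : ∀ x ∈ Set.uIcc (0 : ℝ) (π - θ),
        HasDerivAt (fun x => a ^ 2 * ((x + sin (x + θ)) / 2))
          (a ^ 2 * ((1 + cos (x + θ)) / 2)) x := by
      intro x _
      have h7 : HasDerivAt (fun x => sin (x + θ)) (cos (x + θ)) x := by
        have := (hasDerivAt_sin (x + θ)).comp_add_const x θ
        exact this
      exact (((hasDerivAt_id x).add h7).div_const 2).const_mul (a ^ 2)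
    rw [intervalIntegral.integral_eq_sub_of_hasDerivAt h6
      ((by fun_prop : Continuous fun ψ : ℝ => a ^ 2 * ((1 + cos (ψ + θ)) / 2)).intervalIntegrable
        _ _)]
    have h8 : π - θ + θ = π := by ring
    rw [h8, sin_pi, zero_add, zero_add]
    ring
  have e2 : ∫ ψ in (-(π - θ))..0, F ψ ≤ b ^ 2 * ((π - θ - sin θ) / 2) := by
    have h3 : ∫ ψ in (-(π - θ))..0, F ψ
        ≤ ∫ ψ in (-(π - θ))..0, b ^ 2 * ((1 + cos (ψ - θ)) / 2) := by
      refine intervalIntegral.integral_mono_on (by linarith) (hi _ _)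
        ((by fun_prop : Continuous fun ψ : ℝ => b ^ 2 * ((1 + cos (ψ - θ)) / 2)).intervalIntegrable
          _ _) fun ψ _ => ?_
      rw [← hsq2]
      exact intF_mu_le_right _ _
    refine h3.trans (le_of_eq ?_)
    have h6 : ∀ x ∈ Set.uIcc (-(π - θ)) 0,
        HasDerivAt (fun x => b ^ 2 * ((x + sin (x - θ)) / 2))
          (b ^ 2 * ((1 + cos (x - θ)) / 2)) x := by
      intro x _
      have h7 : HasDerivAt (fun x => sin (x - θ)) (cos (x - θ)) x := by
        have := (hasDerivAt_sin (x - θ)).comp_sub_const x θ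
        exact this
      exact (((hasDerivAt_id x).add h7).div_const 2).const_mul (b ^ 2)
    rw [intervalIntegral.integral_eq_sub_of_hasDerivAt h6
      ((by fun_prop : Continuous fun ψ : ℝ => b ^ 2 * ((1 + cos (ψ - θ)) / 2)).intervalIntegrable
        _ _)]
    have h8 : -(π - θ) - θ = -π := by ring
    rw [h8, sin_neg, sin_pi, zero_sub, sin_neg]
    ring
  have hsum : ∫ ψ in (-π)..π, F ψ = (∫ ψ in (-π)..(-(π - θ)), F ψ)
      + (∫ ψ in (-(π - θ))..0, F ψ) + (∫ ψ in (0 : ℝ)..(π - θ), F ψ)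
      + ∫ ψ in (π - θ)..π, F ψ := by
    rw [intervalIntegral.integral_add_adjacent_intervals (hi _ _) (hi _ _),
      intervalIntegral.integral_add_adjacent_intervals (hi _ _) (hi _ _),
      intervalIntegral.integral_add_adjacent_intervals (hi _ _) (hi _ _)]
  rw [hsum, e1, e4]
  unfold mf
  have hpi : 0 < π := pi_pos
  have h9 : (a ^ 2 + b ^ 2) / 2 * (1 - (θ + sin θ) / π)
      = 1 / π * ((a ^ 2 + b ^ 2) * ((π - θ - sin θ) / 2)) := by
    field_simp
    ring
  rw [h9]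
  refine mul_le_mul_of_nonneg_left ?_ (by positivity)
  linarith

end Pool.Agent.RRMG
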