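import Pool.Agent.RRMG.Defs
import Pool.Agent.RRM.Haar

/-!
# Invariance of the Haar measure under right multiplication

`right_inv`.  `μ` is a probability measure on `SO d` which is invariant under left multiplications.
Then for a continuous (bounded) function `f`: `∫ f (R * Q) = ∫ f R`.
PROOF.  (1) `∫ f (R⁻¹) = ∫ f R`: for every `Q`, `∫ f (Q⁻¹ * R) dR = ∫ f R dR`; integrate over `Q` and
exchange: `∫ f R dR = ∫ (∫ f (Q⁻¹ * R) dQ) dR`, and for every `R` (replace `Q` by `R * Q`)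
`∫ f (Q⁻¹ * R) dQ = ∫ f (Q⁻¹) dQ`.  (2) `∫ f (R * Q) dR = ∫ f (R⁻¹ * Q) dR
= ∫ f ((Q⁻¹ * R)⁻¹) dR = ∫ f (R⁻¹) dR = ∫ f R dR`.  The bound of `f` is the hypothesis `hb`.
-/

set_option autoImplicit false

noncomputable section

namespace Pool.Agent.RRMG

open MeasureTheory Matrix Pool.Agent.RRM

variable {d : ℕ}

private theorem left_inv_Inv [MeasurableSpace (SO d)] [BorelSpace (SO d)] (μ : Measure (SO d))
    (hμ : ∀ Q : SO d, μ.map (fun R => Q * R) = μ) {g : SO d → ℝ} (hg : Continuous g) (Q : SO d) :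
    ∫ R, g (Q * R) ∂μ = ∫ R, g R ∂μ := by
  have hm : Continuous fun R : SO d => Q * R := continuous_const.mul continuous_id
  conv_rhs => rw [← hμ Q]
  rw [integral_map hm.aemeasurable hg.aestronglyMeasurable]

private theorem inv_inv_Inv [MeasurableSpace (SO d)] [BorelSpace (SO d)] (μ : Measure (SO d))
    [IsProbabilityMeasure μ] (hμ : ∀ Q : SO d, μ.map (fun R => Q * R) = μ) {f : SO d → ℝ}
    (hf : Continuous f) {C : ℝ} (hb : ∀ R, |f R| ≤ C) :
    ∫ R, f R⁻¹ ∂μ = ∫ R, f R ∂μ := by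
  have hcont : Continuous fun q : SO d × SO d => f (q.1⁻¹ * q.2) :=
    hf.comp ((continuous_inv_SO.comp continuous_fst).mul continuous_snd)
  have hint : Integrable (fun q : SO d × SO d => f (q.1⁻¹ * q.2)) (μ.prod μ) := by
    refine (integrable_const C).mono' hcont.aestronglyMeasurable
      (Filter.Eventually.of_forall fun q => ?_)
    rw [Real.norm_eq_abs]
    exact hb _
  have h1 : ∫ Q, ∫ R, f (Q⁻¹ * R) ∂μ ∂μ = ∫ R, f R ∂μ := by
    have h2 : ∀ Q : SO d, ∫ R, f (Q⁻¹ * R) ∂μ = ∫ R, f R ∂μ := fun Q =>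
      left_inv_Inv μ hμ hf Q⁻¹
    simp only [h2]
    simp
  have h3 : ∫ R, ∫ Q, f (Q⁻¹ * R) ∂μ ∂μ = ∫ R, f R⁻¹ ∂μ := by
    have h4 : ∀ R : SO d, ∫ Q, f (Q⁻¹ * R) ∂μ = ∫ Q, f Q⁻¹ ∂μ := by
      intro R
      have h5 : Continuous fun Q : SO d => f (Q⁻¹ * R) :=
        hf.comp (continuous_inv_SO.mul continuous_const)
      rw [← left_inv_Inv μ hμ h5 R]
      refine integral_congr_ae (Filter.Eventually.of_forall fun Q => ?_)
      simp only
      rw [_root_.mul_inv_rev, inv_mul_cancel_right]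
    simp only [h4]
    simp
  rw [← h3, ← h1]
  exact (integral_integral_swap (f := fun Q R : SO d => f (Q⁻¹ * R)) hint).symm

theorem right_inv [MeasurableSpace (SO d)] [BorelSpace (SO d)] (μ : Measure (SO d))
    [IsProbabilityMeasure μ] (hμ : ∀ Q : SO d, μ.map (fun R => Q * R) = μ) {f : SO d → ℝ}
    (hf : Continuous f) {C : ℝ} (hb : ∀ R, |f R| ≤ C) (Q : SO d) :
    ∫ R, f (R * Q) ∂μ = ∫ R, f R ∂μ := by
  have h1 : Continuous fun R : SO d => f (R * Q) := hf.comp (continuous_id.mul continuous_const)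
  have h2 := inv_inv_Inv μ hμ h1 (C := C) (fun R => hb _)
  have h3 : Continuous fun R : SO d => f R⁻¹ := hf.comp continuous_inv_SO
  have h4 := left_inv_Inv μ hμ h3 Q⁻¹
  rw [← h2, ← inv_inv_Inv μ hμ hf hb, ← h4]
  refine integral_congr_ae (Filter.Eventually.of_forall fun R => ?_)
  simp only
  rw [_root_.mul_inv_rev, inv_inv]

end Pool.Agent.RRMG
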