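import Pool.Agent.RRMG.Defs

/-!
# Rotations in a plane

`e1, e2` orthonormal vectors of `E d`, `φ` an angle:
`rotM e1 e2 φ = 1 + (cos φ - 1) (e1 e1ᵀ + e2 e2ᵀ) + sin φ (e2 e1ᵀ - e1 e2ᵀ)`.
`rotM_mul`: `rotM φ * rotM ψ = rotM (φ + ψ)`; `rotM_transpose`: `(rotM φ)ᵀ = rotM (-φ)`; `rotM 0 = 1`.
So `rotM φ` is orthogonal, and `det (rotM φ) = det (rotM (φ / 2)) ^ 2 = 1`: `rot φ : SO d`.
`rot φ e1 = cos φ e1 + sin φ e2`, `rot φ e2 = - sin φ e1 + cos φ e2`.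
For the products use `Matrix.vecMulVec` (`vecMulVec_mul_vecMulVec`, ...) and the dot products
`e1 ⬝ e1 = e2 ⬝ e2 = 1`, `e1 ⬝ e2 = 0`.
-/

set_option autoImplicit false

noncomputable section

namespace Pool.Agent.RRMG

open Matrix Pool.Agent.RRM

variable {d : ℕ}

/-- the matrix of the rotation with the angle `φ` in the plane of `e1, e2` -/
def rotM (e1 e2 : E d) (φ : ℝ) : Matrix (Fin d) (Fin d) ℝ :=
  1 + (Real.cos φ - 1) • (vecMulVec e1.ofLp e1.ofLp + vecMulVec e2.ofLp e2.ofLp) +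
    Real.sin φ • (vecMulVec e2.ofLp e1.ofLp - vecMulVec e1.ofLp e2.ofLp)

/-- dot products of unit vectors -/
private theorem dots {e1 e2 : E d} (h1 : ‖e1‖ = 1) (h2 : ‖e2‖ = 1) (h12 : inner ℝ e1 e2 = 0) :
    e1.ofLp ⬝ᵥ e1.ofLp = 1 ∧ e2.ofLp ⬝ᵥ e2.ofLp = 1 ∧ e1.ofLp ⬝ᵥ e2.ofLp = 0 ∧
      e2.ofLp ⬝ᵥ e1.ofLp = 0 := by
  have e : ∀ x : E d, x.ofLp ⬝ᵥ x.ofLp = ‖x‖ ^ 2 := fun x => by
    rw [EuclideanSpace.real_norm_sq_eq]
    unfold dotProduct
    exact Finset.sum_congr rfl fun i _ => (sq _).symm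
  have e12 : e1.ofLp ⬝ᵥ e2.ofLp = 0 := by
    rw [← h12, PiLp.inner_apply]
    unfold dotProduct
    refine Finset.sum_congr rfl fun i _ => ?_
    simp [mul_comm]
  refine ⟨by rw [e, h1, one_pow], by rw [e, h2, one_pow], e12, ?_⟩
  rw [dotProduct_comm]
  exact e12

private theorem rotM_mul {e1 e2 : E d} (h1 : ‖e1‖ = 1) (h2 : ‖e2‖ = 1)
    (h12 : inner ℝ e1 e2 = 0) (φ ψ : ℝ) :
    rotM e1 e2 φ * rotM e1 e2 ψ = rotM e1 e2 (φ + ψ) := by
  obtain ⟨d1, d2, d3, d4⟩ := dots h1 h2 h12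
  unfold rotM
  rw [Real.cos_add, Real.sin_add]
  simp only [add_mul, mul_add, sub_mul, mul_sub, smul_mul_assoc, mul_smul_comm, one_mul, mul_one,
    vecMulVec_mul_vecMulVec, d1, d2, d3, d4, one_smul, zero_smul, vecMulVec_zero, smul_add,
    smul_sub, smul_zero]
  module

private theorem rotM_transpose (e1 e2 : E d) (φ : ℝ) :
    (rotM e1 e2 φ)ᵀ = rotM e1 e2 (-φ) := by
  unfold rotM
  rw [Real.cos_neg, Real.sin_neg]
  simp only [transpose_add, transpose_sub, transpose_smul, transpose_one, transpose_vecMulVec]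
  module

private theorem rotM_zero (e1 e2 : E d) : rotM e1 e2 0 = 1 := by
  unfold rotM
  simp

private theorem rotM_orth {e1 e2 : E d} (h1 : ‖e1‖ = 1) (h2 : ‖e2‖ = 1)
    (h12 : inner ℝ e1 e2 = 0) (φ : ℝ) :
    rotM e1 e2 φ ∈ Matrix.orthogonalGroup (Fin d) ℝ := by
  rw [mem_orthogonalGroup_iff, rotM_transpose, rotM_mul h1 h2 h12, add_neg_cancel, rotM_zero]

theorem rotM_mem {e1 e2 : E d} (h1 : ‖e1‖ = 1) (h2 : ‖e2‖ = 1) (h12 : inner ℝ e1 e2 = 0)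
    (φ : ℝ) : rotM e1 e2 φ ∈ Matrix.specialOrthogonalGroup (Fin d) ℝ := by
  rw [mem_specialOrthogonalGroup_iff]
  refine ⟨rotM_orth h1 h2 h12 φ, ?_⟩
  have h3 := rotM_orth h1 h2 h12 (φ / 2)
  rw [mem_orthogonalGroup_iff] at h3
  have h4 := congrArg Matrix.det h3
  rw [Matrix.det_mul, Matrix.det_transpose, Matrix.det_one] at h4
  have h5 : rotM e1 e2 φ = rotM e1 e2 (φ / 2) * rotM e1 e2 (φ / 2) := by
    rw [rotM_mul h1 h2 h12, add_halves]
  rw [h5, Matrix.det_mul, h4]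

/-- the rotations in a plane, as a continuous family -/
theorem exists_rot_family {e1 e2 : E d} (h1 : ‖e1‖ = 1) (h2 : ‖e2‖ = 1)
    (h12 : inner ℝ e1 e2 = 0) :
    ∃ q : ℝ → SO d, Continuous q ∧
      (∀ φ, act (q φ) e1 = Real.cos φ • e1 + Real.sin φ • e2) ∧
      ∀ φ, act (q φ) e2 = -Real.sin φ • e1 + Real.cos φ • e2 := by
  obtain ⟨d1, d2, d3, d4⟩ := dots h1 h2 h12
  refine ⟨fun φ => ⟨rotM e1 e2 φ, rotM_mem h1 h2 h12 φ⟩, ?_, fun φ => ?_, fun φ => ?_⟩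
  · refine Continuous.subtype_mk ?_ _
    unfold rotM
    exact ((continuous_const).add ((Real.continuous_cos.sub continuous_const).smul
      continuous_const)).add (Real.continuous_sin.smul continuous_const)
  · unfold act rotM
    ext i
    simp only [add_mulVec, sub_mulVec, smul_mulVec, one_mulVec, vecMulVec_mulVec, d1, d4,
      MulOpposite.op_one, MulOpposite.op_zero, one_smul, zero_smul, PiLp.add_apply,
      PiLp.smul_apply, Pi.add_apply, Pi.sub_apply, Pi.smul_apply, Pi.zero_apply, smul_eq_mul]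
    ring
  · unfold act rotM
    ext i
    simp only [add_mulVec, sub_mulVec, smul_mulVec, one_mulVec, vecMulVec_mulVec, d2, d3,
      MulOpposite.op_one, MulOpposite.op_zero, one_smul, zero_smul, PiLp.add_apply,
      PiLp.smul_apply, Pi.add_apply, Pi.sub_apply, Pi.smul_apply, Pi.zero_apply, smul_eq_mul]
    ring

end Pool.Agent.RRMG
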