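import Pool.Agent.RRMG.Inv
import Pool.Agent.RRMG.Rot

/-!
# Averages of functions of two vectors over the rotation group

`avg_plane`: `F : ℝ → ℝ → ℝ` continuous and homogeneous of degree two
(`F (c s) (c t) = c² F s t` for all real `c`).  Then the average over `R ∈ SO d` of `∑_l F ((R x)_l, (R y)_l)` is
`(1 / π) ∫_0^{2π} F (‖x‖ cos φ, ‖y‖ cos (φ - θ)) dφ`, `θ` the angle between `x` and `y`.

PROOF.  `d = 0`: both sides are `0`.  `d = 1`: every `R ∈ SO 1` is `1`,
and `y = ± (‖y‖/‖x‖) x` etc.;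
`θ ∈ {0, π}` (if `x` or `y` is `0` the angle is `π / 2`, but then `F s 0 = s² F 1 0`,
`∫ cos² = π`).  It may be convenient to treat the case `x = 0` or `y = 0` first for all `d` (with
orthonormal `e1, e2` or directly), or to prove the theorem with orthonormal vectors:
let `x = ‖x‖ e1`, `y = ‖y‖ (cos θ e1 + sin θ e2)` with `e1, e2` orthonormal (`d ≥ 2`).
Let `q φ` be the rotation of the plane (`exists_rot_family`).  By `right_inv`
`∫_R ∑_l F ((R q(φ) x)_l, (R q(φ) y)_l) = ∫_R ∑_l F ((R x)_l, (R y)_l)` for every `φ`; average over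
`φ ∈ [0, 2π]` and exchange the integrals (continuous bounded functions; `|F s t| ≤ C (s² + t²)`).
For fixed `R, l` let `a = (R e1)_l`, `b = (R e2)_l`.
Then `(R q(φ) x)_l = ‖x‖ (a cos φ + b sin φ)` and
`(R q(φ) y)_l = ‖y‖ (a cos (φ + θ) + b sin (φ + θ))`.  Write `a = ρ cos ψ`, `b = ρ sin ψ`:
these are `‖x‖ ρ cos (φ - ψ)` and `‖y‖ ρ cos (φ + θ - ψ)`, so by homogeneity and periodicity
(`Function.Periodic.intervalIntegral_add_eq`) the integral over `φ ∈ [0, 2π]` is
`ρ² ∫_0^{2π} F (‖x‖ cos φ, ‖y‖ cos (φ + θ)) dφ` (and `φ → -φ` gives `cos (φ - θ)`).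
`∑_l ρ_l² = ‖R e1‖² + ‖R e2‖² = 2`.
-/

set_option autoImplicit false

noncomputable section

namespace Pool.Agent.RRMG

open MeasureTheory Matrix Pool.Agent.RRM Real

variable {d : ℕ}

private theorem bnd_Plane {F : ℝ → ℝ → ℝ} (hF : Continuous fun p : ℝ × ℝ => F p.1 p.2)
    (A B : ℝ) : ∃ C, ∀ s t, |s| ≤ A → |t| ≤ B → |F s t| ≤ C := by
  have hc : IsCompact (Set.Icc (-A) A ×ˢ Set.Icc (-B) B) := isCompact_Icc.prod isCompact_Icc
  obtain ⟨C, hC⟩ := hc.exists_bound_of_continuousOn hF.continuousOn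
  refine ⟨C, fun s t hs ht => ?_⟩
  exact hC (s, t) ⟨abs_le.1 hs, abs_le.1 ht⟩

private theorem coord_le_Plane (v : E d) (l : Fin d) : |v l| ≤ ‖v‖ := by
  have := PiLp.norm_apply_le v l
  rwa [Real.norm_eq_abs] at this

private theorem act_add_Plane (R : SO d) (x y : E d) : act R (x + y) = act R x + act R y := by
  unfold act
  rw [WithLp.ofLp_add, Matrix.mulVec_add, WithLp.toLp_add]

private theorem int_Plane {F : ℝ → ℝ → ℝ}
    (hom : ∀ c s t : ℝ, F (c * s) (c * t) = c ^ 2 * F s t) (a b θ A B : ℝ) :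
    ∫ φ in (0 : ℝ)..(2 * π), F (a * (cos φ * A + sin φ * B))
        (b * (cos (φ + θ) * A + sin (φ + θ) * B)) =
      (A ^ 2 + B ^ 2) * ∫ φ in (0 : ℝ)..(2 * π), F (a * cos φ) (b * cos (φ - θ)) := by
  obtain ⟨ρ, ψ, hA, hB, hρ⟩ : ∃ ρ ψ : ℝ, A = ρ * cos ψ ∧ B = ρ * sin ψ ∧
      A ^ 2 + B ^ 2 = ρ ^ 2 := by
    refine ⟨‖(⟨A, B⟩ : ℂ)‖, Complex.arg ⟨A, B⟩, ?_, ?_, ?_⟩
    · exact (Complex.norm_mul_cos_arg ⟨A, B⟩).symm
    · exact (Complex.norm_mul_sin_arg ⟨A, B⟩).symm
    · rw [Complex.sq_norm, Complex.normSq_mk]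
      ring
  set g : ℝ → ℝ := fun φ => F (a * cos φ) (b * cos (φ + θ)) with hg
  have hper : Function.Periodic g (2 * π) := by
    intro φ
    simp only [hg]
    rw [cos_add_two_pi, show φ + 2 * π + θ = φ + θ + 2 * π by ring, cos_add_two_pi]
  have h1 : ∀ φ : ℝ, F (a * (cos φ * A + sin φ * B))
      (b * (cos (φ + θ) * A + sin (φ + θ) * B)) = ρ ^ 2 * g (φ - ψ) := by
    intro φ
    simp only [hg]
    rw [← hom ρ]
    congr 1
    · rw [hA, hB, cos_sub]
      ring
    · rw [hA, hB, show φ - ψ + θ = φ + θ - ψ by ring, cos_sub]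
      ring
  have h2 : ∀ φ : ℝ, F (a * cos φ) (b * cos (φ - θ)) = g (-φ) := by
    intro φ
    simp only [hg]
    rw [cos_neg, show -φ + θ = -(φ - θ) by ring, cos_neg]
  simp only [h1, h2]
  rw [intervalIntegral.integral_const_mul, hρ]
  congr 1
  rw [intervalIntegral.integral_comp_sub_right (fun x => g x) ψ,
    intervalIntegral.integral_comp_neg (fun x => g x)]
  have e1 := hper.intervalIntegral_add_eq (0 - ψ) 0
  have e2 := hper.intervalIntegral_add_eq (-(2 * π)) 0
  rw [show 0 - ψ + 2 * π = 2 * π - ψ by ring] at e1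
  rw [show -(2 * π) + 2 * π = 0 by ring] at e2
  rw [e1, neg_zero, e2]

/-- the version with orthonormal vectors -/
theorem avg_plane_onb [MeasurableSpace (SO d)] [BorelSpace (SO d)] (μ : Measure (SO d))
    [IsProbabilityMeasure μ] (hμ : ∀ Q : SO d, μ.map (fun R => Q * R) = μ) {F : ℝ → ℝ → ℝ}
    (hF : Continuous fun p : ℝ × ℝ => F p.1 p.2)
    (hom : ∀ c s t : ℝ, F (c * s) (c * t) = c ^ 2 * F s t) {e1 e2 : E d} (h1 : ‖e1‖ = 1)
    (h2 : ‖e2‖ = 1) (h12 : inner ℝ e1 e2 = 0) (a b θ : ℝ) :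
    ∫ R, ∑ l, F ((act R (a • e1)) l) ((act R (b • (cos θ • e1 + sin θ • e2))) l) ∂μ =
      1 / π * ∫ φ in (0 : ℝ)..(2 * π), F (a * cos φ) (b * cos (φ - θ)) := by
  obtain ⟨q, hqc, hq1, hq2⟩ := exists_rot_family h1 h2 h12
  set x : E d := a • e1 with hx
  set y : E d := b • (cos θ • e1 + sin θ • e2) with hy
  set G : SO d → ℝ := fun R => ∑ l, F ((act R x) l) ((act R y) l) with hG
  have hGc : Continuous G := by
    refine continuous_finsetSum _ fun l _ => ?_
    exact hF.comp ((((PiLp.continuous_apply 2 _ l).comp (continuous_act x))).prodMk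
      ((PiLp.continuous_apply 2 _ l).comp (continuous_act y)))
  obtain ⟨C, hC⟩ := bnd_Plane hF ‖x‖ ‖y‖
  have hGb : ∀ R, |G R| ≤ ∑ _l : Fin d, C := by
    intro R
    refine (Finset.abs_sum_le_sum_abs _ _).trans (Finset.sum_le_sum fun l _ => ?_)
    refine hC _ _ ?_ ?_
    · exact (coord_le_Plane _ l).trans_eq (norm_act R x)
    · exact (coord_le_Plane _ l).trans_eq (norm_act R y)
  have hinv : ∀ φ : ℝ, ∫ R, G (R * q φ) ∂μ = ∫ R, G R ∂μ := fun φ =>
    right_inv μ hμ hGc hGb (q φ)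
  have h2pi : (0 : ℝ) ≤ 2 * π := by positivity
  have hsw : ∫ φ in (0 : ℝ)..(2 * π), ∫ R, G (R * q φ) ∂μ =
      ∫ R, (∫ φ in (0 : ℝ)..(2 * π), G (R * q φ)) ∂μ := by
    simp only [intervalIntegral.integral_of_le h2pi]
    refine integral_integral_swap (f := fun (φ : ℝ) (R : SO d) => G (R * q φ)) ?_
    have hc2 : Continuous (Function.uncurry fun (φ : ℝ) (R : SO d) => G (R * q φ)) :=
      hGc.comp (continuous_snd.mul (hqc.comp continuous_fst))
    refine (integrable_const (∑ _l : Fin d, C)).mono' hc2.aestronglyMeasurable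
      (Filter.Eventually.of_forall fun p => ?_)
    rw [Real.norm_eq_abs]
    exact hGb _
  have hfix : ∀ R : SO d, ∫ φ in (0 : ℝ)..(2 * π), G (R * q φ) =
      2 * ∫ φ in (0 : ℝ)..(2 * π), F (a * cos φ) (b * cos (φ - θ)) := by
    intro R
    have e1' : ∀ φ : ℝ, G (R * q φ) = ∑ l, F (a * (cos φ * (act R e1) l + sin φ * (act R e2) l))
        (b * (cos (φ + θ) * (act R e1) l + sin (φ + θ) * (act R e2) l)) := by
      intro φ
      have hx2 : act (q φ) x = a • (cos φ • e1 + sin φ • e2) := by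
        rw [hx, act_smul, hq1]
      have hy2 : act (q φ) y = b • (cos (φ + θ) • e1 + sin (φ + θ) • e2) := by
        rw [hy, act_smul, act_add_Plane, act_smul, act_smul, hq1, hq2, cos_add, sin_add]
        module
      simp only [hG]
      refine Finset.sum_congr rfl fun l _ => ?_
      rw [act_mul, act_mul, hx2, hy2, act_smul, act_smul, act_add_Plane, act_add_Plane,
        act_smul, act_smul, act_smul, act_smul]
      simp only [PiLp.smul_apply, PiLp.add_apply, smul_eq_mul]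
    simp only [e1']
    rw [intervalIntegral.integral_finsetSum]
    · simp only [int_Plane hom]
      rw [← Finset.sum_mul]
      congr 1
      rw [Finset.sum_add_distrib, ← EuclideanSpace.real_norm_sq_eq,
        ← EuclideanSpace.real_norm_sq_eq, norm_act, norm_act, h1, h2]
      norm_num
    · intro l _
      refine Continuous.intervalIntegrable ?_ _ _
      refine hF.comp (Continuous.prodMk ?_ ?_) <;> fun_prop
  have hfin : ∫ φ in (0 : ℝ)..(2 * π), ∫ R, G (R * q φ) ∂μ = 2 * π * ∫ R, G R ∂μ := by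
    simp only [hinv]
    rw [intervalIntegral.integral_const]
    simp
  rw [hsw] at hfin
  simp only [hfix] at hfin
  rw [integral_const] at hfin
  simp only [probReal_univ, one_smul] at hfin
  have hpi : (π : ℝ) ≠ 0 := pi_ne_zero
  have h6 : ∫ φ in (0 : ℝ)..(2 * π), F (a * cos φ) (b * cos (φ - θ)) = π * ∫ R, G R ∂μ := by
    linarith
  rw [h6, one_div, ← mul_assoc, inv_mul_cancel₀ hpi, one_mul]

private theorem int_cos_sq_Plane (θ : ℝ) :
    ∫ φ in (0 : ℝ)..(2 * π), cos (φ - θ) ^ 2 = π := by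
  rw [intervalIntegral.integral_comp_sub_right (fun x => cos x ^ 2) θ]
  rw [integral_cos_sq]
  rw [show 2 * π - θ = -θ + 2 * π by ring, cos_add_two_pi, sin_add_two_pi, zero_sub]
  ring

theorem avg_plane [MeasurableSpace (SO d)] [BorelSpace (SO d)] (μ : Measure (SO d))
    [IsProbabilityMeasure μ] (hμ : ∀ Q : SO d, μ.map (fun R => Q * R) = μ) {F : ℝ → ℝ → ℝ}
    (hF : Continuous fun p : ℝ × ℝ => F p.1 p.2)
    (hom : ∀ c s t : ℝ, F (c * s) (c * t) = c ^ 2 * F s t) (x y : E d) :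
    ∫ R, ∑ l, F ((act R x) l) ((act R y) l) ∂μ = 1 / π * ∫ φ in (0 : ℝ)..(2 * π),
      F (‖x‖ * cos φ) (‖y‖ * cos (φ - InnerProductGeometry.angle x y)) := by
  by_cases hx : x = 0
  · subst hx
    have e1 : ∀ t : ℝ, F 0 t = t ^ 2 * F 0 1 := by
      intro t
      have := hom t 0 1
      rwa [mul_zero, mul_one] at this
    have e2 : ∀ R : SO d, ∑ l, F ((act R (0 : E d)) l) ((act R y) l) = ‖y‖ ^ 2 * F 0 1 := by
      intro R
      have e3 : act R (0 : E d) = 0 := by
        have := act_smul R 0 (0 : E d)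
        simpa using this
      rw [e3]
      simp only [PiLp.zero_apply, e1 ((act R y) _)]
      rw [← Finset.sum_mul, ← EuclideanSpace.real_norm_sq_eq, norm_act]
    simp only [e2, norm_zero, zero_mul]
    rw [integral_const]
    simp only [probReal_univ, one_smul]
    have e4 : ∀ φ : ℝ, F 0 (‖y‖ * cos (φ - InnerProductGeometry.angle (0 : E d) y)) =
        ‖y‖ ^ 2 * F 0 1 * cos (φ - InnerProductGeometry.angle (0 : E d) y) ^ 2 := by
      intro φ
      rw [e1]
      ring
    simp only [e4]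
    rw [intervalIntegral.integral_const_mul, int_cos_sq_Plane]
    have hpi : (π : ℝ) ≠ 0 := pi_ne_zero
    field_simp
  by_cases hpar : ∃ c : ℝ, y = c • x
  · obtain ⟨c, rfl⟩ := hpar
    have e1 : ∀ t : ℝ, F t (c * t) = t ^ 2 * F 1 c := by
      intro t
      have := hom t 1 c
      rwa [mul_one, mul_comm t c] at this
    have e2 : ∀ R : SO d, ∑ l, F ((act R x) l) ((act R (c • x)) l) = ‖x‖ ^ 2 * F 1 c := by
      intro R
      rw [act_smul]
      simp only [PiLp.smul_apply, smul_eq_mul, e1 ((act R x) _)]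
      rw [← Finset.sum_mul, ← EuclideanSpace.real_norm_sq_eq, norm_act]
    simp only [e2]
    rw [integral_const]
    simp only [probReal_univ, one_smul]
    have e5 : ∀ φ : ℝ, ‖c • x‖ * cos (φ - InnerProductGeometry.angle x (c • x)) =
        c * (‖x‖ * cos φ) := by
      intro φ
      rw [norm_smul, Real.norm_eq_abs]
      rcases lt_trichotomy c 0 with hc | hc | hc
      · rw [InnerProductGeometry.angle_smul_right_of_neg _ _ hc,
          InnerProductGeometry.angle_self_neg_of_nonzero hx, abs_of_neg hc, cos_sub_pi]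
        ring
      · subst hc
        simp
      · rw [InnerProductGeometry.angle_smul_right_of_pos _ _ hc,
          InnerProductGeometry.angle_self hx, abs_of_pos hc, sub_zero]
        ring
    have e4 : ∀ φ : ℝ, F (‖x‖ * cos φ)
        (‖c • x‖ * cos (φ - InnerProductGeometry.angle x (c • x))) =
        ‖x‖ ^ 2 * F 1 c * cos (φ - 0) ^ 2 := by
      intro φ
      rw [e5, e1, sub_zero]
      ring
    simp only [e4]
    rw [intervalIntegral.integral_const_mul, int_cos_sq_Plane]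
    have hpi : (π : ℝ) ≠ 0 := pi_ne_zero
    field_simp
  · have hnx : ‖x‖ ≠ 0 := norm_ne_zero_iff.2 hx
    have hy : y ≠ 0 := by
      rintro rfl
      exact hpar ⟨0, by simp⟩
    set θ := InnerProductGeometry.angle x y with hθ
    obtain ⟨e1, he1⟩ : ∃ e1 : E d, e1 = ‖x‖⁻¹ • x := ⟨_, rfl⟩
    have hn1 : ‖e1‖ = 1 := by
      rw [he1, norm_smul, norm_inv, norm_norm]
      field_simp
    have hxe : x = ‖x‖ • e1 := by
      rw [he1, smul_smul, mul_inv_cancel₀ hnx, one_smul]
    have hin : inner ℝ e1 y = ‖y‖ * cos θ := by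
      have := InnerProductGeometry.cos_angle_mul_norm_mul_norm x y
      rw [he1, real_inner_smul_left, ← this, ← hθ]
      field_simp
    obtain ⟨v, hv⟩ : ∃ v : E d, v = y - (‖y‖ * cos θ) • e1 := ⟨_, rfl⟩
    have hv0 : v ≠ 0 := by
      intro h0
      refine hpar ⟨‖y‖ * cos θ * ‖x‖⁻¹, ?_⟩
      rw [hv] at h0
      have h5 : y = (‖y‖ * cos θ) • e1 := sub_eq_zero.1 h0
      rw [he1, smul_smul] at h5
      exact h5
    have hnv : ‖v‖ = ‖y‖ * sin θ := by
      have hs : 0 ≤ ‖y‖ * sin θ :=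
        mul_nonneg (norm_nonneg _) (InnerProductGeometry.sin_angle_nonneg x y)
      have h3 : ‖v‖ ^ 2 = (‖y‖ * sin θ) ^ 2 := by
        rw [hv, @norm_sub_sq_real, real_inner_smul_right, norm_smul, hn1, real_inner_comm, hin]
        have := sin_sq_add_cos_sq θ
        rw [Real.norm_eq_abs, mul_one, sq_abs]
        nlinarith
      exact (pow_left_inj₀ (norm_nonneg _) hs two_ne_zero).1 h3
    have hnv0 : ‖v‖ ≠ 0 := norm_ne_zero_iff.2 hv0
    obtain ⟨e2, he2⟩ : ∃ e2 : E d, e2 = ‖v‖⁻¹ • v := ⟨_, rfl⟩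
    have hn2 : ‖e2‖ = 1 := by
      rw [he2, norm_smul, norm_inv, norm_norm]
      field_simp
    have h12 : inner ℝ e1 e2 = 0 := by
      rw [he2, real_inner_smul_right, hv, inner_sub_right, real_inner_smul_right,
        real_inner_self_eq_norm_sq, hn1, hin]
      ring
    have hye : y = ‖y‖ • (cos θ • e1 + sin θ • e2) := by
      have h4 : ‖v‖ • e2 = v := by
        rw [he2, smul_smul, mul_inv_cancel₀ hnv0, one_smul]
      rw [smul_add, smul_smul, smul_smul, ← hnv, h4, hv]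
      abel
    have := avg_plane_onb μ hμ hF hom hn1 hn2 h12 ‖x‖ ‖y‖ θ
    rw [← hxe, ← hye] at this
    exact this

end Pool.Agent.RRMG
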