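import Pool.Agent.RRMG.Tail
import Pool.Agent.RRMG.FrameG
import Pool.Agent.RRMG.Plane
import Pool.Agent.RRMG.IntF

/-!
# The bound in all dimensions
-/

set_option autoImplicit false

noncomputable section

namespace Pool.Agent.RRMG

open MeasureTheory Matrix Pool.Agent.RRM Real

variable {d n : ℕ}

instance compactSO : CompactSpace (SO d) := by
  have hc : IsCompact ({A : Matrix (Fin d) (Fin d) ℝ |
      A ∈ Matrix.specialOrthogonalGroup (Fin d) ℝ} : Set (Matrix (Fin d) (Fin d) ℝ)) := by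
    have hb : IsCompact (Set.pi Set.univ fun _ : Fin d => Set.pi Set.univ fun _ : Fin d =>
        Set.Icc (-1 : ℝ) 1) :=
      isCompact_univ_pi fun _ => isCompact_univ_pi fun _ => isCompact_Icc
    refine IsCompact.of_isClosed_subset hb ?_ ?_
    · have e : {A : Matrix (Fin d) (Fin d) ℝ | A ∈ Matrix.specialOrthogonalGroup (Fin d) ℝ} =
          {A : Matrix (Fin d) (Fin d) ℝ | A * Aᵀ = 1} ∩
            {A : Matrix (Fin d) (Fin d) ℝ | A.det = 1} := by
        ext A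
        simp only [Set.mem_ofPred_eq, Set.mem_inter_iff, Matrix.mem_specialOrthogonalGroup_iff,
          Matrix.mem_orthogonalGroup_iff]
      rw [e]
      refine IsClosed.inter ?_ ?_
      · exact isClosed_eq (continuous_id.matrix_mul continuous_id.matrix_transpose)
          continuous_const
      · exact isClosed_eq continuous_id.matrix_det continuous_const
    · intro A hA i _ j _
      have h1 := entry_norm_bound_of_unitary
        ((Matrix.mem_specialOrthogonalGroup_iff.1 hA).1) i j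
      rw [Real.norm_eq_abs, abs_le] at h1
      exact h1
  exact isCompact_iff_compactSpace.1 hc

section

variable [MeasurableSpace (SO d)] [BorelSpace (SO d)] (μ : Measure (SO d))
  [IsProbabilityMeasure μ]

theorem int_cont {f : SO d → ℝ} (hf : Continuous f) : Integrable f μ := by
  obtain ⟨C, hC⟩ := isCompact_univ.exists_bound_of_continuousOn hf.continuousOn
  exact Integrable.of_bound hf.aestronglyMeasurable C
    (Filter.Eventually.of_forall fun R => hC R (Set.mem_univ R))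

theorem int_lin {m : ℕ} (f : Fin m → SO d → ℝ) (hf : ∀ i, Continuous (f i)) (c : Fin m → ℝ)
    (c0 : ℝ) : ∫ R, (∑ i, c i * f i R) + c0 ∂μ = (∑ i, c i * ∫ R, f i R ∂μ) + c0 := by
  rw [integral_add]
  · rw [integral_finsetSum]
    · simp only [integral_const_mul, integral_const, smul_eq_mul, probReal_univ, one_mul]
    · exact fun i _ => (int_cont μ (hf i)).const_mul _
  · exact integrable_finsetSum _ fun i _ => (int_cont μ (hf i)).const_mul _
  · exact integrable_const _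

theorem int_lin_le {m : ℕ} {G : SO d → ℝ} (hG : Continuous G) (f : Fin m → SO d → ℝ)
    (hf : ∀ i, Continuous (f i)) (c : Fin m → ℝ) (c0 : ℝ)
    (h : ∀ R, G R ≤ (∑ i, c i * f i R) + c0) :
    ∫ R, G R ∂μ ≤ (∑ i, c i * ∫ R, f i R ∂μ) + c0 := by
  rw [← int_lin μ f hf c c0]
  have hc : Continuous fun R => (∑ i, c i * f i R) + c0 :=
    (continuous_finsetSum _ fun i _ => continuous_const.mul (hf i)).add continuous_const
  exact integral_mono (int_cont μ hG) (int_cont μ hc) h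

end

/-- the median in the rotated frame -/
def Mm (x : Fin (n + 1) → E d) (R : SO d) : E d := cwm fun i => act R (x i)

theorem continuous_Mm (x : Fin (n + 1) → E d) : Continuous (Mm x) := by
  unfold Mm cwm
  refine (PiLp.continuous_toLp 2 _).comp (continuous_pi fun j => ?_)
  refine continuous_med.comp (continuous_pi fun i => ?_)
  exact (PiLp.continuous_apply 2 _ j).comp (continuous_act (x i))

/-- the scalar product of a rotated point and the median -/
def ip (x : Fin (n + 1) → E d) (i : Fin (n + 1)) (R : SO d) : ℝ :=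
  ∑ l, (act R (x i)) l * (Mm x R) l

theorem continuous_coord (x : E d) (l : Fin d) : Continuous fun R : SO d => (act R x) l :=
  (PiLp.continuous_apply 2 _ l).comp (continuous_act x)

theorem continuous_Mml (x : Fin (n + 1) → E d) (l : Fin d) :
    Continuous fun R : SO d => (Mm x R) l :=
  (PiLp.continuous_apply 2 _ l).comp (continuous_Mm x)

theorem continuous_ip (x : Fin (n + 1) → E d) (i : Fin (n + 1)) : Continuous (ip x i) := by
  unfold ip
  exact continuous_finsetSum _ fun l _ => (continuous_coord _ l).mul (continuous_Mml x l)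

theorem sum_sq (v : E d) : ∑ l, v l ^ 2 = ‖v‖ ^ 2 := (EuclideanSpace.real_norm_sq_eq v).symm

theorem sum_abs_le (u v : E d) : ∑ l, |u l * v l| ≤ ‖u‖ * ‖v‖ := by
  have h := Finset.sum_mul_sq_le_sq_mul_sq (Finset.univ : Finset (Fin d)) (fun l => |u l|)
    fun l => |v l|
  simp only [sq_abs, sum_sq] at h
  have e : ∑ l, |u l * v l| = ∑ l, |u l| * |v l| := by simp only [abs_mul]
  rw [e]
  refine abs_le_of_sq_le_sq' (a := ∑ l, |u l| * |v l|) (b := ‖u‖ * ‖v‖) ?_ (by positivity) |>.2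
  rw [mul_pow]
  exact h

theorem ip_abs (x : Fin (n + 1) → E d) (i : Fin (n + 1)) (R : SO d) :
    |ip x i R| ≤ ‖x i‖ * ‖Mm x R‖ := by
  unfold ip
  refine (Finset.abs_sum_le_sum_abs _ _).trans ?_
  have := sum_abs_le (act R (x i)) (Mm x R)
  rwa [norm_act] at this

theorem norm_sub_sq' (x : Fin (n + 1) → E d) (i : Fin (n + 1)) (R : SO d) :
    ‖act R (x i) - Mm x R‖ ^ 2 = ‖x i‖ ^ 2 - 2 * ip x i R + ‖Mm x R‖ ^ 2 := by
  rw [← sum_sq, ← norm_act R (x i), ← sum_sq, ← sum_sq]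
  unfold ip
  rw [Finset.mul_sum, ← Finset.sum_sub_distrib, ← Finset.sum_add_distrib]
  refine Finset.sum_congr rfl fun l _ => ?_
  rw [PiLp.sub_apply]
  ring

/-- the sum of the test functions over the coordinates -/
theorem sum_Qf_le (x : Fin (n + 1) → E d) (j k : Fin (n + 1)) (R : SO d) {M : Mult} {f : ℝ}
    (hM : M.Ok f) :
    ∑ l, Qf M ((Mm x R) l) ((act R (x j)) l) ((act R (x k)) l) ≤
      (M.la + M.w * ((1 - M.vj) ^ 2 + (1 - M.vk) ^ 2)) * ‖Mm x R‖ ^ 2 +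
        M.la * (∑ l, mu ((act R (x j)) l) ((act R (x k)) l)) +
        M.al * (∑ l, ng ((act R (x j)) l) ((act R (x k)) l)) +
        (2 * M.w * M.vj * (1 - M.vj) + M.b1 - M.b2 / 2) * ip x j R +
        (2 * M.w * M.vk * (1 - M.vk) + M.b1 - M.b2 / 2) * ip x k R +
        M.b2 * (‖x j‖ + ‖x k‖) / 2 * ‖Mm x R‖ +
        M.w * (M.vj ^ 2 * ‖x j‖ ^ 2 + M.vk ^ 2 * ‖x k‖ ^ 2) := by
  have a1 := sum_abs_le (act R (x j)) (Mm x R)
  have a2 := sum_abs_le (act R (x k)) (Mm x R)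
  rw [norm_act] at a1 a2
  have e : ∑ l, Qf M ((Mm x R) l) ((act R (x j)) l) ((act R (x k)) l) =
      (M.la + M.w * ((1 - M.vj) ^ 2 + (1 - M.vk) ^ 2)) * (∑ l, (Mm x R) l ^ 2) +
        M.la * (∑ l, mu ((act R (x j)) l) ((act R (x k)) l)) +
        M.al * (∑ l, ng ((act R (x j)) l) ((act R (x k)) l)) +
        (2 * M.w * M.vj * (1 - M.vj) + M.b1 - M.b2 / 2) * ip x j R +
        (2 * M.w * M.vk * (1 - M.vk) + M.b1 - M.b2 / 2) * ip x k R +
        M.b2 / 2 * ((∑ l, |(act R (x j)) l * (Mm x R) l|) +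
          ∑ l, |(act R (x k)) l * (Mm x R) l|) +
        M.w * (M.vj ^ 2 * (∑ l, (act R (x j)) l ^ 2) +
          M.vk ^ 2 * (∑ l, (act R (x k)) l ^ 2)) := by
    unfold ip Qf
    simp only [Finset.mul_sum, mul_add, ← Finset.sum_add_distrib]
    refine Finset.sum_congr rfl fun l _ => ?_
    ring
  rw [e, sum_sq, sum_sq, sum_sq, norm_act, norm_act]
  have h := mul_le_mul_of_nonneg_left (add_le_add a1 a2) (div_nonneg hM.b20 two_pos.le)
  have e2 : M.b2 * (‖x j‖ + ‖x k‖) / 2 * ‖Mm x R‖ =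
      M.b2 / 2 * (‖x j‖ * ‖Mm x R‖ + ‖x k‖ * ‖Mm x R‖) := by ring
  rw [e2]
  linarith

/-- the sum of the inequalities in the coordinates -/
theorem frame_sum (x : Fin (n + 1) → E d) (R : SO d) {f : ℝ} (hf : 0 ≤ f)
    (M : Fin (n + 1) → Fin (n + 1) → Mult) (hM : ∀ j k, (M j k).Ok f) :
    2 * ((n + 1 : ℕ) : ℝ) ^ 2 * ‖Mm x R‖ ^ 2 ≤
      ∑ j, ∑ k, ∑ l, Qf (M j k) ((Mm x R) l) ((act R (x j)) l) ((act R (x k)) l) := by
  have h : ∀ l, 2 * ((n + 1 : ℕ) : ℝ) ^ 2 * (Mm x R) l ^ 2 ≤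
      ∑ j, ∑ k, Qf (M j k) ((Mm x R) l) ((act R (x j)) l) ((act R (x k)) l) := fun l =>
    frame_pair (fun i => (act R (x i)) l) _ (card_med_le fun i => (act R (x i)) l)
      (card_le_med fun i => (act R (x i)) l) hf M hM
  rw [← sum_sq, Finset.mul_sum]
  refine (Finset.sum_le_sum fun l _ => h l).trans (le_of_eq ?_)
  rw [Finset.sum_comm]
  refine Finset.sum_congr rfl fun j _ => ?_
  rw [Finset.sum_comm]

theorem amgm {g h s κ : ℝ} (hg : 0 < g) (hgh : 1 ≤ g * h) :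
    2 * (κ * s) ≤ h * κ ^ 2 + g * s ^ 2 := by
  have h1 : 0 ≤ (κ - g * s) ^ 2 := sq_nonneg _
  have h2 : κ ^ 2 ≤ g * h * κ ^ 2 := le_mul_of_one_le_left (sq_nonneg κ) hgh
  have h3 : g * (2 * (κ * s)) ≤ g * (h * κ ^ 2 + g * s ^ 2) := by nlinarith
  exact le_of_mul_le_mul_left h3 hg

section

variable [MeasurableSpace (SO d)] [BorelSpace (SO d)] {μ : Measure (SO d)}
  [IsProbabilityMeasure μ]

theorem pair_bound (hμ : ∀ Q : SO d, μ.map (fun R => Q * R) = μ) (x : Fin (n + 1) → E d)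
    {κ : ℝ} (hκ : 0 < κ) (hκ2 : ∫ R, ‖Mm x R‖ ^ 2 ∂μ = κ ^ 2) (j k : Fin (n + 1)) :
    ∃ M : Mult, M.Ok (1 / 5) ∧
      ∫ R, ∑ l, Qf M ((Mm x R) l) ((act R (x j)) l) ((act R (x k)) l) ∂μ +
        κ * (∫ R, ‖act R (x j) - Mm x R‖ ∂μ + ∫ R, ‖act R (x k) - Mm x R‖ ∂μ) ≤
      2 * κ ^ 2 + 61 / 40 * κ * (‖x j‖ + ‖x k‖) := by
  set θ := InnerProductGeometry.angle (x j) (x k) with hθ
  have t0 : 0 ≤ θ := InnerProductGeometry.angle_nonneg _ _
  have t1 : θ ≤ π := InnerProductGeometry.angle_le_pi _ _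
  obtain ⟨M, gj, hj, gk, hk, hM, hgj, hgk, hhj, hhk, hG⟩ :=
    good_all (rj := ‖x j‖ / κ) (rk := ‖x k‖ / κ) (by positivity) (by positivity) t0 t1
  refine ⟨M, hM, ?_⟩
  have cM : Continuous fun R : SO d => ‖Mm x R‖ := (continuous_Mm x).norm
  have cmu : Continuous fun R : SO d => ∑ l, mu ((act R (x j)) l) ((act R (x k)) l) :=
    continuous_finsetSum _ fun l _ => continuous_mu.comp
      ((continuous_coord (x j) l).prodMk (continuous_coord (x k) l))
  have cng : Continuous fun R : SO d => ∑ l, ng ((act R (x j)) l) ((act R (x k)) l) :=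
    continuous_finsetSum _ fun l _ => continuous_ng.comp
      ((continuous_coord (x j) l).prodMk (continuous_coord (x k) l))
  have cQ : Continuous fun R : SO d =>
      ∑ l, Qf M ((Mm x R) l) ((act R (x j)) l) ((act R (x k)) l) := by
    refine continuous_finsetSum _ fun l _ => ?_
    have c1 := continuous_Mml x l
    have c2 := continuous_coord (x j) l
    have c3 := continuous_coord (x k) l
    have c4 : Continuous fun R : SO d => mu ((act R (x j)) l) ((act R (x k)) l) :=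
      continuous_mu.comp (c2.prodMk c3)
    have c5 : Continuous fun R : SO d => ng ((act R (x j)) l) ((act R (x k)) l) :=
      continuous_ng.comp (c2.prodMk c3)
    unfold Qf
    fun_prop
  -- the mean of the norm of the median
  have cM2 : Continuous fun R : SO d => ‖Mm x R‖ ^ 2 := cM.pow 2
  have hK1 : ∫ R, ‖Mm x R‖ ∂μ ≤ κ := by
    have c1 : Continuous fun R : SO d => 2 * κ * ‖Mm x R‖ := continuous_const.mul cM
    have h2 := int_lin_le μ c1 (fun _ : Fin 1 => fun R => ‖Mm x R‖ ^ 2) (fun _ => cM2)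
      (fun _ => 1) (κ ^ 2) (fun R => by
        simp only [Fin.sum_univ_one, one_mul]
        nlinarith [sq_nonneg (‖Mm x R‖ - κ)])
    rw [integral_const_mul] at h2
    simp only [Fin.sum_univ_one, one_mul] at h2
    rw [hκ2] at h2
    have h4 : κ * (2 * ∫ R, ‖Mm x R‖ ∂μ) ≤ κ * (2 * κ) := by linarith
    have := le_of_mul_le_mul_left h4 hκ
    linarith
  -- the scalar products
  have hp : ∀ i, |∫ R, ip x i R ∂μ| ≤ ‖x i‖ * κ := by
    intro i
    have h1 : |∫ R, ip x i R ∂μ| ≤ ∫ R, |ip x i R| ∂μ := abs_integral_le_integral_abs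
    have h2 : ∫ R, |ip x i R| ∂μ ≤ ∫ R, ‖x i‖ * ‖Mm x R‖ ∂μ :=
      integral_mono (int_cont μ (continuous_ip x i).abs) ((int_cont μ cM).const_mul _)
        (ip_abs x i)
    rw [integral_const_mul] at h2
    exact (h1.trans h2).trans (mul_le_mul_of_nonneg_left hK1 (norm_nonneg _))
  have hpn : ∀ i, |(∫ R, ip x i R ∂μ) / κ ^ 2| ≤ ‖x i‖ / κ := by
    intro i
    rw [abs_div, abs_of_pos (by positivity : 0 < κ ^ 2), div_le_div_iff₀ (by positivity) hκ]
    calc |∫ R, ip x i R ∂μ| * κ ≤ ‖x i‖ * κ * κ := mul_le_mul_of_nonneg_right (hp i) hκ.le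
      _ = ‖x i‖ * κ ^ 2 := by ring
  have hGp := hG _ _ (hpn j) (hpn k)
  -- distances
  have ht : ∀ (i : Fin (n + 1)) {g h : ℝ}, 0 < g → 1 ≤ g * h →
      κ * (2 * ∫ R, ‖act R (x i) - Mm x R‖ ∂μ) ≤
        h * κ ^ 2 + g * (κ ^ 2 - 2 * (∫ R, ip x i R ∂μ) + ‖x i‖ ^ 2) := by
    intro i g h hg hgh
    have cD : Continuous fun R : SO d => ‖act R (x i) - Mm x R‖ :=
      ((continuous_act (x i)).sub (continuous_Mm x)).norm
    have h1 : ∀ R, 2 * κ * ‖act R (x i) - Mm x R‖ ≤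
        (∑ q : Fin 2, (![g, -(2 * g)] : Fin 2 → ℝ) q *
          (![fun R => ‖Mm x R‖ ^ 2, ip x i] : Fin 2 → SO d → ℝ) q R) +
          (h * κ ^ 2 + g * ‖x i‖ ^ 2) := by
      intro R
      have h2 := amgm (s := ‖act R (x i) - Mm x R‖) (κ := κ) hg hgh
      rw [norm_sub_sq'] at h2
      simp only [Fin.sum_univ_two, Matrix.cons_val_zero, Matrix.cons_val_one]
      linarith
    have hf2 : ∀ q, Continuous ((![fun R => ‖Mm x R‖ ^ 2, ip x i] : Fin 2 → SO d → ℝ) q) := by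
      intro q
      fin_cases q
      · exact cM.pow 2
      · exact continuous_ip x i
    have cD2 : Continuous fun R : SO d => 2 * κ * ‖act R (x i) - Mm x R‖ :=
      continuous_const.mul cD
    have h3 := int_lin_le μ cD2 _ hf2 _ _ h1
    rw [integral_const_mul] at h3
    simp only [Fin.sum_univ_two, Matrix.cons_val_zero, Matrix.cons_val_one] at h3
    rw [hκ2] at h3
    linarith
  -- the test function
  have hQ : ∫ R, ∑ l, Qf M ((Mm x R) l) ((act R (x j)) l) ((act R (x k)) l) ∂μ ≤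
      (M.la + M.w * ((1 - M.vj) ^ 2 + (1 - M.vk) ^ 2)) * κ ^ 2 +
        M.la * ((‖x j‖ ^ 2 + ‖x k‖ ^ 2) / 2 * mf θ) + M.al * (‖x j‖ * ‖x k‖ * af θ) +
        (2 * M.w * M.vj * (1 - M.vj) + M.b1 - M.b2 / 2) * (∫ R, ip x j R ∂μ) +
        (2 * M.w * M.vk * (1 - M.vk) + M.b1 - M.b2 / 2) * (∫ R, ip x k R ∂μ) +
        M.b2 * (‖x j‖ + ‖x k‖) / 2 * κ +
        M.w * (M.vj ^ 2 * ‖x j‖ ^ 2 + M.vk ^ 2 * ‖x k‖ ^ 2) := by
    have h1 := fun R : SO d => sum_Qf_le x j k R hM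
    set F : Fin 6 → SO d → ℝ := ![fun R => ‖Mm x R‖ ^ 2,
      fun R => ∑ l, mu ((act R (x j)) l) ((act R (x k)) l),
      fun R => ∑ l, ng ((act R (x j)) l) ((act R (x k)) l), ip x j, ip x k,
      fun R => ‖Mm x R‖] with hF
    set cc : Fin 6 → ℝ := ![M.la + M.w * ((1 - M.vj) ^ 2 + (1 - M.vk) ^ 2), M.la, M.al,
      2 * M.w * M.vj * (1 - M.vj) + M.b1 - M.b2 / 2,
      2 * M.w * M.vk * (1 - M.vk) + M.b1 - M.b2 / 2, M.b2 * (‖x j‖ + ‖x k‖) / 2] with hcc
    have hFc : ∀ q, Continuous (F q) := by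
      intro q
      fin_cases q
      · exact cM.pow 2
      · exact cmu
      · exact cng
      · exact continuous_ip x j
      · exact continuous_ip x k
      · exact cM
    have h2 : ∀ R, ∑ l, Qf M ((Mm x R) l) ((act R (x j)) l) ((act R (x k)) l) ≤
        (∑ q, cc q * F q R) + M.w * (M.vj ^ 2 * ‖x j‖ ^ 2 + M.vk ^ 2 * ‖x k‖ ^ 2) := by
      intro R
      have := h1 R
      simp only [hF, hcc, Fin.sum_univ_six, Matrix.cons_val]
      exact this
    have h3 := int_lin_le μ cQ _ hFc _ _ h2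
    have h4 : ∫ R, ∑ l, mu ((act R (x j)) l) ((act R (x k)) l) ∂μ ≤
        (‖x j‖ ^ 2 + ‖x k‖ ^ 2) / 2 * mf θ := by
      rw [avg_plane μ hμ continuous_mu mu_hom]
      exact int_mu_le (norm_nonneg _) (norm_nonneg _) t0 t1
    have h5 : ∫ R, ∑ l, ng ((act R (x j)) l) ((act R (x k)) l) ∂μ =
        ‖x j‖ * ‖x k‖ * af θ := by
      rw [avg_plane μ hμ continuous_ng ng_hom]
      exact int_ng (norm_nonneg _) (norm_nonneg _) t0 t1
    refine h3.trans ?_
    simp only [hF, hcc, Fin.sum_univ_six, Matrix.cons_val]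
    rw [hκ2, h5]
    have h6 := mul_le_mul_of_nonneg_left h4 hM.la0
    have h7 : M.b2 * (‖x j‖ + ‖x k‖) / 2 * (∫ R, ‖Mm x R‖ ∂μ) ≤
        M.b2 * (‖x j‖ + ‖x k‖) / 2 * κ :=
      mul_le_mul_of_nonneg_left hK1 (div_nonneg (mul_nonneg hM.b20 (by positivity)) two_pos.le)
    linarith
  have htj := ht j hgj hhj
  have htk := ht k hgk hhk
  -- multiply the scalar inequality by `κ²`
  have hS := mul_le_mul_of_nonneg_left hGp (sq_nonneg κ)
  set Pj := ∫ R, ip x j R ∂μ with hPj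
  set Pk := ∫ R, ip x k R ∂μ with hPk
  have e1 : κ ^ 2 * (M.la * (1 + ((‖x j‖ / κ) ^ 2 + (‖x k‖ / κ) ^ 2) / 2 * mf θ) +
      M.al * (‖x j‖ / κ * (‖x k‖ / κ) * af θ) +
      M.w * (((1 - M.vj) ^ 2 + 2 * M.vj * (1 - M.vj) * (Pj / κ ^ 2) +
        M.vj ^ 2 * (‖x j‖ / κ) ^ 2) + ((1 - M.vk) ^ 2 + 2 * M.vk * (1 - M.vk) * (Pk / κ ^ 2) +
        M.vk ^ 2 * (‖x k‖ / κ) ^ 2)) + M.b1 * (Pj / κ ^ 2 + Pk / κ ^ 2) +
      M.b2 * ((‖x j‖ / κ - Pj / κ ^ 2) / 2 + (‖x k‖ / κ - Pk / κ ^ 2) / 2) +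
      (hj + gj * (1 - 2 * (Pj / κ ^ 2) + (‖x j‖ / κ) ^ 2)) / 2 +
      (hk + gk * (1 - 2 * (Pk / κ ^ 2) + (‖x k‖ / κ) ^ 2)) / 2) =
      (M.la + M.w * ((1 - M.vj) ^ 2 + (1 - M.vk) ^ 2)) * κ ^ 2 +
        M.la * ((‖x j‖ ^ 2 + ‖x k‖ ^ 2) / 2 * mf θ) + M.al * (‖x j‖ * ‖x k‖ * af θ) +
        (2 * M.w * M.vj * (1 - M.vj) + M.b1 - M.b2 / 2) * Pj +
        (2 * M.w * M.vk * (1 - M.vk) + M.b1 - M.b2 / 2) * Pk +
        M.b2 * (‖x j‖ + ‖x k‖) / 2 * κ +
        M.w * (M.vj ^ 2 * ‖x j‖ ^ 2 + M.vk ^ 2 * ‖x k‖ ^ 2) +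
        (hj * κ ^ 2 + gj * (κ ^ 2 - 2 * Pj + ‖x j‖ ^ 2)) / 2 +
        (hk * κ ^ 2 + gk * (κ ^ 2 - 2 * Pk + ‖x k‖ ^ 2)) / 2 := by
    field_simp
    ring
  have e2 : κ ^ 2 * (2 + 61 / 40 * (‖x j‖ / κ + ‖x k‖ / κ)) =
      2 * κ ^ 2 + 61 / 40 * κ * (‖x j‖ + ‖x k‖) := by
    field_simp
  rw [e1, e2] at hS
  linarith

theorem sum_bound (hμ : ∀ Q : SO d, μ.map (fun R => Q * R) = μ) (x : Fin (n + 1) → E d) :
    ∑ i, ∫ R, ‖act R (x i) - Mm x R‖ ∂μ ≤ 61 / 40 * ∑ i, ‖x i‖ := by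
  have cM : Continuous fun R : SO d => ‖Mm x R‖ := (continuous_Mm x).norm
  have hK0 : 0 ≤ ∫ R, ‖Mm x R‖ ^ 2 ∂μ := integral_nonneg fun R => sq_nonneg _
  rcases eq_or_lt_of_le hK0 with h0 | h0
  · -- the median is zero almost everywhere
    have h1 : (fun R => ‖Mm x R‖ ^ 2) =ᵐ[μ] 0 :=
      (integral_eq_zero_iff_of_nonneg (fun R => sq_nonneg _) (int_cont μ (cM.pow 2))).1 h0.symm
    have h2 : ∀ i, ∫ R, ‖act R (x i) - Mm x R‖ ∂μ = ‖x i‖ := by
      intro i
      have h3 : ∫ R, ‖act R (x i) - Mm x R‖ ∂μ = ∫ _R, ‖x i‖ ∂μ := by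
        refine integral_congr_ae ?_
        filter_upwards [h1] with R hR
        have h4 : Mm x R = 0 := by
          have : ‖Mm x R‖ ^ 2 = 0 := hR
          exact norm_eq_zero.1 (pow_eq_zero_iff two_ne_zero |>.1 this)
        rw [h4, sub_zero, norm_act]
      rw [h3]
      simp
    simp only [h2]
    have : 0 ≤ ∑ i, ‖x i‖ := Finset.sum_nonneg fun i _ => norm_nonneg _
    linarith
  · set κ := √(∫ R, ‖Mm x R‖ ^ 2 ∂μ) with hκd
    have hκ : 0 < κ := Real.sqrt_pos.2 h0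
    have hκ2 : ∫ R, ‖Mm x R‖ ^ 2 ∂μ = κ ^ 2 := (Real.sq_sqrt hK0).symm
    choose M hM hb using pair_bound hμ x hκ hκ2
    have cQ : ∀ j k, Continuous fun R : SO d =>
        ∑ l, Qf (M j k) ((Mm x R) l) ((act R (x j)) l) ((act R (x k)) l) := by
      intro j k
      refine continuous_finsetSum _ fun l _ => ?_
      have c1 := continuous_Mml x l
      have c2 := continuous_coord (x j) l
      have c3 := continuous_coord (x k) l
      have c4 : Continuous fun R : SO d => mu ((act R (x j)) l) ((act R (x k)) l) :=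
        continuous_mu.comp (c2.prodMk c3)
      have c5 : Continuous fun R : SO d => ng ((act R (x j)) l) ((act R (x k)) l) :=
        continuous_ng.comp (c2.prodMk c3)
      unfold Qf
      fun_prop
    have h1 : 2 * ((n + 1 : ℕ) : ℝ) ^ 2 * κ ^ 2 ≤ ∑ j, ∑ k,
        ∫ R, ∑ l, Qf (M j k) ((Mm x R) l) ((act R (x j)) l) ((act R (x k)) l) ∂μ := by
      have cM2 : Continuous fun R : SO d => 2 * ((n + 1 : ℕ) : ℝ) ^ 2 * ‖Mm x R‖ ^ 2 :=
        continuous_const.mul (cM.pow 2)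
      have cS : Continuous fun R : SO d => ∑ j, ∑ k, ∑ l,
          Qf (M j k) ((Mm x R) l) ((act R (x j)) l) ((act R (x k)) l) :=
        continuous_finsetSum _ fun j _ => continuous_finsetSum _ fun k _ => cQ j k
      have h2 := integral_mono (μ := μ) (int_cont μ cM2) (int_cont μ cS)
        (fun R => frame_sum x R (by norm_num : (0 : ℝ) ≤ 1 / 5) M hM)
      rw [integral_const_mul, hκ2] at h2
      refine h2.trans (le_of_eq ?_)
      rw [integral_finsetSum _ fun j _ => int_cont μ (continuous_finsetSum _ fun k _ => cQ j k)]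
      refine Finset.sum_congr rfl fun j _ => ?_
      rw [integral_finsetSum _ fun k _ => int_cont μ (cQ j k)]
    set t : Fin (n + 1) → ℝ := fun i => ∫ R, ‖act R (x i) - Mm x R‖ ∂μ with ht
    have h3 : ∑ j, ∑ k, (∫ R, ∑ l, Qf (M j k) ((Mm x R) l) ((act R (x j)) l)
        ((act R (x k)) l) ∂μ + κ * (t j + t k)) ≤
        ∑ j, ∑ k, (2 * κ ^ 2 + 61 / 40 * κ * (‖x j‖ + ‖x k‖)) :=
      Finset.sum_le_sum fun j _ => Finset.sum_le_sum fun k _ => hb j k
    have e1 : ∑ j : Fin (n + 1), ∑ k : Fin (n + 1), κ * (t j + t k) =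
        2 * ((n + 1 : ℕ) : ℝ) * κ * ∑ i, t i := by
      simp only [← Finset.mul_sum, Finset.sum_add_distrib, Finset.sum_const, Finset.card_univ,
        Fintype.card_fin, nsmul_eq_mul]
      ring
    have e2 : ∑ j : Fin (n + 1), ∑ k : Fin (n + 1),
        (2 * κ ^ 2 + 61 / 40 * κ * (‖x j‖ + ‖x k‖)) =
        2 * ((n + 1 : ℕ) : ℝ) ^ 2 * κ ^ 2 +
          61 / 40 * (2 * ((n + 1 : ℕ) : ℝ) * κ * ∑ i, ‖x i‖) := by
      simp only [← Finset.mul_sum, Finset.sum_add_distrib, Finset.sum_const, Finset.card_univ,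
        Fintype.card_fin, nsmul_eq_mul]
      ring
    simp only [Finset.sum_add_distrib] at h3 e1 e2
    have hN : 0 < 2 * ((n + 1 : ℕ) : ℝ) * κ := by positivity
    have h4 : 2 * ((n + 1 : ℕ) : ℝ) * κ * ∑ i, t i ≤
        2 * ((n + 1 : ℕ) : ℝ) * κ * (61 / 40 * ∑ i, ‖x i‖) := by
      linarith
    exact le_of_mul_le_mul_left h4 hN

end

/-- **The randomly rotated coordinate-wise median in all dimensions.** -/
theorem main_all [MeasurableSpace (SO d)] [BorelSpace (SO d)] (μ : Measure (SO d))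
    [IsProbabilityMeasure μ] (hμ : ∀ Q : SO d, μ.map (fun R => Q * R) = μ)
    (p : Fin (n + 1) → E d) (y : E d) :
    Integrable (fun R => cost p (rr R p)) μ ∧
      ∫ R, cost p (rr R p) ∂μ ≤ 61 / 40 * cost p y := by
  refine ⟨int_cont μ (continuous_cost p), ?_⟩
  have e : ∀ R, cost p (rr R p) =
      ∑ i, ‖act R (p i - y) - Mm (fun i => p i - y) R‖ := fun R => cost_rr R p y
  have cD : ∀ i, Continuous fun R : SO d => ‖act R (p i - y) - Mm (fun i => p i - y) R‖ :=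
    fun i => ((continuous_act (p i - y)).sub (continuous_Mm _)).norm
  simp only [e]
  rw [integral_finsetSum _ fun i _ => int_cont μ (cD i)]
  exact sum_bound hμ fun i => p i - y

end Pool.Agent.RRMG
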