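import Pool.Agent.RRMG.Scalar
import Pool.Agent.RRMG.Chord

/-!
# Numerical bounds for `af` and `mf` at the multiples of `π / 8`
-/

set_option autoImplicit false

noncomputable section

namespace Pool.Agent.RRMG

open Real

theorem sqrt2_lo : (1.4142135 : ℝ) ≤ √2 := Real.le_sqrt_of_sq_le (by norm_num)

theorem sqrt2_hi : √2 ≤ (1.414214 : ℝ) := Real.sqrt_le_iff.2 ⟨by norm_num, by norm_num⟩

theorem s8_hi : sin (π / 8) ≤ 0.382684 := by
  rw [Real.sin_pi_div_eight]
  have h : √(2 - √2) ≤ 0.765367 := Real.sqrt_le_iff.2 ⟨by norm_num, by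
    have := sqrt2_lo
    norm_num at this ⊢
    linarith⟩
  linarith

theorem s8_lo : (0.382682 : ℝ) ≤ sin (π / 8) := by
  rw [Real.sin_pi_div_eight]
  have h : (0.765365 : ℝ) ≤ √(2 - √2) := Real.le_sqrt_of_sq_le (by
    have := sqrt2_hi
    norm_num at this ⊢
    linarith)
  linarith

theorem c8_hi : cos (π / 8) ≤ 0.923880 := by
  rw [Real.cos_pi_div_eight]
  have h : √(2 + √2) ≤ 1.847760 := Real.sqrt_le_iff.2 ⟨by norm_num, by
    have := sqrt2_hi
    norm_num at this ⊢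
    linarith⟩
  linarith

theorem c8_lo : (0.923879 : ℝ) ≤ cos (π / 8) := by
  rw [Real.cos_pi_div_eight]
  have h : (1.847758 : ℝ) ≤ √(2 + √2) := Real.le_sqrt_of_sq_le (by
    have := sqrt2_lo
    norm_num at this ⊢
    linarith)
  linarith

theorem s4_lo : (0.7071065 : ℝ) ≤ √2 / 2 := by linarith [sqrt2_lo]

theorem s4_hi : √2 / 2 ≤ (0.707107 : ℝ) := by linarith [sqrt2_hi]

/-- the form of the two functions at the angle `q π` -/
theorem af_form (q : ℝ) : af (q * π) = sin (q * π) / π - q * cos (q * π) := by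
  unfold af
  have := Real.pi_pos.ne'
  field_simp

theorem mf_form (q : ℝ) : mf (q * π) = 1 - q - sin (q * π) / π := by
  unfold mf
  have := Real.pi_pos.ne'
  field_simp
  ring

theorem div_hi {s u v : ℝ} (h : s ≤ u) (hv : u ≤ v * 3.141592) (hv0 : 0 ≤ v) : s / π ≤ v := by
  rw [div_le_iff₀ Real.pi_pos]
  have := Real.pi_gt_d6
  calc s ≤ u := h
    _ ≤ v * 3.141592 := hv
    _ ≤ v * π := mul_le_mul_of_nonneg_left this.le hv0

theorem div_lo {s u v : ℝ} (h : u ≤ s) (hv : v * 3.141593 ≤ u) (hv0 : 0 ≤ v) : v ≤ s / π := by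
  rw [le_div_iff₀ Real.pi_pos]
  have := Real.pi_lt_d6
  calc v * π ≤ v * 3.141593 := mul_le_mul_of_nonneg_left this.le hv0
    _ ≤ u := hv
    _ ≤ s := h

theorem nd0 : af 0 ≤ 0 ∧ mf 0 ≤ 1 := by
  unfold af mf
  simp

theorem nd1 : af (π / 8) ≤ 633 / 100000 ∧ mf (π / 8) ≤ 75319 / 100000 := by
  have e : π / 8 = 1 / 8 * π := by ring
  have hs : sin (1 / 8 * π) = sin (π / 8) := by rw [← e]
  have hc : cos (1 / 8 * π) = cos (π / 8) := by rw [← e]
  rw [e, af_form, mf_form, hs, hc]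
  have a1 : sin (π / 8) / π ≤ 0.1218125 := div_hi s8_hi (by norm_num) (by norm_num)
  have a2 : (0.121811 : ℝ) ≤ sin (π / 8) / π := div_lo s8_lo (by norm_num) (by norm_num)
  have := c8_lo
  constructor <;> linarith

theorem nd2 : af (π / 4) ≤ 4831 / 100000 ∧ mf (π / 4) ≤ 52493 / 100000 := by
  have e : π / 4 = 1 / 4 * π := by ring
  have hs : sin (1 / 4 * π) = √2 / 2 := by rw [← e, Real.sin_pi_div_four]
  have hc : cos (1 / 4 * π) = √2 / 2 := by rw [← e, Real.cos_pi_div_four]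
  rw [e, af_form, mf_form, hs, hc]
  have a1 : √2 / 2 / π ≤ 0.22508 := div_hi s4_hi (by norm_num) (by norm_num)
  have a2 : (0.225078 : ℝ) ≤ √2 / 2 / π := div_lo s4_lo (by norm_num) (by norm_num)
  have := s4_lo
  constructor <;> linarith

theorem nd3 : af (3 * π / 8) ≤ 15058 / 100000 ∧ mf (3 * π / 8) ≤ 33093 / 100000 := by
  have e : 3 * π / 8 = 3 / 8 * π := by ring
  have e2 : 3 / 8 * π = π / 2 - π / 8 := by ring
  have hs : sin (3 / 8 * π) = cos (π / 8) := by rw [e2, Real.sin_pi_div_two_sub]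
  have hc : cos (3 / 8 * π) = sin (π / 8) := by rw [e2, Real.cos_pi_div_two_sub]
  rw [e, af_form, mf_form, hs, hc]
  have a1 : cos (π / 8) / π ≤ 0.294081 := div_hi c8_hi (by norm_num) (by norm_num)
  have a2 : (0.294079 : ℝ) ≤ cos (π / 8) / π := div_lo c8_lo (by norm_num) (by norm_num)
  have := s8_lo
  constructor <;> linarith

theorem nd4 : af (π / 2) ≤ 31832 / 100000 ∧ mf (π / 2) ≤ 18170 / 100000 := by
  have e : π / 2 = 1 / 2 * π := by ring
  have hs : sin (1 / 2 * π) = 1 := by rw [← e, Real.sin_pi_div_two]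
  have hc : cos (1 / 2 * π) = 0 := by rw [← e, Real.cos_pi_div_two]
  rw [e, af_form, mf_form, hs, hc]
  have a1 : 1 / π ≤ 0.31832 := div_hi le_rfl (by norm_num) (by norm_num)
  have a2 : (0.318305 : ℝ) ≤ 1 / π := div_lo le_rfl (by norm_num) (by norm_num)
  constructor <;> linarith

theorem nd5 : af (5 * π / 8) ≤ 53326 / 100000 ∧ mf (5 * π / 8) ≤ 8093 / 100000 := by
  have e : 5 * π / 8 = 5 / 8 * π := by ring
  have e2 : 5 / 8 * π = π / 2 + π / 8 := by ring
  have hs : sin (5 / 8 * π) = cos (π / 8) := by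
    rw [e2, add_comm, Real.sin_add_pi_div_two]
  have hc : cos (5 / 8 * π) = -sin (π / 8) := by
    rw [e2, add_comm, Real.cos_add_pi_div_two]
  rw [e, af_form, mf_form, hs, hc]
  have a1 : cos (π / 8) / π ≤ 0.294081 := div_hi c8_hi (by norm_num) (by norm_num)
  have a2 : (0.294079 : ℝ) ≤ cos (π / 8) / π := div_lo c8_lo (by norm_num) (by norm_num)
  have := s8_hi
  constructor <;> linarith

theorem nd6 : af (3 * π / 4) ≤ 75542 / 100000 ∧ mf (3 * π / 4) ≤ 2493 / 100000 := by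
  have e : 3 * π / 4 = 3 / 4 * π := by ring
  have e2 : 3 / 4 * π = π - π / 4 := by ring
  have hs : sin (3 / 4 * π) = √2 / 2 := by
    rw [e2, Real.sin_pi_sub, Real.sin_pi_div_four]
  have hc : cos (3 / 4 * π) = -(√2 / 2) := by
    rw [e2, Real.cos_pi_sub, Real.cos_pi_div_four]
  rw [e, af_form, mf_form, hs, hc]
  have a1 : √2 / 2 / π ≤ 0.22508 := div_hi s4_hi (by norm_num) (by norm_num)
  have a2 : (0.225078 : ℝ) ≤ √2 / 2 / π := div_lo s4_lo (by norm_num) (by norm_num)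
  have := s4_hi
  constructor <;> linarith

theorem nd7 : af (7 * π / 8) ≤ 93021 / 100000 ∧ mf (7 * π / 8) ≤ 319 / 100000 := by
  have e : 7 * π / 8 = 7 / 8 * π := by ring
  have e2 : 7 / 8 * π = π - π / 8 := by ring
  have hs : sin (7 / 8 * π) = sin (π / 8) := by rw [e2, Real.sin_pi_sub]
  have hc : cos (7 / 8 * π) = -cos (π / 8) := by rw [e2, Real.cos_pi_sub]
  rw [e, af_form, mf_form, hs, hc]
  have a1 : sin (π / 8) / π ≤ 0.1218125 := div_hi s8_hi (by norm_num) (by norm_num)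
  have a2 : (0.121811 : ℝ) ≤ sin (π / 8) / π := div_lo s8_lo (by norm_num) (by norm_num)
  have := c8_hi
  constructor <;> linarith

theorem nd8 : af π ≤ 1 ∧ mf π ≤ 0 := by
  unfold af mf
  have := Real.pi_pos.ne'
  constructor
  · rw [Real.sin_pi, Real.cos_pi]
    field_simp
    norm_num
  · rw [Real.sin_pi]
    field_simp
    norm_num

theorem arc_of {s e θ A0 M0 A1 M1 : ℝ} (t0 : s ≤ θ) (t1 : θ ≤ e) (hs : 0 ≤ s) (he : e ≤ π)
    (ns : af s ≤ A0 ∧ mf s ≤ M0) (ne : af e ≤ A1 ∧ mf e ≤ M1) :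
    Arc (af θ) (mf θ) A0 M0 A1 M1 := by
  obtain ⟨w, w0, w1, h1, h2⟩ := chord hs he t0 t1
  have w2 := sub_nonneg.2 w1
  refine ⟨w, w0, w1, h1.trans ?_, h2.trans ?_⟩
  · exact add_le_add (mul_le_mul_of_nonneg_left ns.1 w0) (mul_le_mul_of_nonneg_left ne.1 w2)
  · exact add_le_add (mul_le_mul_of_nonneg_left ns.2 w0) (mul_le_mul_of_nonneg_left ne.2 w2)

end Pool.Agent.RRMG
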