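import Pool.Agent.RRMG.Defs

/-!
# The scalar inequality: the lemma for one cell

`EE` is the value of a pair after the elimination of the scalar products `pj, pk`.  It is a concave
quadratic polynomial in `rj` and in `rk` and it is affine and decreasing in `a` and `m`, so on a cell it
is enough to check the corners (`cell`).
-/

set_option autoImplicit false

noncomputable section

namespace Pool.Agent.RRMG

open Real

/-- the value of a pair after the elimination of `pj, pk` -/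
def EE (c al la b2 w vj vk gj hj gk hk ej ek rj rk a m : ℝ) : ℝ :=
  2 + c * (rj + rk) - la * (1 + (rj ^ 2 + rk ^ 2) / 2 * m) - al * (rj * rk * a) -
    w * ((1 - vj) ^ 2 + vj ^ 2 * rj ^ 2 + (1 - vk) ^ 2 + vk ^ 2 * rk ^ 2) - b2 * (rj + rk) / 2 -
    (hj + gj * (1 + rj ^ 2)) / 2 - (hk + gk * (1 + rk ^ 2)) / 2 - ej * rj - ek * rk

theorem p_bound {x p r e : ℝ} (h1 : -e ≤ x) (h2 : x ≤ e) (hp : |p| ≤ r) : x * p ≤ e * r := by
  have he : 0 ≤ e := by linarith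
  calc x * p ≤ |x * p| := le_abs_self _
    _ = |x| * |p| := abs_mul _ _
    _ ≤ e * r := mul_le_mul (abs_le.2 ⟨h1, h2⟩) hp (abs_nonneg _) he

theorem good_of_EE {f c al la b1 b2 w vj vk gj hj gk hk ej ek rj rk a m : ℝ}
    (hM : (Mult.mk al la b1 b2 w vj vk).Ok f) (hgj : 0 < gj) (hgk : 0 < gk) (hhj : 1 ≤ gj * hj)
    (hhk : 1 ≤ gk * hk) (e1 : -ej ≤ 2 * w * vj * (1 - vj) + b1 - b2 / 2 - gj)
    (e2 : 2 * w * vj * (1 - vj) + b1 - b2 / 2 - gj ≤ ej)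
    (e3 : -ek ≤ 2 * w * vk * (1 - vk) + b1 - b2 / 2 - gk)
    (e4 : 2 * w * vk * (1 - vk) + b1 - b2 / 2 - gk ≤ ek)
    (h : 0 ≤ EE c al la b2 w vj vk gj hj gk hk ej ek rj rk a m) : Good f c rj rk a m := by
  refine ⟨⟨al, la, b1, b2, w, vj, vk⟩, gj, hj, gk, hk, hM, hgj, hgk, hhj, hhk, ?_⟩
  intro pj pk hpj hpk
  have p1 := p_bound e1 e2 hpj
  have p2 := p_bound e3 e4 hpk
  unfold EE at h
  simp only
  nlinarith [p1, p2, h]

theorem conc {α β γ x0 x1 r : ℝ} (hγ : 0 ≤ γ) (h0 : 0 ≤ α + β * x0 - γ * x0 ^ 2)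
    (h1 : 0 ≤ α + β * x1 - γ * x1 ^ 2) (hx0 : x0 ≤ r) (hx1 : r ≤ x1) :
    0 ≤ α + β * r - γ * r ^ 2 := by
  rcases eq_or_lt_of_le (hx0.trans hx1) with h | h
  · have : r = x0 := le_antisymm (by rw [h]; exact hx1) hx0
    rw [this]
    exact h0
  · have e : (x1 - x0) * (α + β * r - γ * r ^ 2) =
        (x1 - r) * (α + β * x0 - γ * x0 ^ 2) + (r - x0) * (α + β * x1 - γ * x1 ^ 2) +
          γ * ((r - x0) * (x1 - r)) * (x1 - x0) := by ring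
    have h2 : 0 ≤ (x1 - x0) * (α + β * r - γ * r ^ 2) := by
      rw [e]
      have a1 := mul_nonneg (sub_nonneg.2 hx1) h0
      have a2 := mul_nonneg (sub_nonneg.2 hx0) h1
      have a3 := mul_nonneg (mul_nonneg hγ (mul_nonneg (sub_nonneg.2 hx0) (sub_nonneg.2 hx1)))
        (sub_nonneg.2 h.le)
      linarith
    exact nonneg_of_mul_nonneg_right h2 (sub_pos.2 h)

section

variable {c al la b2 w vj vk gj hj gk hk ej ek a m : ℝ}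

theorem EE_rj (hla : 0 ≤ la) (hw : 0 ≤ w) (hgj : 0 ≤ gj) (hm : 0 ≤ m) {j0 j1 rj rk : ℝ}
    (h0 : 0 ≤ EE c al la b2 w vj vk gj hj gk hk ej ek j0 rk a m)
    (h1 : 0 ≤ EE c al la b2 w vj vk gj hj gk hk ej ek j1 rk a m) (hx0 : j0 ≤ rj)
    (hx1 : rj ≤ j1) : 0 ≤ EE c al la b2 w vj vk gj hj gk hk ej ek rj rk a m := by
  have hγ : 0 ≤ la * m / 2 + w * vj ^ 2 + gj / 2 := by positivity
  have key : ∀ r, EE c al la b2 w vj vk gj hj gk hk ej ek r rk a m =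
      EE c al la b2 w vj vk gj hj gk hk ej ek 0 rk a m +
        (c - al * (rk * a) - b2 / 2 - ej) * r - (la * m / 2 + w * vj ^ 2 + gj / 2) * r ^ 2 := by
    intro r
    unfold EE
    ring
  rw [key] at h0 h1 ⊢
  exact conc hγ h0 h1 hx0 hx1

theorem EE_rk (hla : 0 ≤ la) (hw : 0 ≤ w) (hgk : 0 ≤ gk) (hm : 0 ≤ m) {k0 k1 rj rk : ℝ}
    (h0 : 0 ≤ EE c al la b2 w vj vk gj hj gk hk ej ek rj k0 a m)
    (h1 : 0 ≤ EE c al la b2 w vj vk gj hj gk hk ej ek rj k1 a m) (hx0 : k0 ≤ rk)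
    (hx1 : rk ≤ k1) : 0 ≤ EE c al la b2 w vj vk gj hj gk hk ej ek rj rk a m := by
  have hγ : 0 ≤ la * m / 2 + w * vk ^ 2 + gk / 2 := by positivity
  have key : ∀ r, EE c al la b2 w vj vk gj hj gk hk ej ek rj r a m =
      EE c al la b2 w vj vk gj hj gk hk ej ek rj 0 a m +
        (c - al * (rj * a) - b2 / 2 - ek) * r - (la * m / 2 + w * vk ^ 2 + gk / 2) * r ^ 2 := by
    intro r
    unfold EE
    ring
  rw [key] at h0 h1 ⊢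
  exact conc hγ h0 h1 hx0 hx1

theorem EE_corners (hla : 0 ≤ la) (hw : 0 ≤ w) (hgj : 0 ≤ gj) (hgk : 0 ≤ gk) (hm : 0 ≤ m)
    {j0 j1 k0 k1 rj rk : ℝ}
    (h00 : 0 ≤ EE c al la b2 w vj vk gj hj gk hk ej ek j0 k0 a m)
    (h01 : 0 ≤ EE c al la b2 w vj vk gj hj gk hk ej ek j0 k1 a m)
    (h10 : 0 ≤ EE c al la b2 w vj vk gj hj gk hk ej ek j1 k0 a m)
    (h11 : 0 ≤ EE c al la b2 w vj vk gj hj gk hk ej ek j1 k1 a m)
    (hj0 : j0 ≤ rj) (hj1 : rj ≤ j1) (hk0 : k0 ≤ rk) (hk1 : rk ≤ k1) :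
    0 ≤ EE c al la b2 w vj vk gj hj gk hk ej ek rj rk a m :=
  EE_rj hla hw hgj hm (EE_rk hla hw hgk hm h00 h01 hk0 hk1)
    (EE_rk hla hw hgk hm h10 h11 hk0 hk1) hj0 hj1

theorem EE_arc (hla : 0 ≤ la) (hal : 0 ≤ al) {rj rk as ms ae me t : ℝ} (hrj : 0 ≤ rj)
    (hrk : 0 ≤ rk) (ht0 : 0 ≤ t) (ht1 : t ≤ 1) (ha : a ≤ t * as + (1 - t) * ae)
    (hm : m ≤ t * ms + (1 - t) * me)
    (hs : 0 ≤ EE c al la b2 w vj vk gj hj gk hk ej ek rj rk as ms)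
    (he : 0 ≤ EE c al la b2 w vj vk gj hj gk hk ej ek rj rk ae me) :
    0 ≤ EE c al la b2 w vj vk gj hj gk hk ej ek rj rk a m := by
  have e : EE c al la b2 w vj vk gj hj gk hk ej ek rj rk a m =
      t * EE c al la b2 w vj vk gj hj gk hk ej ek rj rk as ms +
        (1 - t) * EE c al la b2 w vj vk gj hj gk hk ej ek rj rk ae me +
        al * (rj * rk) * (t * as + (1 - t) * ae - a) +
        la * ((rj ^ 2 + rk ^ 2) / 2) * (t * ms + (1 - t) * me - m) := by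
    unfold EE
    ring
  rw [e]
  have a1 := mul_nonneg ht0 hs
  have a2 := mul_nonneg (sub_nonneg.2 ht1) he
  have a3 := mul_nonneg (mul_nonneg hal (mul_nonneg hrj hrk)) (sub_nonneg.2 ha)
  have a4 : 0 ≤ la * ((rj ^ 2 + rk ^ 2) / 2) * (t * ms + (1 - t) * me - m) :=
    mul_nonneg (mul_nonneg hla (by positivity)) (sub_nonneg.2 hm)
  linarith

end

/-- the pair `(a, m)` is below the chord of the two points -/
def Arc (a m as ms ae me : ℝ) : Prop :=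
  ∃ t : ℝ, 0 ≤ t ∧ t ≤ 1 ∧ a ≤ t * as + (1 - t) * ae ∧ m ≤ t * ms + (1 - t) * me

/-- the lemma for one cell -/
theorem cell {f c al la b1 b2 w vj vk gj hj gk hk ej ek j0 j1 k0 k1 as ms ae me : ℝ}
    (hM : (Mult.mk al la b1 b2 w vj vk).Ok f) (hgj : 0 < gj) (hgk : 0 < gk) (hhj : 1 ≤ gj * hj)
    (hhk : 1 ≤ gk * hk) (e1 : -ej ≤ 2 * w * vj * (1 - vj) + b1 - b2 / 2 - gj)
    (e2 : 2 * w * vj * (1 - vj) + b1 - b2 / 2 - gj ≤ ej)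
    (e3 : -ek ≤ 2 * w * vk * (1 - vk) + b1 - b2 / 2 - gk)
    (e4 : 2 * w * vk * (1 - vk) + b1 - b2 / 2 - gk ≤ ek)
    (hms : 0 ≤ ms) (hme : 0 ≤ me)
    (s00 : 0 ≤ EE c al la b2 w vj vk gj hj gk hk ej ek j0 k0 as ms)
    (s01 : 0 ≤ EE c al la b2 w vj vk gj hj gk hk ej ek j0 k1 as ms)
    (s10 : 0 ≤ EE c al la b2 w vj vk gj hj gk hk ej ek j1 k0 as ms)
    (s11 : 0 ≤ EE c al la b2 w vj vk gj hj gk hk ej ek j1 k1 as ms)
    (t00 : 0 ≤ EE c al la b2 w vj vk gj hj gk hk ej ek j0 k0 ae me)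
    (t01 : 0 ≤ EE c al la b2 w vj vk gj hj gk hk ej ek j0 k1 ae me)
    (t10 : 0 ≤ EE c al la b2 w vj vk gj hj gk hk ej ek j1 k0 ae me)
    (t11 : 0 ≤ EE c al la b2 w vj vk gj hj gk hk ej ek j1 k1 ae me)
    {rj rk a m : ℝ} (hrj : 0 ≤ rj) (hrk : 0 ≤ rk) (hj0 : j0 ≤ rj) (hj1 : rj ≤ j1)
    (hk0 : k0 ≤ rk) (hk1 : rk ≤ k1) (harc : Arc a m as ms ae me) : Good f c rj rk a m := by
  obtain ⟨t, ht0, ht1, ha, hm⟩ := harc
  refine good_of_EE hM hgj hgk hhj hhk e1 e2 e3 e4 ?_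
  exact EE_arc hM.la0 hM.al0 hrj hrk ht0 ht1 ha hm
    (EE_corners hM.la0 hM.w0 hgj.le hgk.le hms s00 s01 s10 s11 hj0 hj1 hk0 hk1)
    (EE_corners hM.la0 hM.w0 hgj.le hgk.le hme t00 t01 t10 t11 hj0 hj1 hk0 hk1)

theorem ok_of {f al la b1 b2 w vj vk : ℝ} (h1 : 0 ≤ al) (h2 : al ≤ 2 * f) (h3 : 0 ≤ la)
    (h4 : 0 ≤ b1) (h5 : 0 ≤ b2) (h6 : b1 - b2 = al - f) (h7 : 0 ≤ w) (h8 : w + la + b1 = 2)
    (h9 : 0 ≤ vj) (h10 : vj ≤ 1) (h11 : 0 ≤ vk) (h12 : vk ≤ 1) :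
    (Mult.mk al la b1 b2 w vj vk).Ok f := ⟨h1, h2, h3, h4, h5, h6, h7, h8, h9, h10, h11, h12⟩

/-- symmetry -/
theorem Good.symm {f c rj rk a m : ℝ} (h : Good f c rj rk a m) : Good f c rk rj a m := by
  obtain ⟨M, gj, hj, gk, hk, hM, h1, h2, h3, h4, h5⟩ := h
  refine ⟨⟨M.al, M.la, M.b1, M.b2, M.w, M.vk, M.vj⟩, gk, hk, gj, hj,
    ⟨hM.al0, hM.al1, hM.la0, hM.b10, hM.b20, hM.bb, hM.w0, hM.ww, hM.vk0, hM.vk1, hM.vj0, hM.vj1⟩,
    h2, h1, h4, h3, ?_⟩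
  intro pj pk hpj hpk
  have := h5 pk pj hpk hpj
  simp only
  linarith

end Pool.Agent.RRMG
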