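import Pool.Agent.RRMG.Tree

/-!
# The scalar inequality for all distances

For one point: `Lb r z` says that the value of the point is at least `z` with the multipliers
`al = la = 0`.  `Lb r (-1/4)` holds for all `r ≥ 0`, and `Lb r (1/4)` for `r ≥ 3`.
-/

set_option autoImplicit false

noncomputable section

namespace Pool.Agent.RRMG

open Real

/-- the value of one point is at least `z` -/
def Lb (r z : ℝ) : Prop := ∃ v g h : ℝ, 0 ≤ v ∧ v ≤ 1 ∧ 0 < g ∧ 1 ≤ g * h ∧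
  ∀ p : ℝ, |p| ≤ r → 2 * ((1 - v) ^ 2 + 2 * v * (1 - v) * p + v ^ 2 * r ^ 2) +
    1 / 5 * ((r - p) / 2) + (h + g * (1 - 2 * p + r ^ 2)) / 2 ≤ 1 + 61 / 40 * r - z

/-- the value of one point after the elimination of `p` -/
def LL (v g h e r z : ℝ) : ℝ :=
  1 + 61 / 40 * r - z - 2 * ((1 - v) ^ 2 + v ^ 2 * r ^ 2) - r / 10 - (h + g * (1 + r ^ 2)) / 2 -
    e * r

theorem lb_cell {v g h e x0 x1 r z : ℝ} (hv0 : 0 ≤ v) (hv1 : v ≤ 1) (hg : 0 < g)
    (hh : 1 ≤ g * h) (e1 : -e ≤ 4 * v * (1 - v) - 1 / 10 - g)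
    (e2 : 4 * v * (1 - v) - 1 / 10 - g ≤ e) (h0 : 0 ≤ LL v g h e x0 z)
    (h1 : 0 ≤ LL v g h e x1 z) (hx0 : x0 ≤ r) (hx1 : r ≤ x1) : Lb r z := by
  refine ⟨v, g, h, hv0, hv1, hg, hh, ?_⟩
  intro p hp
  have hL : 0 ≤ LL v g h e r z := by
    have key : ∀ r, LL v g h e r z = LL v g h e 0 z + (61 / 40 - 1 / 10 - e) * r -
        (2 * v ^ 2 + g / 2) * r ^ 2 := by
      intro r
      unfold LL
      ring
    rw [key] at h0 h1 ⊢
    exact conc (by positivity) h0 h1 hx0 hx1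
  have p1 := p_bound e1 e2 hp
  unfold LL at hL
  linarith

theorem lb_tail {r z : ℝ} (hr : 0 ≤ r) (h : z ≤ 13 / 40 * r - 2) : Lb r z := by
  refine ⟨0, 1 / (1 + r), 1 + r, le_rfl, zero_le_one, by positivity, ?_, ?_⟩
  · rw [one_div, inv_mul_cancel₀ (by positivity)]
  · intro p hp
    have h1 := abs_le.1 hp
    have h2 : 1 / (1 + r) * (1 - 2 * p + r ^ 2) ≤ 1 + r := by
      rw [one_div, inv_mul_le_iff₀ (by positivity)]
      nlinarith [h1.1]
    nlinarith [h1.1, h1.2]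

theorem lb_all {r : ℝ} (hr : 0 ≤ r) : Lb r (-1 / 4) := by
  rcases le_total r 1 with h1 | h1
  · refine lb_cell (v := 7 / 10) (g := 79 / 100) (h := 127 / 100) (e := 1 / 20) ?_ ?_ ?_ ?_ ?_ ?_
      ?_ ?_ hr h1 <;> first | (unfold LL; norm_num) | norm_num
  rcases le_total r (3 / 2) with h4 | h4
  · refine lb_cell (v := 3 / 10) (g := 37 / 50) (h := 50 / 37) (e := 0) ?_ ?_ ?_ ?_ ?_ ?_
      ?_ ?_ h1 h4 <;> first | (unfold LL; norm_num) | norm_num
  rcases le_total r (12 / 5) with h2 | h2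
  · refine lb_cell (v := 1 / 5) (g := 27 / 50) (h := 50 / 27) (e := 0) ?_ ?_ ?_ ?_ ?_ ?_
      ?_ ?_ h4 h2 <;> first | (unfold LL; norm_num) | norm_num
  rcases le_total r 7 with h3 | h3
  · refine lb_cell (v := 1 / 10) (g := 13 / 50) (h := 50 / 13) (e := 0) ?_ ?_ ?_ ?_ ?_ ?_
      ?_ ?_ h2 h3 <;> first | (unfold LL; norm_num) | norm_num
  · exact lb_tail hr (by linarith)

theorem lb_large {r : ℝ} (hr : 3 ≤ r) : Lb r (1 / 4) := by
  rcases le_total r 6 with h1 | h1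
  · refine lb_cell (v := 1 / 10) (g := 13 / 50) (h := 50 / 13) (e := 0) ?_ ?_ ?_ ?_ ?_ ?_
      ?_ ?_ hr h1 <;> first | (unfold LL; norm_num) | norm_num
  rcases le_total r 7 with h2 | h2
  · refine lb_cell (v := 651 / 10000) (g := 1433 / 10000) (h := 10000 / 1433) (e := 1 / 1000) ?_ ?_
      ?_ ?_ ?_ ?_ ?_ ?_ h1 h2 <;> first | (unfold LL; norm_num) | norm_num
  · exact lb_tail (by linarith) (by linarith)

theorem good_of_lb {rj rk a m z : ℝ} (h1 : Lb rj (-z)) (h2 : Lb rk z) :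
    Good (1 / 5) (61 / 40) rj rk a m := by
  obtain ⟨v, g, h, a1, a2, a3, a4, a5⟩ := h1
  obtain ⟨v', g', h', b1, b2, b3, b4, b5⟩ := h2
  refine ⟨⟨0, 0, 0, 1 / 5, 2, v, v'⟩, g, h, g', h', ok_of le_rfl (by norm_num) le_rfl le_rfl
    (by norm_num) (by norm_num) (by norm_num) (by norm_num) a1 a2 b1 b2, a3, b3, a4, b4, ?_⟩
  intro pj pk hpj hpk
  have c1 := a5 pj hpj
  have c2 := b5 pk hpk
  simp only
  linarith

theorem good_le {rj rk θ : ℝ} (hrj : 0 ≤ rj) (hrk : 0 ≤ rk) (hjk : rj ≤ rk) (t0 : 0 ≤ θ)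
    (t1 : θ ≤ π) : Good (1 / 5) (61 / 40) rj rk (af θ) (mf θ) := by
  rcases le_total rk 3 with h | h
  · exact tree hrj hrk hjk h t0 t1
  · refine good_of_lb (z := 1 / 4) ?_ (lb_large h)
    have := lb_all hrj
    rwa [show (-1 / 4 : ℝ) = -(1 / 4) by norm_num] at this

/-- **The scalar inequality.** -/
theorem good_all {rj rk θ : ℝ} (hrj : 0 ≤ rj) (hrk : 0 ≤ rk) (t0 : 0 ≤ θ) (t1 : θ ≤ π) :
    Good (1 / 5) (61 / 40) rj rk (af θ) (mf θ) := by
  rcases le_total rj rk with h | h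
  · exact good_le hrj hrk h t0 t1
  · exact (good_le hrk hrj h t0 t1).symm

end Pool.Agent.RRMG
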