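import Pool.Agent.RRMG.Cells1
import Pool.Agent.RRMG.Cells2
import Pool.Agent.RRMG.Cells3
import Pool.Agent.RRMG.Cells4
import Pool.Agent.RRMG.Cells5

/-!
# The scalar inequality for `rj ≤ rk ≤ 3`: the tree of cells
-/

set_option autoImplicit false

noncomputable section

namespace Pool.Agent.RRMG

open Real

theorem tree {rj rk θ : ℝ} (hrj : 0 ≤ rj) (hrk : 0 ≤ rk) (hjk : rj ≤ rk) (k1 : rk ≤ 3)
    (t0 : 0 ≤ θ) (t1 : θ ≤ π) : Good (1 / 5) (61 / 40) rj rk (af θ) (mf θ) := by
  have j0 := hrj
  have k0 := hrk
  have j1 := hjk.trans k1
  rcases le_or_gt rj (3 / 2) with j1 | j0s
  · rcases le_or_gt rk (3 / 2) with k1 | k0s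
    · rcases le_or_gt rj (3 / 4) with j1 | j0s
      · rcases le_or_gt rk (3 / 4) with k1 | k0s
        · rcases le_or_gt rj (3 / 8) with j1 | j0s
          · rcases le_or_gt rk (3 / 8) with k1 | k0s
            · rcases le_or_gt rk (3 / 16) with k1 | k0s
              · rcases le_or_gt rj (3 / 16) with j1 | j0s
                · exact L0 hrj hrk j0 j1 k0 k1 t0 t1
                · have j0 := j0s.le
                  exact absurd (lt_of_lt_of_le j0s (hjk.trans k1)) (by norm_num)
              · have k0 := k0s.le
                exact L1 hrj hrk j0 j1 k0 k1 t0 t1
            · have k0 := k0s.le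
              exact L2 hrj hrk j0 j1 k0 k1 t0 t1
          · have j0 := j0s.le
            exact L3 hrj hrk j0 j1 k0 k1 t0 t1
        · have k0 := k0s.le
          rcases le_or_gt rj (3 / 8) with j1 | j0s
          · rcases le_or_gt rk (9 / 8) with k1 | k0s
            · exact L4 hrj hrk j0 j1 k0 k1 t0 t1
            · have k0 := k0s.le
              rcases le_or_gt rj (3 / 16) with j1 | j0s
              · rcases le_or_gt rk (21 / 16) with k1 | k0s
                · exact L5 hrj hrk j0 j1 k0 k1 t0 t1
                · have k0 := k0s.le
                  exact L6 hrj hrk j0 j1 k0 k1 t0 t1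
              · have j0 := j0s.le
                exact L7 hrj hrk j0 j1 k0 k1 t0 t1
          · have j0 := j0s.le
            rcases le_or_gt rk (9 / 8) with k1 | k0s
            · exact L8 hrj hrk j0 j1 k0 k1 t0 t1
            · have k0 := k0s.le
              rcases le_or_gt θ (π / 2) with t1 | t0s
              · exact L9 hrj hrk j0 j1 k0 k1 t0 t1
              · have t0 := t0s.le
                rcases le_or_gt rk (21 / 16) with k1 | k0s
                · exact L10 hrj hrk j0 j1 k0 k1 t0 t1
                · have k0 := k0s.le
                  exact L11 hrj hrk j0 j1 k0 k1 t0 t1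
      · have j0 := j0s.le
        rcases le_or_gt rk (3 / 4) with k1 | k0s
        · exact absurd (lt_of_lt_of_le j0s (hjk.trans k1)) (by norm_num)
        · have k0 := k0s.le
          rcases le_or_gt θ (π / 2) with t1 | t0s
          · rcases le_or_gt rk (9 / 8) with k1 | k0s
            · rcases le_or_gt rj (9 / 8) with j1 | j0s
              · rcases le_or_gt θ (π / 4) with t1 | t0s
                · exact L12 hrj hrk j0 j1 k0 k1 t0 t1
                · have t0 := t0s.le
                  exact L13 hrj hrk j0 j1 k0 k1 t0 t1
              · have j0 := j0s.le
                exact absurd (lt_of_lt_of_le j0s (hjk.trans k1)) (by norm_num)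
            · have k0 := k0s.le
              rcases le_or_gt rj (9 / 8) with j1 | j0s
              · rcases le_or_gt θ (π / 4) with t1 | t0s
                · exact L14 hrj hrk j0 j1 k0 k1 t0 t1
                · have t0 := t0s.le
                  rcases le_or_gt θ (3 * π / 8) with t1 | t0s
                  · exact L15 hrj hrk j0 j1 k0 k1 t0 t1
                  · have t0 := t0s.le
                    exact L16 hrj hrk j0 j1 k0 k1 t0 t1
              · have j0 := j0s.le
                rcases le_or_gt θ (π / 4) with t1 | t0s
                · rcases le_or_gt rj (21 / 16) with j1 | j0s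
                  · rcases le_or_gt rk (21 / 16) with k1 | k0s
                    · exact L17 hrj hrk j0 j1 k0 k1 t0 t1
                    · have k0 := k0s.le
                      exact L18 hrj hrk j0 j1 k0 k1 t0 t1
                  · have j0 := j0s.le
                    rcases le_or_gt rk (21 / 16) with k1 | k0s
                    · exact absurd (lt_of_lt_of_le j0s (hjk.trans k1)) (by norm_num)
                    · have k0 := k0s.le
                      exact L19 hrj hrk j0 j1 k0 k1 t0 t1
                · have t0 := t0s.le
                  rcases le_or_gt θ (3 * π / 8) with t1 | t0s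
                  · rcases le_or_gt rj (21 / 16) with j1 | j0s
                    · rcases le_or_gt rk (21 / 16) with k1 | k0s
                      · rcases le_or_gt rj (39 / 32) with j1 | j0s
                        · exact L20 hrj hrk j0 j1 k0 k1 t0 t1
                        · have j0 := j0s.le
                          exact L21 hrj hrk j0 j1 k0 k1 t0 t1
                      · have k0 := k0s.le
                        rcases le_or_gt rk (45 / 32) with k1 | k0s
                        · exact L22 hrj hrk j0 j1 k0 k1 t0 t1
                        · have k0 := k0s.le
                          exact L23 hrj hrk j0 j1 k0 k1 t0 t1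
                    · have j0 := j0s.le
                      rcases le_or_gt rk (21 / 16) with k1 | k0s
                      · exact absurd (lt_of_lt_of_le j0s (hjk.trans k1)) (by norm_num)
                      · have k0 := k0s.le
                        exact L24 hrj hrk j0 j1 k0 k1 t0 t1
                  · have t0 := t0s.le
                    exact L25 hrj hrk j0 j1 k0 k1 t0 t1
          · have t0 := t0s.le
            rcases le_or_gt rk (9 / 8) with k1 | k0s
            · rcases le_or_gt rj (9 / 8) with j1 | j0s
              · rcases le_or_gt rk (15 / 16) with k1 | k0s
                · exact L26 hrj hrk j0 j1 k0 k1 t0 t1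
                · have k0 := k0s.le
                  rcases le_or_gt rj (15 / 16) with j1 | j0s
                  · exact L27 hrj hrk j0 j1 k0 k1 t0 t1
                  · have j0 := j0s.le
                    rcases le_or_gt rj (33 / 32) with j1 | j0s
                    · exact L28 hrj hrk j0 j1 k0 k1 t0 t1
                    · have j0 := j0s.le
                      exact L29 hrj hrk j0 j1 k0 k1 t0 t1
              · have j0 := j0s.le
                exact absurd (lt_of_lt_of_le j0s (hjk.trans k1)) (by norm_num)
            · have k0 := k0s.le
              rcases le_or_gt rj (9 / 8) with j1 | j0s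
              · rcases le_or_gt rj (15 / 16) with j1 | j0s
                · rcases le_or_gt rk (21 / 16) with k1 | k0s
                  · exact L30 hrj hrk j0 j1 k0 k1 t0 t1
                  · have k0 := k0s.le
                    exact L31 hrj hrk j0 j1 k0 k1 t0 t1
                · have j0 := j0s.le
                  rcases le_or_gt rj (33 / 32) with j1 | j0s
                  · rcases le_or_gt rk (21 / 16) with k1 | k0s
                    · exact L32 hrj hrk j0 j1 k0 k1 t0 t1
                    · have k0 := k0s.le
                      exact L33 hrj hrk j0 j1 k0 k1 t0 t1
                  · have j0 := j0s.le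
                    rcases le_or_gt rk (21 / 16) with k1 | k0s
                    · exact L34 hrj hrk j0 j1 k0 k1 t0 t1
                    · have k0 := k0s.le
                      exact L35 hrj hrk j0 j1 k0 k1 t0 t1
              · have j0 := j0s.le
                rcases le_or_gt rk (21 / 16) with k1 | k0s
                · rcases le_or_gt rj (21 / 16) with j1 | j0s
                  · exact L36 hrj hrk j0 j1 k0 k1 t0 t1
                  · have j0 := j0s.le
                    exact absurd (lt_of_lt_of_le j0s (hjk.trans k1)) (by norm_num)
                · have k0 := k0s.le
                  rcases le_or_gt θ (3 * π / 4) with t1 | t0s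
                  · exact L37 hrj hrk j0 j1 k0 k1 t0 t1
                  · have t0 := t0s.le
                    exact L38 hrj hrk j0 j1 k0 k1 t0 t1
    · have k0 := k0s.le
      rcases le_or_gt rj (3 / 4) with j1 | j0s
      · rcases le_or_gt rj (3 / 8) with j1 | j0s
        · rcases le_or_gt rj (3 / 16) with j1 | j0s
          · exact L39 hrj hrk j0 j1 k0 k1 t0 t1
          · have j0 := j0s.le
            exact L40 hrj hrk j0 j1 k0 k1 t0 t1
        · have j0 := j0s.le
          rcases le_or_gt rk (9 / 4) with k1 | k0s
          · rcases le_or_gt θ (π / 2) with t1 | t0s
            · exact L41 hrj hrk j0 j1 k0 k1 t0 t1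
            · have t0 := t0s.le
              exact L42 hrj hrk j0 j1 k0 k1 t0 t1
          · have k0 := k0s.le
            exact L43 hrj hrk j0 j1 k0 k1 t0 t1
      · have j0 := j0s.le
        rcases le_or_gt rk (9 / 4) with k1 | k0s
        · rcases le_or_gt θ (π / 2) with t1 | t0s
          · rcases le_or_gt θ (π / 4) with t1 | t0s
            · rcases le_or_gt rj (9 / 8) with j1 | j0s
              · exact L44 hrj hrk j0 j1 k0 k1 t0 t1
              · have j0 := j0s.le
                exact L45 hrj hrk j0 j1 k0 k1 t0 t1
            · have t0 := t0s.le
              rcases le_or_gt rj (9 / 8) with j1 | j0s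
              · rcases le_or_gt θ (3 * π / 8) with t1 | t0s
                · exact L46 hrj hrk j0 j1 k0 k1 t0 t1
                · have t0 := t0s.le
                  exact L47 hrj hrk j0 j1 k0 k1 t0 t1
              · have j0 := j0s.le
                rcases le_or_gt θ (3 * π / 8) with t1 | t0s
                · rcases le_or_gt rk (15 / 8) with k1 | k0s
                  · rcases le_or_gt rk (27 / 16) with k1 | k0s
                    · rcases le_or_gt rj (21 / 16) with j1 | j0s
                      · exact L48 hrj hrk j0 j1 k0 k1 t0 t1
                      · have j0 := j0s.le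
                        exact L49 hrj hrk j0 j1 k0 k1 t0 t1
                    · have k0 := k0s.le
                      exact L50 hrj hrk j0 j1 k0 k1 t0 t1
                  · have k0 := k0s.le
                    exact L51 hrj hrk j0 j1 k0 k1 t0 t1
                · have t0 := t0s.le
                  rcases le_or_gt rk (15 / 8) with k1 | k0s
                  · exact L52 hrj hrk j0 j1 k0 k1 t0 t1
                  · have k0 := k0s.le
                    rcases le_or_gt rk (33 / 16) with k1 | k0s
                    · exact L53 hrj hrk j0 j1 k0 k1 t0 t1
                    · have k0 := k0s.le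
                      exact L54 hrj hrk j0 j1 k0 k1 t0 t1
          · have t0 := t0s.le
            rcases le_or_gt θ (3 * π / 4) with t1 | t0s
            · exact L55 hrj hrk j0 j1 k0 k1 t0 t1
            · have t0 := t0s.le
              rcases le_or_gt rj (9 / 8) with j1 | j0s
              · exact L56 hrj hrk j0 j1 k0 k1 t0 t1
              · have j0 := j0s.le
                exact L57 hrj hrk j0 j1 k0 k1 t0 t1
        · have k0 := k0s.le
          rcases le_or_gt θ (π / 2) with t1 | t0s
          · rcases le_or_gt rj (9 / 8) with j1 | j0s
            · exact L58 hrj hrk j0 j1 k0 k1 t0 t1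
            · have j0 := j0s.le
              exact L59 hrj hrk j0 j1 k0 k1 t0 t1
          · have t0 := t0s.le
            rcases le_or_gt rj (9 / 8) with j1 | j0s
            · exact L60 hrj hrk j0 j1 k0 k1 t0 t1
            · have j0 := j0s.le
              exact L61 hrj hrk j0 j1 k0 k1 t0 t1
  · have j0 := j0s.le
    rcases le_or_gt rk (3 / 2) with k1 | k0s
    · exact absurd (lt_of_lt_of_le j0s (hjk.trans k1)) (by norm_num)
    · have k0 := k0s.le
      rcases le_or_gt rj (9 / 4) with j1 | j0s
      · rcases le_or_gt rk (9 / 4) with k1 | k0s
        · rcases le_or_gt θ (π / 2) with t1 | t0s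
          · rcases le_or_gt θ (π / 4) with t1 | t0s
            · exact L62 hrj hrk j0 j1 k0 k1 t0 t1
            · have t0 := t0s.le
              rcases le_or_gt rk (15 / 8) with k1 | k0s
              · rcases le_or_gt θ (3 * π / 8) with t1 | t0s
                · rcases le_or_gt rj (15 / 8) with j1 | j0s
                  · exact L63 hrj hrk j0 j1 k0 k1 t0 t1
                  · have j0 := j0s.le
                    exact absurd (lt_of_lt_of_le j0s (hjk.trans k1)) (by norm_num)
                · have t0 := t0s.le
                  rcases le_or_gt rj (15 / 8) with j1 | j0s
                  · exact L64 hrj hrk j0 j1 k0 k1 t0 t1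
                  · have j0 := j0s.le
                    exact absurd (lt_of_lt_of_le j0s (hjk.trans k1)) (by norm_num)
              · have k0 := k0s.le
                rcases le_or_gt rj (15 / 8) with j1 | j0s
                · exact L65 hrj hrk j0 j1 k0 k1 t0 t1
                · have j0 := j0s.le
                  rcases le_or_gt rj (33 / 16) with j1 | j0s
                  · exact L66 hrj hrk j0 j1 k0 k1 t0 t1
                  · have j0 := j0s.le
                    exact L67 hrj hrk j0 j1 k0 k1 t0 t1
          · have t0 := t0s.le
            rcases le_or_gt θ (3 * π / 4) with t1 | t0s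
            · rcases le_or_gt rj (15 / 8) with j1 | j0s
              · exact L68 hrj hrk j0 j1 k0 k1 t0 t1
              · have j0 := j0s.le
                exact L69 hrj hrk j0 j1 k0 k1 t0 t1
            · have t0 := t0s.le
              exact L70 hrj hrk j0 j1 k0 k1 t0 t1
        · have k0 := k0s.le
          rcases le_or_gt θ (π / 2) with t1 | t0s
          · exact L71 hrj hrk j0 j1 k0 k1 t0 t1
          · have t0 := t0s.le
            rcases le_or_gt rj (15 / 8) with j1 | j0s
            · exact L72 hrj hrk j0 j1 k0 k1 t0 t1
            · have j0 := j0s.le
              exact L73 hrj hrk j0 j1 k0 k1 t0 t1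
      · have j0 := j0s.le
        rcases le_or_gt rk (9 / 4) with k1 | k0s
        · exact absurd (lt_of_lt_of_le j0s (hjk.trans k1)) (by norm_num)
        · have k0 := k0s.le
          exact L74 hrj hrk j0 j1 k0 k1 t0 t1

end Pool.Agent.RRMG
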